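import Mathlib

set_option autoImplicit false
open scoped ENNReal BigOperators

namespace Pool.Agent.H592

noncomputable section

/-! Averages over the paths of simple random walk, in the extended non-negative reals. -/

section Av

variable {ι : Type*} [Fintype ι]

/-- the average of `F` over all lists of `n` steps -/
def Av : ℕ → (List ι → ℝ≥0∞) → ℝ≥0∞
  | 0, F => F []
  | n + 1, F => (∑ e : ι, Av n (fun l => F (e :: l))) / (Fintype.card ι : ℝ≥0∞)

theorem Av_zero (F : List ι → ℝ≥0∞) : Av 0 F = F [] := rfl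

theorem Av_succ (n : ℕ) (F : List ι → ℝ≥0∞) :
    Av (n + 1) F = (∑ e : ι, Av n (fun l => F (e :: l))) / (Fintype.card ι : ℝ≥0∞) := rfl

theorem Av_mono (n : ℕ) {F G : List ι → ℝ≥0∞} (h : ∀ l, l.length = n → F l ≤ G l) :
    Av n F ≤ Av n G := by
  induction n generalizing F G with
  | zero => exact h [] rfl
  | succ n ih =>
    rw [Av_succ, Av_succ]
    gcongr with e _
    exact ih (fun l hl => h (e :: l) (by simp [hl]))

theorem Av_congr (n : ℕ) {F G : List ι → ℝ≥0∞} (h : ∀ l, l.length = n → F l = G l) :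
    Av n F = Av n G :=
  le_antisymm (Av_mono n fun l hl => (h l hl).le) (Av_mono n fun l hl => (h l hl).ge)

theorem Av_add (n : ℕ) (F G : List ι → ℝ≥0∞) :
    Av n (fun l => F l + G l) = Av n F + Av n G := by
  induction n generalizing F G with
  | zero => rfl
  | succ n ih =>
    rw [Av_succ, Av_succ, Av_succ]
    simp_rw [ih]
    rw [Finset.sum_add_distrib, ENNReal.add_div]

theorem Av_mul_left (n : ℕ) (c : ℝ≥0∞) (F : List ι → ℝ≥0∞) :
    Av n (fun l => c * F l) = c * Av n F := by
  induction n generalizing F with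
  | zero => rfl
  | succ n ih =>
    rw [Av_succ, Av_succ]
    simp_rw [ih]
    rw [← Finset.mul_sum, mul_div_assoc]

theorem Av_mul_right (n : ℕ) (c : ℝ≥0∞) (F : List ι → ℝ≥0∞) :
    Av n (fun l => F l * c) = Av n F * c := by
  simp_rw [mul_comm _ c]
  rw [Av_mul_left]

theorem card_ne_zero' [Nonempty ι] : (Fintype.card ι : ℝ≥0∞) ≠ 0 := by
  simp [Fintype.card_ne_zero]

theorem Av_const [Nonempty ι] (n : ℕ) (c : ℝ≥0∞) : Av n (fun _ : List ι => c) = c := by
  induction n with
  | zero => rfl
  | succ n ih =>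
    rw [Av_succ]
    simp_rw [ih]
    rw [Finset.sum_const, Finset.card_univ, nsmul_eq_mul, mul_comm, mul_div_assoc,
      ENNReal.div_self card_ne_zero' (ENNReal.natCast_ne_top _), mul_one]

theorem Av_zero_fun (n : ℕ) : Av n (fun _ : List ι => 0) = 0 := by
  have := Av_mul_left (ι := ι) n 0 (fun _ => 0)
  simpa using this

theorem Av_sum {κ : Type*} (n : ℕ) (s : Finset κ) (F : κ → List ι → ℝ≥0∞) :
    Av n (fun l => ∑ k ∈ s, F k l) = ∑ k ∈ s, Av n (F k) := by
  classical
  induction s using Finset.induction_on with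
  | empty => simp [Av_zero_fun]
  | insert a s ha ih =>
    simp_rw [Finset.sum_insert ha]
    rw [Av_add, ih]

theorem Av_tsum {κ : Type*} (n : ℕ) (F : κ → List ι → ℝ≥0∞) :
    Av n (fun l => ∑' k, F k l) = ∑' k, Av n (F k) := by
  induction n generalizing F with
  | zero => rfl
  | succ n ih =>
    rw [Av_succ]
    simp_rw [Av_succ, ih]
    rw [← Summable.tsum_finsetSum (fun i _ => ENNReal.summable)]
    simp_rw [div_eq_mul_inv]
    rw [ENNReal.tsum_mul_right]

theorem Av_append (m n : ℕ) (F : List ι → ℝ≥0∞) :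
    Av (m + n) F = Av m (fun l => Av n (fun l' => F (l ++ l'))) := by
  induction m generalizing F with
  | zero => simp [Av_zero]
  | succ m ih =>
    rw [show m + 1 + n = (m + n) + 1 by ring, Av_succ, Av_succ]
    simp_rw [ih]
    rfl

theorem Av_take [Nonempty ι] (k n : ℕ) (hk : k ≤ n) (F : List ι → ℝ≥0∞) :
    Av n (fun l => F (l.take k)) = Av k F := by
  obtain ⟨m, rfl⟩ := Nat.exists_eq_add_of_le hk
  rw [Av_append]
  refine Av_congr k fun l hl => ?_
  have : ∀ l' : List ι, (l ++ l').take k = l := by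
    intro l'
    rw [List.take_append_of_le_length (by omega)]
    exact List.take_of_length_le (by omega)
  simp_rw [this]
  exact Av_const m _

/-- the average over functions `Fin n → ι` -/
theorem Av_eq_sum_ofFn (n : ℕ) (F : List ι → ℝ≥0∞) :
    Av n F = (∑ s : Fin n → ι, F (List.ofFn s)) / (Fintype.card ι : ℝ≥0∞) ^ n := by
  induction n generalizing F with
  | zero => simp [Av_zero]
  | succ n ih =>
    rw [Av_succ]
    simp_rw [ih]
    rw [← (Fin.consEquiv (fun _ => ι)).sum_comp, Fintype.sum_prod_type]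
    have h1 : ∀ (a : ι) (b : Fin n → ι), List.ofFn ((Fin.consEquiv (fun _ => ι)) (a, b))
        = a :: List.ofFn b := by
      intro a b
      simp [Fin.consEquiv, List.ofFn_succ]
    simp_rw [h1, div_eq_mul_inv]
    rw [← Finset.sum_mul, mul_assoc]
    congr 1
    rw [← ENNReal.mul_inv (by simp) (by simp), pow_succ]

end Av

/-! Points visited by a path. -/

/-- the lattice -/
abbrev V (d : ℕ) := Fin d → ℤ

/-- the steps -/
abbrev Stp (d : ℕ) := Fin d × Bool

/-- the displacement of a step -/
def stp {d : ℕ} (s : Stp d) : V d := Pi.single s.1 (if s.2 then (1 : ℤ) else -1)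

/-- list of the positions -/
def pts {d : ℕ} : V d → List (Stp d) → List (V d)
  | x, [] => [x]
  | x, e :: l => x :: pts (x + stp e) l

variable {d : ℕ}

@[simp] theorem pts_nil (x : V d) : pts x [] = [x] := rfl
@[simp] theorem pts_cons (x : V d) (e : Stp d) (l : List (Stp d)) :
    pts x (e :: l) = x :: pts (x + stp e) l := rfl

theorem pts_add (x y : V d) (l : List (Stp d)) : pts (x + y) l = (pts y l).map (x + ·) := by
  induction l generalizing y with
  | nil => rfl
  | cons e l ih => simp [add_assoc, ih]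

theorem pts_eq_map (x : V d) (l : List (Stp d)) : pts x l = (pts 0 l).map (x + ·) := by
  simpa using pts_add x 0 l

theorem pts_length (x : V d) (l : List (Stp d)) : (pts x l).length = l.length + 1 := by
  induction l generalizing x with
  | nil => rfl
  | cons e l ih => simp [ih]

theorem mem_pts_self (x : V d) (l : List (Stp d)) : x ∈ pts x l := by
  cases l <;> simp

/-- trace from the origin -/
def tr (l : List (Stp d)) : Finset (V d) := (pts 0 l).toFinset

theorem zero_mem_tr (l : List (Stp d)) : (0 : V d) ∈ tr l := by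
  simp [tr, mem_pts_self]

theorem mem_pts_iff (x z : V d) (l : List (Stp d)) : z ∈ pts x l ↔ z - x ∈ tr l := by
  rw [pts_eq_map, tr]
  simp only [List.mem_map, List.mem_toFinset]
  constructor
  · rintro ⟨a, ha, rfl⟩; simpa using ha
  · intro h; exact ⟨z - x, h, by simp⟩

/-- occupation sum -/
def S (f : V d → ℝ≥0∞) (x : V d) (l : List (Stp d)) : ℝ≥0∞ := ((pts x l).map f).sum

@[simp] theorem S_nil (f : V d → ℝ≥0∞) (x : V d) : S f x [] = f x := by simp [S]
@[simp] theorem S_cons (f : V d → ℝ≥0∞) (x : V d) (e : Stp d) (l : List (Stp d)) :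
    S f x (e :: l) = f x + S f (x + stp e) l := by simp [S]

/-- one-step operator -/
def PP (f : V d → ℝ≥0∞) (x : V d) : ℝ≥0∞ :=
  (∑ e : Stp d, f (x + stp e)) / (Fintype.card (Stp d) : ℝ≥0∞)

theorem PP_mono {f g : V d → ℝ≥0∞} (h : ∀ x, f x ≤ g x) (x : V d) : PP f x ≤ PP g x := by
  unfold PP
  gcongr with e _
  exact h _

theorem PP_add (f g : V d → ℝ≥0∞) (x : V d) : PP (fun y => f y + g y) x = PP f x + PP g x := by
  unfold PP
  rw [Finset.sum_add_distrib, ENNReal.add_div]

theorem PP_mul_left (c : ℝ≥0∞) (f : V d → ℝ≥0∞) (x : V d) :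
    PP (fun y => c * f y) x = c * PP f x := by
  unfold PP
  rw [← Finset.mul_sum, mul_div_assoc]

theorem PP_const [NeZero d] (c : ℝ≥0∞) (x : V d) : PP (fun _ => c) x = c := by
  unfold PP
  rw [Finset.sum_const, Finset.card_univ, nsmul_eq_mul, mul_comm, mul_div_assoc,
    ENNReal.div_self card_ne_zero' (ENNReal.natCast_ne_top _), mul_one]

theorem PPn_mono (n : ℕ) {f g : V d → ℝ≥0∞} (h : ∀ x, f x ≤ g x) (x : V d) :
    PP^[n] f x ≤ PP^[n] g x := by
  induction n generalizing f g with
  | zero => exact h x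
  | succ n ih =>
    rw [Function.iterate_succ_apply, Function.iterate_succ_apply]
    exact ih (fun y => PP_mono h y)

theorem PPn_add (n : ℕ) (f g : V d → ℝ≥0∞) (x : V d) :
    PP^[n] (fun y => f y + g y) x = PP^[n] f x + PP^[n] g x := by
  induction n generalizing f g with
  | zero => rfl
  | succ n ih =>
    rw [Function.iterate_succ_apply, Function.iterate_succ_apply, Function.iterate_succ_apply, ← ih]
    exact congrArg (fun g => PP^[n] g x) (funext fun y => PP_add f g y)

theorem PPn_mul_left (n : ℕ) (c : ℝ≥0∞) (f : V d → ℝ≥0∞) (x : V d) :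
    PP^[n] (fun y => c * f y) x = c * PP^[n] f x := by
  induction n generalizing f with
  | zero => rfl
  | succ n ih =>
    rw [Function.iterate_succ_apply, Function.iterate_succ_apply, ← ih]
    exact congrArg (fun g => PP^[n] g x) (funext fun y => PP_mul_left c f y)

theorem PPn_const [NeZero d] (n : ℕ) (c : ℝ≥0∞) (x : V d) : PP^[n] (fun _ => c) x = c := by
  induction n with
  | zero => rfl
  | succ n ih =>
    rw [Function.iterate_succ_apply]
    have : PP (fun _ : V d => c) = fun _ => c := by funext y; exact PP_const c y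
    rw [this, ih]

/-- translation -/
theorem PP_shift (f : V d → ℝ≥0∞) (c x : V d) : PP (fun y => f (c + y)) x = PP f (c + x) := by
  unfold PP
  simp [add_assoc]

theorem PPn_shift (n : ℕ) (f : V d → ℝ≥0∞) (c x : V d) :
    PP^[n] (fun y => f (c + y)) x = PP^[n] f (c + x) := by
  induction n generalizing f with
  | zero => rfl
  | succ n ih =>
    rw [Function.iterate_succ_apply, Function.iterate_succ_apply, ← ih]
    exact congrArg (fun g => PP^[n] g x) (funext fun y => PP_shift f c y)

theorem stp_not (j : Fin d) (b : Bool) : stp (j, !b) = - stp (j, b) := by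
  unfold stp
  cases b <;> simp [← Pi.single_neg]

/-- reflection -/
theorem PP_neg (f : V d → ℝ≥0∞) (x : V d) : PP (fun y => f (-y)) x = PP f (-x) := by
  unfold PP
  congr 1
  let φ : Stp d ≃ Stp d :=
    { toFun := fun s => (s.1, !s.2)
      invFun := fun s => (s.1, !s.2)
      left_inv := fun s => by simp
      right_inv := fun s => by simp }
  rw [← Equiv.sum_comp φ]
  refine Finset.sum_congr rfl fun s _ => ?_
  show f (-(x + stp (s.1, !s.2))) = f (-x + stp s)
  rw [stp_not]
  congr 1
  simp [add_comm]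

theorem PPn_neg (n : ℕ) (f : V d → ℝ≥0∞) (x : V d) :
    PP^[n] (fun y => f (-y)) x = PP^[n] f (-x) := by
  induction n generalizing f with
  | zero => rfl
  | succ n ih =>
    rw [Function.iterate_succ_apply, Function.iterate_succ_apply, ← ih]
    exact congrArg (fun g => PP^[n] g x) (funext fun y => PP_neg f y)

theorem Av_succ_S (n : ℕ) [NeZero d] (f : V d → ℝ≥0∞) (x : V d) :
    Av (n + 1) (S f x) = f x + PP (fun y => Av n (S f y)) x := by
  rw [Av_succ]
  simp only [S_cons]
  simp_rw [Av_add, Av_const]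
  rw [Finset.sum_add_distrib, ENNReal.add_div]
  congr 1
  rw [Finset.sum_const, Finset.card_univ, nsmul_eq_mul, mul_comm, mul_div_assoc,
    ENNReal.div_self card_ne_zero' (ENNReal.natCast_ne_top _), mul_one]

theorem Av_S [NeZero d] (n : ℕ) (f : V d → ℝ≥0∞) (x : V d) :
    Av n (S f x) = ∑ u ∈ Finset.range (n + 1), PP^[u] f x := by
  induction n generalizing x with
  | zero => simp [Av_zero]
  | succ n ih =>
    rw [Av_succ_S]
    simp_rw [ih]
    rw [Finset.sum_range_succ' _ (n + 1)]
    rw [add_comm]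
    congr 1
    have : ∀ s : Finset ℕ, PP (fun y => ∑ u ∈ s, PP^[u] f y) x = ∑ u ∈ s, PP^[u + 1] f x := by
      intro s
      classical
      induction s using Finset.induction_on with
      | empty =>
        simp only [Finset.sum_empty]
        exact PP_const 0 x
      | insert a s ha ih2 =>
        simp_rw [Finset.sum_insert ha]
        rw [PP_add, ih2, Function.iterate_succ_apply']
    rw [this]

theorem tsum_shift (f : V d → ℝ≥0∞) (c : V d) : ∑' x, f (x + c) = ∑' x, f x :=
  (Equiv.addRight c).tsum_eq f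

theorem tsum_PP [NeZero d] (f : V d → ℝ≥0∞) : ∑' x, PP f x = ∑' x, f x := by
  unfold PP
  simp_rw [div_eq_mul_inv]
  rw [ENNReal.tsum_mul_right, Summable.tsum_finsetSum (fun i _ => ENNReal.summable)]
  simp_rw [tsum_shift]
  rw [Finset.sum_const, Finset.card_univ, nsmul_eq_mul, mul_comm (Fintype.card (Stp d) : ℝ≥0∞),
    mul_assoc, ENNReal.mul_inv_cancel card_ne_zero' (ENNReal.natCast_ne_top _), mul_one]

theorem tsum_Av_S [NeZero d] (n : ℕ) (f : V d → ℝ≥0∞) :
    ∑' x, Av n (S f x) = (n + 1 : ℝ≥0∞) * ∑' x, f x := by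
  induction n with
  | zero => simp [Av_zero]
  | succ n ih =>
    simp_rw [Av_succ_S]
    rw [ENNReal.tsum_add, tsum_PP, ih]
    push_cast
    ring

end

end Pool.Agent.H592
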