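import Mathlib
import Pool.Agent.H592W.Walk

set_option autoImplicit false
open scoped ENNReal BigOperators

namespace Pool.Agent.H592

noncomputable section

variable {d : ℕ}

/-- the box of radius `R` around `x` -/
def Bx (x : V d) (R : ℕ) : Finset (V d) :=
  Finset.Icc (fun j => x j - (R : ℤ)) (fun j => x j + (R : ℤ))

theorem mem_Bx {x z : V d} {R : ℕ} : z ∈ Bx x R ↔ ∀ j, |z j - x j| ≤ R := by
  unfold Bx
  rw [Finset.mem_Icc, Pi.le_def, Pi.le_def]
  constructor
  · rintro ⟨h1, h2⟩ j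
    rw [abs_le]
    constructor <;> linarith [h1 j, h2 j]
  · intro h
    constructor
    · intro j
      have := (abs_le.mp (h j)).1
      show x j - (R : ℤ) ≤ z j
      linarith
    · intro j
      have := (abs_le.mp (h j)).2
      show z j ≤ x j + (R : ℤ)
      linarith

theorem card_Bx (x : V d) (R : ℕ) : (Bx x R).card = (2 * R + 1) ^ d := by
  unfold Bx
  rw [Pi.card_Icc]
  simp only [Int.card_Icc]
  have : ∀ j : Fin d, (x j + (R : ℤ) + 1 - (x j - (R : ℤ))).toNat = 2 * R + 1 := by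
    intro j
    have : x j + (R : ℤ) + 1 - (x j - (R : ℤ)) = ((2 * R + 1 : ℕ) : ℤ) := by push_cast; ring
    rw [this, Int.toNat_natCast]
  simp [this]

/-- indicator of a finite set -/
def ind (B : Finset (V d)) (x : V d) : ℝ≥0∞ := if x ∈ B then 1 else 0

theorem tsum_ind (B : Finset (V d)) : ∑' x, ind B x = (B.card : ℝ≥0∞) := by
  unfold ind
  rw [tsum_eq_sum (s := B) (fun x hx => by simp [hx])]
  simp

/-- indicator of hitting a set -/
def hitI (B : Finset (V d)) (x : V d) (l : List (Stp d)) : ℝ≥0∞ :=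
  open Classical in if ∃ z ∈ pts x l, z ∈ B then 1 else 0

theorem hitI_le_one (B : Finset (V d)) (x : V d) (l : List (Stp d)) : hitI B x l ≤ 1 := by
  unfold hitI; split_ifs <;> simp

theorem Av_S_mono [NeZero d] {m n : ℕ} (h : m ≤ n) (f : V d → ℝ≥0∞) (x : V d) :
    Av m (S f x) ≤ Av n (S f x) := by
  rw [Av_S, Av_S]
  exact Finset.sum_le_sum_of_subset (Finset.range_mono (by omega))

theorem hit_occ [NeZero d] (B : Finset (V d)) (f : V d → ℝ≥0∞) (T n : ℕ) (g : ℝ≥0∞)
    (hg : ∀ y ∈ B, g ≤ Av T (S f y)) (x : V d) :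
    g * Av n (hitI B x) ≤ Av (n + T) (S f x) := by
  induction n generalizing x with
  | zero =>
    rw [Av_zero, zero_add]
    unfold hitI
    by_cases hx : x ∈ B
    · have : ∃ z ∈ pts x [], z ∈ B := ⟨x, by simp, hx⟩
      rw [if_pos this, mul_one]
      exact hg x hx
    · have : ¬ ∃ z ∈ pts x [], z ∈ B := by
        rintro ⟨z, hz, hzB⟩
        simp at hz
        exact hx (hz ▸ hzB)
      rw [if_neg this, mul_zero]
      exact zero_le
  | succ n ih =>
    by_cases hx : x ∈ B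
    · calc g * Av (n + 1) (hitI B x) ≤ g * Av (n + 1) (fun _ => 1) := by
            gcongr
            exact Av_mono _ fun l _ => hitI_le_one _ _ _
        _ = g := by rw [Av_const, mul_one]
        _ ≤ Av T (S f x) := hg x hx
        _ ≤ Av (n + 1 + T) (S f x) := Av_S_mono (by omega) _ _
    · have h1 : Av (n + 1) (hitI B x) = PP (fun y => Av n (hitI B y)) x := by
        rw [Av_succ, PP]
        congr 1
        refine Finset.sum_congr rfl fun e _ => ?_
        refine Av_congr n fun l _ => ?_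
        unfold hitI
        congr 1
        simp [hx]
      rw [h1, show n + 1 + T = (n + T) + 1 by ring, Av_succ_S, ← PP_mul_left]
      calc PP (fun y => g * Av n (hitI B y)) x ≤ PP (fun y => Av (n + T) (S f y)) x :=
            PP_mono (fun y => ih y) x
        _ ≤ _ := le_add_self

/-- total hitting number -/
theorem hit_total [NeZero d] (B : Finset (V d)) (f : V d → ℝ≥0∞) (T n : ℕ) (g : ℝ≥0∞)
    (hg : ∀ y ∈ B, g ≤ Av T (S f y)) :
    g * ∑' x, Av n (hitI B x) ≤ ((n + T : ℕ) + 1 : ℝ≥0∞) * ∑' x, f x := by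
  rw [← ENNReal.tsum_mul_left, ← tsum_Av_S]
  exact ENNReal.tsum_le_tsum fun x => hit_occ B f T n g hg x

/-- squared Euclidean norm -/
def sqZ (x : V d) : ℤ := ∑ j, x j ^ 2

theorem sqZ_nonneg (x : V d) : 0 ≤ sqZ x := Finset.sum_nonneg fun _ _ => sq_nonneg _

/-- coordinates of a step -/
theorem stp_apply (j i : Fin d) (b : Bool) :
    stp (j, b) i = if i = j then (if b then (1 : ℤ) else -1) else 0 := by
  simp [stp, Pi.single_apply]

theorem sqZ_add_stp (x : V d) (j : Fin d) (b : Bool) :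
    sqZ (x + stp (j, b)) = sqZ x + 2 * (if b then (1 : ℤ) else -1) * x j + 1 := by
  unfold sqZ
  have h : ∀ i, (x + stp (j, b)) i ^ 2
      = x i ^ 2 + (if i = j then (2 * (if b then (1 : ℤ) else -1) * x j + 1) else 0) := by
    intro i
    rw [Pi.add_apply, stp_apply]
    by_cases hij : i = j
    · subst hij
      cases b <;> simp <;> ring
    · simp [hij]
  simp_rw [h]
  rw [Finset.sum_add_distrib]
  simp
  ring

/-- squared norm, in the extended reals -/
def sq (x : V d) : ℝ≥0∞ := ((sqZ x).toNat : ℝ≥0∞)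

theorem sum_sqZ (x : V d) : ∑ e : Stp d, sqZ (x + stp e)
    = (Fintype.card (Stp d) : ℤ) * (sqZ x + 1) := by
  rw [Fintype.sum_prod_type]
  simp_rw [sqZ_add_stp]
  have h : ∀ j : Fin d, ∑ b : Bool, (sqZ x + 2 * (if b then (1 : ℤ) else -1) * x j + 1)
      = 2 * (sqZ x + 1) := by
    intro j
    simp
    ring
  simp_rw [h]
  simp
  ring

theorem PP_natCast [NeZero d] (f : V d → ℕ) (x : V d) (c : ℕ)
    (h : ∑ e : Stp d, f (x + stp e) ≤ Fintype.card (Stp d) * c) :
    PP (fun y => (f y : ℝ≥0∞)) x ≤ c := by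
  unfold PP
  rw [← Nat.cast_sum]
  refine ENNReal.div_le_of_le_mul ?_
  rw [mul_comm]
  exact_mod_cast h

theorem PP_sq [NeZero d] (x : V d) : PP sq x ≤ sq x + 1 := by
  have := PP_natCast (fun y => (sqZ y).toNat) x ((sqZ x).toNat + 1) (by
    zify
    have h1 : ∀ e : Stp d, ((sqZ (x + stp e)).toNat : ℤ) = sqZ (x + stp e) :=
      fun e => Int.toNat_of_nonneg (sqZ_nonneg _)
    simp_rw [h1]
    rw [Int.toNat_of_nonneg (sqZ_nonneg x), sum_sqZ])
  push_cast at this
  exact this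

theorem PPn_sq [NeZero d] (n : ℕ) : PP^[n] sq (0 : V d) ≤ n := by
  have key : ∀ n : ℕ, ∀ x : V d, PP^[n] sq x ≤ sq x + n := by
    intro n
    induction n with
    | zero => intro x; simp
    | succ n ih =>
      intro x
      rw [Function.iterate_succ_apply']
      calc PP (PP^[n] sq) x ≤ PP (fun y => sq y + n) x := PP_mono ih x
        _ = PP sq x + n := by rw [PP_add, PP_const]
        _ ≤ sq x + 1 + n := by gcongr; exact PP_sq x
        _ = sq x + ((n + 1 : ℕ) : ℝ≥0∞) := by push_cast; ring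
  have := key n 0
  simpa [sq, sqZ] using this

/-- Chebyshev -/
theorem occ_lower [NeZero d] (R u : ℕ) :
    (R : ℝ≥0∞) ^ 2 ≤ (R : ℝ≥0∞) ^ 2 * PP^[u] (ind (Bx (0 : V d) R)) 0 + u := by
  have h : ∀ x : V d, (R : ℝ≥0∞) ^ 2 ≤ (R : ℝ≥0∞) ^ 2 * ind (Bx 0 R) x + sq x := by
    intro x
    unfold ind
    by_cases hx : x ∈ Bx 0 R
    · rw [if_pos hx, mul_one]; exact le_self_add
    · rw [if_neg hx, mul_zero, zero_add]
      rw [mem_Bx] at hx
      push Not at hx
      obtain ⟨j, hj⟩ := hx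
      unfold sq
      have h2 : R ^ 2 ≤ (sqZ x).toNat := by
        zify
        rw [Int.toNat_of_nonneg (sqZ_nonneg x)]
        calc (R : ℤ) ^ 2 ≤ |x j| ^ 2 := by
              have : (R : ℤ) < |x j| := by simpa using hj
              gcongr
          _ = x j ^ 2 := sq_abs _
          _ ≤ sqZ x := Finset.single_le_sum (f := fun j => x j ^ 2)
              (fun i _ => sq_nonneg _) (Finset.mem_univ j)
      exact_mod_cast h2
  calc (R : ℝ≥0∞) ^ 2 = PP^[u] (fun _ => (R : ℝ≥0∞) ^ 2) (0 : V d) := (PPn_const _ _ _).symm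
    _ ≤ PP^[u] (fun x => (R : ℝ≥0∞) ^ 2 * ind (Bx 0 R) x + sq x) 0 := PPn_mono u h 0
    _ = (R : ℝ≥0∞) ^ 2 * PP^[u] (ind (Bx (0 : V d) R)) 0 + PP^[u] sq 0 := by
        rw [PPn_add, PPn_mul_left]
    _ ≤ _ := by gcongr; exact PPn_sq u

/-- time spent in the double box, from a point of the box -/
theorem occ_shift [NeZero d] (c y : V d) (R T : ℕ) (hy : y ∈ Bx c R) :
    ∑ u ∈ Finset.range (T + 1), PP^[u] (ind (Bx (0 : V d) R)) 0
      ≤ Av T (S (ind (Bx c (2 * R))) y) := by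
  rw [Av_S]
  refine Finset.sum_le_sum fun u _ => ?_
  have h : PP^[u] (ind (Bx c (2 * R))) y = PP^[u] (fun z => ind (Bx c (2 * R)) (y + z)) 0 := by
    rw [PPn_shift, add_zero]
  rw [h]
  refine PPn_mono u (fun z => ?_) 0
  unfold ind
  by_cases hz : z ∈ Bx (0 : V d) R
  · have : y + z ∈ Bx c (2 * R) := by
      rw [mem_Bx] at *
      intro j
      have h1 := hy j
      have h2 := hz j
      simp only [Pi.zero_apply, sub_zero] at h2
      rw [abs_le] at *
      push_cast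
      simp only [Pi.add_apply]
      constructor <;> linarith [h1.1, h1.2, h2.1, h2.2]
    rw [if_pos hz, if_pos this]
  · rw [if_neg hz]; exact zero_le

theorem occ_half [NeZero d] (R u : ℕ) (hR : 1 ≤ R) (hu : 2 * u ≤ R ^ 2) :
    (1 / 2 : ℝ≥0∞) ≤ PP^[u] (ind (Bx (0 : V d) R)) 0 := by
  have h := occ_lower (d := d) R u
  set p := PP^[u] (ind (Bx (0 : V d) R)) 0
  by_contra hlt
  push Not at hlt
  have hp : p ≠ ⊤ := ne_top_of_lt hlt
  have hR2 : (0 : ℝ) < (R : ℝ) ^ 2 := by positivity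
  have h' : (R : ℝ) ^ 2 ≤ (R : ℝ) ^ 2 * p.toReal + u := by
    have := (ENNReal.toReal_le_toReal (by simp) (by
      refine ENNReal.add_ne_top.mpr ⟨ENNReal.mul_ne_top (by simp) hp, by simp⟩)).mpr h
    rw [ENNReal.toReal_add (ENNReal.mul_ne_top (by simp) hp) (by simp), ENNReal.toReal_mul] at this
    simpa using this
  have hp2 : p.toReal < 1 / 2 := by
    have := (ENNReal.toReal_lt_toReal hp (by simp)).mpr hlt
    simpa using this
  have hu' : (2 : ℝ) * u ≤ (R : ℝ) ^ 2 := by exact_mod_cast hu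
  nlinarith

/-- the hitting number of a box: `≤ C (R^d + n R^{d-2})` in the form used -/
theorem hit_box [NeZero d] (c : V d) (R n : ℕ) (hR : 1 ≤ R) :
    (R : ℝ≥0∞) ^ 2 * ∑' x, Av n (hitI (Bx c R) x)
      ≤ 4 * ((n : ℝ≥0∞) + (R : ℝ≥0∞) ^ 2 + 1) * (4 * R + 1) ^ d := by
  have h1 : ∀ y ∈ Bx c R, ((R : ℝ≥0∞) ^ 2 / 4) ≤ Av (R ^ 2) (S (ind (Bx c (2 * R))) y) := by
    intro y hy
    refine le_trans ?_ (occ_shift c y R (R ^ 2) hy)
    have hsub : Finset.range (R ^ 2 / 2 + 1) ⊆ Finset.range (R ^ 2 + 1) :=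
      Finset.range_mono (by omega)
    refine le_trans ?_ (Finset.sum_le_sum_of_subset hsub)
    calc (R : ℝ≥0∞) ^ 2 / 4 ≤ ∑ u ∈ Finset.range (R ^ 2 / 2 + 1), (1 / 2 : ℝ≥0∞) := by
          rw [Finset.sum_const, Finset.card_range, nsmul_eq_mul]
          have : R ^ 2 ≤ 2 * (R ^ 2 / 2 + 1) := by omega
          have h2 : (R : ℝ≥0∞) ^ 2 ≤ 2 * ((R ^ 2 / 2 + 1 : ℕ) : ℝ≥0∞) := by exact_mod_cast this
          refine ENNReal.div_le_of_le_mul ?_
          refine h2.trans (le_of_eq ?_)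
          rw [one_div, mul_assoc, mul_comm _ (4 : ℝ≥0∞), mul_comm _ (4 * _ : ℝ≥0∞)]
          rw [show (4 : ℝ≥0∞) * 2⁻¹ = 2 by
            rw [show (4 : ℝ≥0∞) = 2 * 2 by norm_num, mul_assoc, ENNReal.mul_inv_cancel (by simp) (by simp), mul_one]]
      _ ≤ _ := Finset.sum_le_sum fun u hu => occ_half R u hR (by
          have := Finset.mem_range.mp hu
          omega)
  have h2 := hit_total (Bx c R) (ind (Bx c (2 * R))) (R ^ 2) n ((R : ℝ≥0∞) ^ 2 / 4) h1
  rw [tsum_ind, card_Bx] at h2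
  have h3 : (R : ℝ≥0∞) ^ 2 * ∑' x, Av n (hitI (Bx c R) x)
      = 4 * ((R : ℝ≥0∞) ^ 2 / 4 * ∑' x, Av n (hitI (Bx c R) x)) := by
    rw [← mul_assoc, ENNReal.mul_div_cancel (by simp) (by simp)]
  rw [h3, mul_assoc]
  refine mul_le_mul' le_rfl (h2.trans (le_of_eq ?_))
  push_cast
  ring_nf

end

end Pool.Agent.H592
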