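import Mathlib
import Pool.Agent.H592W.Hit

set_option autoImplicit false
open scoped ENNReal BigOperators

namespace Pool.Agent.H592

noncomputable section

variable {d : ℕ}

/-- sum over the steps of a function of one coordinate -/
theorem sum_coord (j : Fin d) (x : V d) (g : ℤ → ℕ) (c : ℕ) (h0 : g (x j) ≤ c)
    (h1 : g (x j + 1) + g (x j - 1) ≤ 2 * c) :
    ∑ e : Stp d, g ((x + stp e) j) ≤ Fintype.card (Stp d) * c := by
  rw [Fintype.sum_prod_type]
  have h2 : ∀ i : Fin d, ∑ b : Bool, g ((x + stp (i, b)) j) ≤ 2 * c := by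
    intro i
    simp only [Fintype.sum_bool, Pi.add_apply, stp_apply]
    by_cases hij : j = i
    · simp only [hij, if_true]
      rw [hij] at h1
      simpa [sub_eq_add_neg] using h1
    · simp only [hij, if_false, add_zero]
      omega
  calc ∑ i : Fin d, ∑ b : Bool, g ((x + stp (i, b)) j) ≤ ∑ i : Fin d, 2 * c :=
        Finset.sum_le_sum fun i _ => h2 i
    _ = _ := by simp; ring

def m2 (j : Fin d) (x : V d) : ℕ := (x j).natAbs ^ 2
def m4 (j : Fin d) (x : V d) : ℕ := ((x j).natAbs ^ 2) ^ 2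
def m6 (j : Fin d) (x : V d) : ℕ := ((x j).natAbs ^ 2) ^ 3

theorem PP_m2 [NeZero d] (j : Fin d) (x : V d) :
    PP (fun y => (m2 j y : ℝ≥0∞)) x ≤ (m2 j x : ℝ≥0∞) + 1 := by
  have := PP_natCast (m2 j) x (m2 j x + 1) (sum_coord j x (fun a => a.natAbs ^ 2) _ (by
    unfold m2; omega) (by
    unfold m2
    zify
    simp only [sq_abs]
    nlinarith))
  push_cast at this
  exact this

theorem PP_m4 [NeZero d] (j : Fin d) (x : V d) :
    PP (fun y => (m4 j y : ℝ≥0∞)) x ≤ (m4 j x : ℝ≥0∞) + 6 * m2 j x + 1 := by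
  have := PP_natCast (m4 j) x (m4 j x + 6 * m2 j x + 1)
    (sum_coord j x (fun a => (a.natAbs ^ 2) ^ 2) _ (by
    unfold m4; nlinarith [Nat.zero_le (m2 j x)]) (by
    unfold m4 m2
    zify
    simp only [sq_abs]
    have : (x j + 1) ^ 2 = x j ^ 2 + 2 * x j + 1 := by ring
    nlinarith))
  push_cast at this
  exact this

theorem PP_m6 [NeZero d] (j : Fin d) (x : V d) :
    PP (fun y => (m6 j y : ℝ≥0∞)) x ≤ (m6 j x : ℝ≥0∞) + 15 * m4 j x + 15 * m2 j x + 1 := by
  have := PP_natCast (m6 j) x (m6 j x + 15 * m4 j x + 15 * m2 j x + 1)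
    (sum_coord j x (fun a => (a.natAbs ^ 2) ^ 3) _ (by
    unfold m6; omega) (by
    unfold m6 m4 m2
    zify
    simp only [sq_abs]
    apply le_of_eq
    ring))
  push_cast at this
  exact this

theorem PPn_moments [NeZero d] (j : Fin d) (n : ℕ) :
    PP^[n] (fun y => (m2 j y : ℝ≥0∞)) 0 ≤ n ∧
    PP^[n] (fun y => (m4 j y : ℝ≥0∞)) 0 ≤ 3 * (n : ℝ≥0∞) ^ 2 ∧
    PP^[n] (fun y => (m6 j y : ℝ≥0∞)) 0 ≤ 15 * (n : ℝ≥0∞) ^ 3 := by
  induction n with
  | zero => simp [m2, m4, m6]
  | succ n ih =>
    obtain ⟨h2, h4, h6⟩ := ih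
    refine ⟨?_, ?_, ?_⟩
    · rw [Function.iterate_succ_apply]
      calc PP^[n] (PP fun y => (m2 j y : ℝ≥0∞)) 0
          ≤ PP^[n] (fun y => (m2 j y : ℝ≥0∞) + 1) 0 := PPn_mono n (PP_m2 j) 0
        _ = PP^[n] (fun y => (m2 j y : ℝ≥0∞)) 0 + 1 := by rw [PPn_add, PPn_const]
        _ ≤ n + 1 := by gcongr
        _ = _ := by push_cast; rfl
    · rw [Function.iterate_succ_apply]
      calc PP^[n] (PP fun y => (m4 j y : ℝ≥0∞)) 0
          ≤ PP^[n] (fun y => (m4 j y : ℝ≥0∞) + 6 * m2 j y + 1) 0 := PPn_mono n (PP_m4 j) 0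
        _ = PP^[n] (fun y => (m4 j y : ℝ≥0∞)) 0 + 6 * PP^[n] (fun y => (m2 j y : ℝ≥0∞)) 0 + 1 := by
            rw [PPn_add, PPn_const, PPn_add, PPn_mul_left]
        _ ≤ 3 * (n : ℝ≥0∞) ^ 2 + 6 * n + 1 := by gcongr
        _ ≤ 3 * ((n + 1 : ℕ) : ℝ≥0∞) ^ 2 := by
            have : 3 * n ^ 2 + 6 * n + 1 ≤ 3 * (n + 1) ^ 2 := by nlinarith
            exact_mod_cast this
    · rw [Function.iterate_succ_apply]
      calc PP^[n] (PP fun y => (m6 j y : ℝ≥0∞)) 0
          ≤ PP^[n] (fun y => (m6 j y : ℝ≥0∞) + 15 * m4 j y + 15 * m2 j y + 1) 0 :=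
            PPn_mono n (PP_m6 j) 0
        _ = PP^[n] (fun y => (m6 j y : ℝ≥0∞)) 0 + 15 * PP^[n] (fun y => (m4 j y : ℝ≥0∞)) 0
              + 15 * PP^[n] (fun y => (m2 j y : ℝ≥0∞)) 0 + 1 := by
            rw [PPn_add, PPn_const, PPn_add, PPn_mul_left, PPn_add, PPn_mul_left]
        _ ≤ 15 * (n : ℝ≥0∞) ^ 3 + 15 * (3 * (n : ℝ≥0∞) ^ 2) + 15 * n + 1 := by gcongr
        _ ≤ 15 * ((n + 1 : ℕ) : ℝ≥0∞) ^ 3 := by
            have : 15 * n ^ 3 + 15 * (3 * n ^ 2) + 15 * n + 1 ≤ 15 * (n + 1) ^ 3 := by nlinarith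
            exact_mod_cast this

/-- indicator of a proposition -/
def one? (p : Prop) : ℝ≥0∞ := open Classical in if p then 1 else 0

theorem one?_mono {p q : Prop} (h : p → q) : one? p ≤ one? q := by
  unfold one?
  by_cases hp : p
  · rw [if_pos hp, if_pos (h hp)]
  · rw [if_neg hp]; exact zero_le

theorem one?_true {p : Prop} (h : p) : one? p = 1 := if_pos h
theorem one?_false {p : Prop} (h : ¬ p) : one? p = 0 := if_neg h
theorem one?_le_one (p : Prop) : one? p ≤ 1 := by unfold one?; split_ifs <;> simp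

/-- the probability of being above the starting level -/
theorem half_space [NeZero d] (j : Fin d) (s : ℤ) (n : ℕ) (x : V d) :
    1 ≤ 2 * PP^[n] (fun z => one? (s * x j ≤ s * z j)) x := by
  have h1 : PP^[n] (fun z => one? (s * x j ≤ s * z j)) x
      = PP^[n] (fun y : V d => one? (0 ≤ s * y j)) 0 := by
    have := PPn_shift n (fun z => one? (s * x j ≤ s * z j)) x 0
    rw [add_zero] at this
    rw [← this]
    refine congrArg (fun g => PP^[n] g 0) (funext fun y => ?_)
    congr 1
    simp [mul_add]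
  rw [h1]
  have h2 := PPn_neg n (fun y : V d => one? (0 ≤ s * y j)) 0
  rw [neg_zero] at h2
  calc (1 : ℝ≥0∞) = PP^[n] (fun _ => 1) (0 : V d) := (PPn_const _ _ _).symm
    _ ≤ PP^[n] (fun y : V d => one? (0 ≤ s * y j) + one? (0 ≤ s * (-y) j)) 0 := by
        refine PPn_mono n (fun y => ?_) 0
        rcases le_total 0 (s * y j) with h | h
        · rw [one?_true h]; exact le_self_add
        · have : 0 ≤ s * (-y) j := by simp only [Pi.neg_apply, mul_neg]; linarith
          rw [one?_true this]; exact le_add_self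
    _ = _ := by rw [PPn_add, h2, two_mul]

/-- reflection bound for the maximum -/
theorem reflection [NeZero d] (j : Fin d) (s L : ℤ) (n : ℕ) (x : V d) :
    Av n (fun l => one? (∃ z ∈ pts x l, L ≤ s * z j))
      ≤ 2 * PP^[n] (fun z => one? (L ≤ s * z j)) x := by
  by_cases hx : L ≤ s * x j
  · calc Av n (fun l => one? (∃ z ∈ pts x l, L ≤ s * z j)) ≤ Av n (fun _ => 1) :=
          Av_mono n fun l _ => one?_le_one _
      _ = 1 := Av_const n 1
      _ ≤ 2 * PP^[n] (fun z => one? (s * x j ≤ s * z j)) x := half_space j s n x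
      _ ≤ _ := by
          gcongr
          exact PPn_mono n (fun z => one?_mono fun h => hx.trans h) x
  · induction n generalizing x with
    | zero =>
      rw [Av_zero]
      rw [one?_false]
      · exact zero_le
      · rintro ⟨z, hz, hL⟩
        simp at hz
        exact hx (hz ▸ hL)
    | succ n ih =>
      have h1 : Av (n + 1) (fun l => one? (∃ z ∈ pts x l, L ≤ s * z j))
          = PP (fun y => Av n (fun l => one? (∃ z ∈ pts y l, L ≤ s * z j))) x := by
        rw [Av_succ, PP]
        congr 1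
        refine Finset.sum_congr rfl fun e _ => ?_
        refine Av_congr n fun l _ => ?_
        congr 1
        simp [hx]
      rw [h1, Function.iterate_succ_apply', ← PP_mul_left]
      refine PP_mono (fun y => ?_) x
      by_cases hy : L ≤ s * y j
      · calc Av n (fun l => one? (∃ z ∈ pts y l, L ≤ s * z j)) ≤ Av n (fun _ => 1) :=
              Av_mono n fun l _ => one?_le_one _
          _ = 1 := Av_const n 1
          _ ≤ 2 * PP^[n] (fun z => one? (s * y j ≤ s * z j)) y := half_space j s n y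
          _ ≤ _ := by
              gcongr
              exact PPn_mono n (fun z => one?_mono fun h => hy.trans h) y
      · exact ih y hy

/-- maximum over a list of a natural-valued function -/
def mx (f : V d → ℕ) (L : List (V d)) : ℕ := (L.map f).foldr max 0

@[simp] theorem mx_nil (f : V d → ℕ) : mx f [] = 0 := rfl
@[simp] theorem mx_cons (f : V d → ℕ) (a : V d) (L : List (V d)) :
    mx f (a :: L) = max (f a) (mx f L) := rfl

theorem le_mx (f : V d → ℕ) (L : List (V d)) {a : V d} (h : a ∈ L) : f a ≤ mx f L := by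
  induction L with
  | nil => simp at h
  | cons b L ih =>
    rw [mx_cons]
    rcases List.mem_cons.mp h with rfl | h
    · exact le_max_left _ _
    · exact (ih h).trans (le_max_right _ _)

theorem mx_attained (f : V d → ℕ) (L : List (V d)) (k : ℕ) (h : k + 1 ≤ mx f L) :
    ∃ a ∈ L, k + 1 ≤ f a := by
  induction L with
  | nil => simp at h
  | cons b L ih =>
    rw [mx_cons] at h
    rcases le_max_iff.mp h with h | h
    · exact ⟨b, by simp, h⟩
    · obtain ⟨a, ha, hk⟩ := ih h
      exact ⟨a, by simp [ha], hk⟩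

/-- layer cake -/
theorem layer (M : ℕ) : ∑ k ∈ Finset.range M, ((k + 1) ^ 6 - k ^ 6) = M ^ 6 := by
  induction M with
  | zero => simp
  | succ M ih =>
    rw [Finset.sum_range_succ, ih]
    have : M ^ 6 ≤ (M + 1) ^ 6 := Nat.pow_le_pow_left (by omega) 6
    omega

/-- sixth moment of the maximum of a signed coordinate -/
theorem max_coord [NeZero d] (j : Fin d) (s : ℤ) (hs : |s| = 1) (n : ℕ) :
    Av n (fun l => ((mx (fun z : V d => (s * z j).toNat) (pts 0 l) ^ 6 : ℕ) : ℝ≥0∞))
      ≤ 30 * (n : ℝ≥0∞) ^ 3 := by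
  have hbd : ∀ z : V d, (s * z j).toNat ≤ (z j).natAbs := by
    intro z
    have h1 : s * z j ≤ |z j| := by
      calc s * z j ≤ |s * z j| := le_abs_self _
        _ = |z j| := by rw [abs_mul, hs, one_mul]
    have h2 : ((z j).natAbs : ℤ) = |z j| := Int.natCast_natAbs _
    omega
  have hM : ∀ (l : List (Stp d)) (x : V d) (N : ℕ), (x j).natAbs ≤ N →
      mx (fun z : V d => (s * z j).toNat) (pts x l) ≤ N + l.length := by
    intro l
    induction l with
    | nil =>
      intro x N h
      simp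
      have := hbd x
      omega
    | cons e l ih =>
      intro x N h
      rw [pts_cons, mx_cons]
      refine max_le ?_ ?_
      · have := hbd x
        omega
      · refine (ih (x + stp e) (N + 1) ?_).trans (by simp; omega)
        have : ((x + stp e) j).natAbs ≤ (x j).natAbs + 1 := by
          obtain ⟨i, b⟩ := e
          rw [Pi.add_apply, stp_apply]
          split_ifs <;> omega
        omega
  set w : ℕ → ℝ≥0∞ := fun k => (((k + 1) ^ 6 - k ^ 6 : ℕ) : ℝ≥0∞) with hw
  have hlay : ∀ M N : ℕ, M ≤ N → ((M ^ 6 : ℕ) : ℝ≥0∞)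
      = ∑ k ∈ Finset.range N, w k * one? (k + 1 ≤ M) := by
    intro M N hMN
    rw [← layer M]
    push_cast
    rw [← Finset.sum_subset (Finset.range_mono hMN)]
    · refine Finset.sum_congr rfl fun k hk => ?_
      rw [one?_true (by have := Finset.mem_range.mp hk; omega), mul_one, hw]
      push_cast
      rfl
    · intro k _ hk
      rw [one?_false (by rw [Finset.mem_range] at hk; omega), mul_zero]
  have h1 : Av n (fun l => ((mx (fun z : V d => (s * z j).toNat) (pts 0 l) ^ 6 : ℕ) : ℝ≥0∞))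
      ≤ Av n (fun l => ∑ k ∈ Finset.range n, w k *
          one? (∃ z ∈ pts (0 : V d) l, ((k + 1 : ℕ) : ℤ) ≤ s * z j)) := by
    refine Av_mono n fun l hl => ?_
    rw [hlay _ n (by have := hM l 0 0 (by simp); omega)]
    refine Finset.sum_le_sum fun k _ => ?_
    refine mul_le_mul' le_rfl (one?_mono fun h => ?_)
    obtain ⟨a, ha, hk⟩ := mx_attained _ _ _ h
    exact ⟨a, ha, by omega⟩
  refine h1.trans ?_
  rw [Av_sum]
  simp_rw [Av_mul_left]
  calc ∑ k ∈ Finset.range n, w k *
          Av n (fun l => one? (∃ z ∈ pts (0 : V d) l, ((k + 1 : ℕ) : ℤ) ≤ s * z j))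
      ≤ ∑ k ∈ Finset.range n, w k *
          (2 * PP^[n] (fun z : V d => one? (((k + 1 : ℕ) : ℤ) ≤ s * z j)) 0) := by
        gcongr with k _
        exact reflection j s _ n 0
    _ = 2 * PP^[n] (fun z : V d => ∑ k ∈ Finset.range n, w k *
          one? (((k + 1 : ℕ) : ℤ) ≤ s * z j)) 0 := by
        have hs : ∀ t : Finset ℕ, PP^[n] (fun z : V d => ∑ k ∈ t, w k *
          one? (((k + 1 : ℕ) : ℤ) ≤ s * z j)) 0
            = ∑ k ∈ t, w k * PP^[n] (fun z : V d => one? (((k + 1 : ℕ) : ℤ) ≤ s * z j)) 0 := by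
          intro t
          classical
          induction t using Finset.induction_on with
          | empty => simp only [Finset.sum_empty]; exact PPn_const n 0 0
          | insert a t ha ih =>
            simp_rw [Finset.sum_insert ha]
            rw [PPn_add, ih, PPn_mul_left]
        rw [hs, Finset.mul_sum]
        refine Finset.sum_congr rfl fun k _ => by ring
    _ ≤ 2 * PP^[n] (fun z : V d => (m6 j z : ℝ≥0∞)) 0 := by
        gcongr
        refine PPn_mono n (fun z => ?_) 0
        calc ∑ k ∈ Finset.range n, w k * one? (((k + 1 : ℕ) : ℤ) ≤ s * z j)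
            ≤ ∑ k ∈ Finset.range (max n (z j).natAbs), w k * one? (k + 1 ≤ (z j).natAbs) := by
              refine (Finset.sum_le_sum fun k _ => ?_).trans
                (Finset.sum_le_sum_of_subset (Finset.range_mono (le_max_left n (z j).natAbs)))
              refine mul_le_mul' le_rfl (one?_mono fun h => ?_)
              have := hbd z
              omega
          _ = (((z j).natAbs ^ 6 : ℕ) : ℝ≥0∞) := (hlay _ _ (le_max_right _ _)).symm
          _ = (m6 j z : ℝ≥0∞) := by unfold m6; rw [← pow_mul]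
    _ ≤ 2 * (15 * (n : ℝ≥0∞) ^ 3) := by gcongr; exact (PPn_moments j n).2.2
    _ = _ := by ring

/-- the maximal displacement in the sup norm -/
def D (l : List (Stp d)) : ℕ := mx (fun z : V d => Finset.univ.sup fun j => (z j).natAbs) (pts 0 l)

theorem le_D (l : List (Stp d)) {z : V d} (hz : z ∈ pts 0 l) (j : Fin d) : (z j).natAbs ≤ D l := by
  refine le_trans ?_ (le_mx _ _ hz)
  exact Finset.le_sup (f := fun j => (z j).natAbs) (Finset.mem_univ j)

theorem Av_D6 [NeZero d] (n : ℕ) :
    Av n (fun l : List (Stp d) => ((D l : ℕ) : ℝ≥0∞) ^ 6) ≤ 60 * d * (n : ℝ≥0∞) ^ 3 := by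
  have h : ∀ l : List (Stp d), ((D l : ℕ) : ℝ≥0∞) ^ 6 ≤ ∑ j : Fin d,
      (((mx (fun z : V d => ((1 : ℤ) * z j).toNat) (pts 0 l) ^ 6 : ℕ) : ℝ≥0∞)
      + ((mx (fun z : V d => ((-1 : ℤ) * z j).toNat) (pts 0 l) ^ 6 : ℕ) : ℝ≥0∞)) := by
    intro l
    rcases Nat.eq_zero_or_pos (D l) with h0 | h0
    · rw [h0]; simp
    · obtain ⟨k, hk⟩ : ∃ k, D l = k + 1 := ⟨D l - 1, by omega⟩
      obtain ⟨a, ha, hka⟩ := mx_attained (fun z : V d => Finset.univ.sup fun j => (z j).natAbs)
        (pts 0 l) k (by unfold D at hk; omega)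
      obtain ⟨j, _, hj⟩ := Finset.exists_mem_eq_sup (Finset.univ : Finset (Fin d))
        Finset.univ_nonempty (fun j => (a j).natAbs)
      have hj2 : D l ≤ (a j).natAbs := by rw [← hj]; omega
      refine le_trans ?_ (Finset.single_le_sum (fun i _ => zero_le) (Finset.mem_univ j))
      rcases le_total 0 (a j) with hs | hs
      · have h1 : (a j).natAbs ≤ mx (fun z : V d => ((1 : ℤ) * z j).toNat) (pts 0 l) := by
          refine le_trans ?_ (le_mx _ _ ha)
          simp only [one_mul]; omega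
        refine le_trans ?_ le_self_add
        have := Nat.pow_le_pow_left (hj2.trans h1) 6
        exact_mod_cast this
      · have h1 : (a j).natAbs ≤ mx (fun z : V d => ((-1 : ℤ) * z j).toNat) (pts 0 l) := by
          refine le_trans ?_ (le_mx _ _ ha)
          simp only [neg_mul, one_mul]; omega
        refine le_trans ?_ le_add_self
        have := Nat.pow_le_pow_left (hj2.trans h1) 6
        exact_mod_cast this
  refine (Av_mono n fun l _ => h l).trans ?_
  rw [Av_sum]
  simp_rw [Av_add]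
  calc _ ≤ ∑ j : Fin d, (30 * (n : ℝ≥0∞) ^ 3 + 30 * (n : ℝ≥0∞) ^ 3) := by
        gcongr with j _
        · exact max_coord j 1 (by simp) n
        · exact max_coord j (-1) (by simp) n
    _ = _ := by
        rw [Finset.sum_const, Finset.card_univ, Fintype.card_fin, nsmul_eq_mul]; ring

end

end Pool.Agent.H592
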