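import Mathlib
import Pool.Agent.H592W.Mom

set_option autoImplicit false
open scoped ENNReal BigOperators

namespace Pool.Agent.H592

noncomputable section

variable {d : ℕ}

/-- the set `k.1 + k.2` meets the box -/
def touches (k : V d × Finset (V d)) (c : V d) (R : ℕ) : Prop := ∃ a ∈ k.2, k.1 + a ∈ Bx c R

/-- all coordinate differences are less than `r` -/
def small (r : ℕ) (A : Finset (V d)) : Prop := ∀ a ∈ A, ∀ b ∈ A, ∀ j, |a j - b j| < r

/-- bad worms for the box of radius `24 r` around `c` -/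
def bad (c : V d) (r : ℕ) (k : V d × Finset (V d)) : Prop :=
  touches k c (24 * r) ∧ (0 ∉ k.2 ∨ ¬ small r k.2)

/-- mean number of starting points of bad walks with `n` steps -/
def aa (c : V d) (r n : ℕ) : ℝ≥0∞ := Av n (fun l => ∑' x, one? (bad c r (x, tr l)))

theorem mem_tr_iff (l : List (Stp d)) (z : V d) : z ∈ tr l ↔ z ∈ pts 0 l := by
  simp [tr]

theorem not_small_D (r : ℕ) (l : List (Stp d)) (h : ¬ small r (tr l)) : r ≤ 2 * D l := by
  unfold small at h
  push Not at h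
  obtain ⟨a, ha, b, hb, j, hj⟩ := h
  rw [mem_tr_iff] at ha hb
  have h1 := le_D l ha j
  have h2 := le_D l hb j
  have h3 : ((a j).natAbs : ℤ) = |a j| := Int.natCast_natAbs _
  have h4 : ((b j).natAbs : ℤ) = |b j| := Int.natCast_natAbs _
  have h5 : |a j - b j| ≤ |a j| + |b j| := abs_sub _ _
  omega

theorem touches_count (c : V d) (R : ℕ) (l : List (Stp d)) :
    ∑' x, one? (touches (x, tr l) c R) ≤ ((2 * (R + D l) + 1 : ℕ) : ℝ≥0∞) ^ d := by
  have h : ∀ x : V d, one? (touches (x, tr l) c R) ≤ ind (Bx c (R + D l)) x := by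
    intro x
    by_cases hx : touches (x, tr l) c R
    · obtain ⟨a, ha, hB⟩ := hx
      simp only at ha hB
      rw [mem_tr_iff] at ha
      have : x ∈ Bx c (R + D l) := by
        rw [mem_Bx] at *
        intro j
        have h1 := le_D l ha j
        have h2 := hB j
        have h3 : ((a j).natAbs : ℤ) = |a j| := Int.natCast_natAbs _
        simp only [Pi.add_apply] at h2
        rw [abs_le] at *
        have h4 := neg_abs_le (a j)
        have h5 := le_abs_self (a j)
        push_cast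
        constructor <;> omega
      unfold ind
      rw [if_pos this]
      exact one?_le_one _
    · rw [one?_false hx]; exact zero_le
  calc ∑' x, one? (touches (x, tr l) c R) ≤ ∑' x, ind (Bx c (R + D l)) x :=
        ENNReal.tsum_le_tsum h
    _ = _ := by rw [tsum_ind, card_Bx]; push_cast; ring

theorem aa_small [NeZero d] (hd : d ≤ 6) (c : V d) (r n : ℕ) (hr : 1 ≤ r) :
    (r : ℝ≥0∞) ^ (6 - d) * aa c r n ≤ 99 ^ 6 * (60 * d * (n : ℝ≥0∞) ^ 3) := by
  unfold aa
  rw [← Av_mul_left]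
  calc Av n (fun l => (r : ℝ≥0∞) ^ (6 - d) * ∑' x, one? (bad c r (x, tr l)))
      ≤ Av n (fun l : List (Stp d) => 99 ^ 6 * ((D l : ℕ) : ℝ≥0∞) ^ 6) := by
        refine Av_mono n fun l _ => ?_
        by_cases hs : small r (tr l)
        · have : ∀ x, one? (bad c r (x, tr l)) = 0 := by
            intro x
            refine one?_false ?_
            rintro ⟨_, h⟩
            rcases h with h | h
            · exact h (zero_mem_tr l)
            · exact h hs
          simp_rw [this]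
          simp
        · have hD := not_small_D r l hs
          have h1 : ∑' x, one? (bad c r (x, tr l)) ≤ ((2 * (24 * r + D l) + 1 : ℕ) : ℝ≥0∞) ^ d :=
            (ENNReal.tsum_le_tsum fun x => one?_mono fun h => h.1).trans
              (touches_count c (24 * r) l)
          calc (r : ℝ≥0∞) ^ (6 - d) * ∑' x, one? (bad c r (x, tr l))
              ≤ (r : ℝ≥0∞) ^ (6 - d) * ((2 * (24 * r + D l) + 1 : ℕ) : ℝ≥0∞) ^ d := by gcongr
            _ ≤ ((99 * D l : ℕ) : ℝ≥0∞) ^ (6 - d) * ((99 * D l : ℕ) : ℝ≥0∞) ^ d := by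
                gcongr
                · omega
                · omega
            _ = 99 ^ 6 * ((D l : ℕ) : ℝ≥0∞) ^ 6 := by
                rw [← pow_add, Nat.sub_add_cancel hd]
                push_cast
                ring
    _ = 99 ^ 6 * Av n (fun l : List (Stp d) => ((D l : ℕ) : ℝ≥0∞) ^ 6) := Av_mul_left _ _ _
    _ ≤ _ := by gcongr; exact Av_D6 n

theorem aa_le_hit [NeZero d] (c : V d) (r n : ℕ) :
    aa c r n ≤ ∑' x, Av n (hitI (Bx c (24 * r)) x) := by
  rw [← Av_tsum]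
  unfold aa
  refine Av_mono n fun l _ => ENNReal.tsum_le_tsum fun x => ?_
  unfold hitI
  by_cases h : bad c r (x, tr l)
  · obtain ⟨⟨a, ha, hB⟩, _⟩ := h
    rw [if_pos]
    · exact one?_le_one _
    · refine ⟨x + a, ?_, hB⟩
      rw [mem_pts_iff]
      simpa using ha
  · rw [one?_false h]; exact zero_le

theorem aa_large [NeZero d] (c : V d) (r n : ℕ) (hr : 1 ≤ r) (hn : r ^ 2 ≤ n + 1) :
    (r : ℝ≥0∞) ^ 2 * aa c r n ≤ 5 * 120 ^ d * (r : ℝ≥0∞) ^ d * (n + 1) := by
  have h := hit_box c (24 * r) n (by omega)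
  have h1 : (((24 * r : ℕ) : ℝ≥0∞)) ^ 2 * aa c r n
      ≤ 4 * ((n : ℝ≥0∞) + ((24 * r : ℕ) : ℝ≥0∞) ^ 2 + 1) * (4 * ((24 * r : ℕ) : ℝ≥0∞) + 1) ^ d :=
    le_trans (mul_le_mul' le_rfl (aa_le_hit c r n)) h
  have h2 : 4 * ((n : ℝ≥0∞) + ((24 * r : ℕ) : ℝ≥0∞) ^ 2 + 1) * (4 * ((24 * r : ℕ) : ℝ≥0∞) + 1) ^ d
      ≤ 576 * (5 * 120 ^ d * (r : ℝ≥0∞) ^ d * (n + 1)) := by
    have h3 : 4 * (n + (24 * r) ^ 2 + 1) * (4 * (24 * r) + 1) ^ d
        ≤ 576 * (5 * (120 * r) ^ d * (n + 1)) := by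
      have h4 : (4 * (24 * r) + 1) ^ d ≤ (120 * r) ^ d := Nat.pow_le_pow_left (by omega) d
      have h5 : 4 * (n + (24 * r) ^ 2 + 1) ≤ 576 * 5 * (n + 1) := by nlinarith
      calc 4 * (n + (24 * r) ^ 2 + 1) * (4 * (24 * r) + 1) ^ d
          ≤ (576 * 5 * (n + 1)) * (120 * r) ^ d := Nat.mul_le_mul h5 h4
        _ = _ := by ring
    rw [mul_pow 120 r d, ← mul_assoc 5] at h3
    exact_mod_cast h3
  have h6 := h1.trans h2
  have h7 : (((24 * r : ℕ) : ℝ≥0∞)) ^ 2 * aa c r n = 576 * ((r : ℝ≥0∞) ^ 2 * aa c r n) := by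
    push_cast; ring
  rw [h7] at h6
  exact (ENNReal.mul_le_mul_iff_right (by simp) (by simp)).mp h6

end

end Pool.Agent.H592
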