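import Mathlib

set_option autoImplicit false
open scoped ENNReal BigOperators
open MeasureTheory ProbabilityTheory

namespace Pool.Agent.H592

noncomputable section

/-! An abstract exploration lemma. -/

variable {ι : Type*}

/-- explored sets -/
def Rk [DecidableEq ι] (F : ℕ → Finset ι) (I0 : ι → Prop) (rel : ι → ι → Prop) (b : ι → Bool) :
    ℕ → Finset ι
  | 0 => open Classical in (F 0).filter fun i => b i = true ∧ I0 i
  | k + 1 => open Classical in
      (F (k + 1)).filter fun i => b i = true ∧ ∃ j ∈ Rk F I0 rel b k, rel j i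

variable [DecidableEq ι]

theorem Rk_sub (F : ℕ → Finset ι) (I0 : ι → Prop) (rel : ι → ι → Prop) (b : ι → Bool) (k : ℕ) :
    Rk F I0 rel b k ⊆ F k := by
  classical
  cases k <;> (unfold Rk; exact Finset.filter_subset _ _)

theorem mem_Rk_zero (F : ℕ → Finset ι) (I0 : ι → Prop) (rel : ι → ι → Prop) (b : ι → Bool)
    (i : ι) : i ∈ Rk F I0 rel b 0 ↔ i ∈ F 0 ∧ b i = true ∧ I0 i := by
  classical
  unfold Rk
  exact Finset.mem_filter

theorem mem_Rk_succ (F : ℕ → Finset ι) (I0 : ι → Prop) (rel : ι → ι → Prop) (b : ι → Bool)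
    (k : ℕ) (i : ι) : i ∈ Rk F I0 rel b (k + 1) ↔
      i ∈ F (k + 1) ∧ b i = true ∧ ∃ j ∈ Rk F I0 rel b k, rel j i := by
  classical
  conv_lhs => unfold Rk
  exact Finset.mem_filter

/-- union of the first stages -/
def Gk (F : ℕ → Finset ι) (k : ℕ) : Finset ι := (Finset.range (k + 1)).biUnion F

theorem F_sub_Gk (F : ℕ → Finset ι) {j k : ℕ} (h : j ≤ k) : F j ⊆ Gk F k := by
  intro i hi
  unfold Gk
  rw [Finset.mem_biUnion]
  exact ⟨j, by rw [Finset.mem_range]; omega, hi⟩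

theorem Rk_congr (F : ℕ → Finset ι) (I0 : ι → Prop) (rel : ι → ι → Prop) (b b' : ι → Bool)
    (k : ℕ) (h : ∀ i ∈ Gk F k, b i = b' i) : Rk F I0 rel b k = Rk F I0 rel b' k := by
  classical
  induction k with
  | zero =>
    unfold Rk
    refine Finset.filter_congr fun i hi => ?_
    rw [h i (F_sub_Gk F le_rfl hi)]
  | succ k ih =>
    unfold Rk
    have h1 : Rk F I0 rel b k = Rk F I0 rel b' k := by
      refine ih fun i hi => h i ?_
      unfold Gk at *
      rw [Finset.mem_biUnion] at *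
      obtain ⟨j, hj, hi⟩ := hi
      exact ⟨j, by rw [Finset.mem_range] at *; omega, hi⟩
    rw [h1]
    refine Finset.filter_congr fun i hi => ?_
    rw [h i (F_sub_Gk F le_rfl hi)]

variable {Ω : Type*} [MeasurableSpace Ω]

theorem chain_step (P : Measure Ω) [IsProbabilityMeasure P] (ξ : ι → Ω → Bool)
    (hm : ∀ i, Measurable (ξ i)) (hi : iIndepFun ξ P) (F : ℕ → Finset ι)
    (hF : ∀ j k, j < k → Disjoint (F j) (F k)) (I0 : ι → Prop) (rel : ι → ι → Prop) (k : ℕ)
    (ε : ℝ≥0∞)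
    (hε : ∀ j ∈ F k, P {ω | ∀ i ∈ F (k + 1), ¬ (ξ i ω = true ∧ rel j i)} ≤ ε) :
    P {ω | Rk F I0 rel (fun i => ξ i ω) k ≠ ∅}
      ≤ P {ω | Rk F I0 rel (fun i => ξ i ω) (k + 1) ≠ ∅}
        + ε * P {ω | Rk F I0 rel (fun i => ξ i ω) k ≠ ∅} := by
  classical
  set R : ℕ → Ω → Finset ι := fun k ω => Rk F I0 rel (fun i => ξ i ω) k with hR
  have hdisj : Disjoint (Gk F k) (F (k + 1)) := by
    unfold Gk
    rw [Finset.disjoint_biUnion_left]
    intro j hj
    exact hF j (k + 1) (by rw [Finset.mem_range] at hj; omega)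
  have hindep := hi.indepFun_finset (Gk F k) (F (k + 1)) hdisj hm
  -- events
  have hA : ∀ Q : Finset ι, {ω | R k ω = Q} = (fun ω (i : Gk F k) => ξ i ω) ⁻¹'
      {b | Rk F I0 rel (fun i => if h : i ∈ Gk F k then b ⟨i, h⟩ else false) k = Q} := by
    intro Q
    ext ω
    simp only [Set.mem_preimage, Set.mem_ofPred_eq, hR]
    rw [Rk_congr F I0 rel (fun i => ξ i ω)
      (fun i => if h : i ∈ Gk F k then ξ i ω else false) k (fun i hi => by simp [hi])]
  have hB : ∀ j : ι, {ω | ∀ i ∈ F (k + 1), ¬ (ξ i ω = true ∧ rel j i)}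
      = (fun ω (i : F (k + 1)) => ξ i ω) ⁻¹'
      {b | ∀ i : F (k + 1), ¬ (b i = true ∧ rel j i)} := by
    intro j
    ext ω
    simp only [Set.mem_preimage, Set.mem_ofPred_eq]
    constructor
    · intro h i; exact h i.1 i.2
    · intro h i hi; exact h ⟨i, hi⟩
  have hAm : ∀ Q : Finset ι, MeasurableSet {ω | R k ω = Q} := by
    intro Q
    rw [hA Q]
    have hmm : Measurable (fun ω (i : Gk F k) => ξ i ω) := measurable_pi_lambda _ fun i => hm i
    exact hmm (Set.toFinite _).measurableSet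
  have hprod : ∀ (Q : Finset ι), Q ⊆ F k → Q ≠ ∅ →
      P ({ω | R k ω = Q} ∩ {ω | R (k + 1) ω = ∅}) ≤ ε * P {ω | R k ω = Q} := by
    intro Q hQ hne
    obtain ⟨j, hj⟩ := Finset.nonempty_iff_ne_empty.mpr hne
    have hsub : {ω | R k ω = Q} ∩ {ω | R (k + 1) ω = ∅}
        ⊆ {ω | R k ω = Q} ∩ {ω | ∀ i ∈ F (k + 1), ¬ (ξ i ω = true ∧ rel j i)} := by
      rintro ω ⟨h1, h2⟩
      refine ⟨h1, fun i hi hcon => ?_⟩
      simp only [Set.mem_ofPred_eq, hR] at h1 h2
      have : i ∈ Rk F I0 rel (fun i => ξ i ω) (k + 1) := by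
        unfold Rk
        rw [Finset.mem_filter]
        exact ⟨hi, hcon.1, j, by rw [h1]; exact hj, hcon.2⟩
      rw [h2] at this
      simp at this
    refine (measure_mono hsub).trans ?_
    have heq : P ({ω | R k ω = Q} ∩ {ω | ∀ i ∈ F (k + 1), ¬ (ξ i ω = true ∧ rel j i)})
        = P {ω | R k ω = Q} * P {ω | ∀ i ∈ F (k + 1), ¬ (ξ i ω = true ∧ rel j i)} := by
      rw [hA Q, hB j]
      exact hindep.measure_inter_preimage_eq_mul _ _ (Set.toFinite _).measurableSet
        (Set.toFinite _).measurableSet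
    rw [heq, mul_comm]
    gcongr
    exact hε j (hQ hj)
  -- decomposition
  have hU : {ω | R k ω ≠ ∅} = ⋃ Q ∈ (F k).powerset.filter (· ≠ ∅), {ω | R k ω = Q} := by
    ext ω
    simp only [Set.mem_ofPred_eq, Set.mem_iUnion, Finset.mem_filter, Finset.mem_powerset,
      exists_prop]
    constructor
    · intro h
      exact ⟨R k ω, ⟨Rk_sub _ _ _ _ _, h⟩, rfl⟩
    · rintro ⟨Q, ⟨_, hQ⟩, h⟩
      rw [h]; exact hQ
  have hsum : P {ω | R k ω ≠ ∅} = ∑ Q ∈ (F k).powerset.filter (· ≠ ∅), P {ω | R k ω = Q} := by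
    rw [hU, measure_biUnion_finset]
    · intro Q _ Q' _ hne
      refine Set.disjoint_left.mpr fun ω h1 h2 => hne ?_
      simp only [Set.mem_ofPred_eq] at h1 h2
      rw [← h1, h2]
    · intro Q _; exact hAm Q
  have hsub2 : {ω | R k ω ≠ ∅} ⊆ {ω | R (k + 1) ω ≠ ∅} ∪
      ⋃ Q ∈ (F k).powerset.filter (· ≠ ∅), ({ω | R k ω = Q} ∩ {ω | R (k + 1) ω = ∅}) := by
    intro ω h
    by_cases h2 : R (k + 1) ω = ∅
    · right
      have h3 := h
      rw [hU, Set.mem_iUnion₂] at h3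
      obtain ⟨Q, hQ, h4⟩ := h3
      rw [Set.mem_iUnion₂]
      exact ⟨Q, hQ, h4, h2⟩
    · exact Or.inl h2
  calc P {ω | R k ω ≠ ∅} ≤ P {ω | R (k + 1) ω ≠ ∅} +
        P (⋃ Q ∈ (F k).powerset.filter (· ≠ ∅), ({ω | R k ω = Q} ∩ {ω | R (k + 1) ω = ∅})) :=
        (measure_mono hsub2).trans (measure_union_le _ _)
    _ ≤ P {ω | R (k + 1) ω ≠ ∅} +
        ∑ Q ∈ (F k).powerset.filter (· ≠ ∅), P ({ω | R k ω = Q} ∩ {ω | R (k + 1) ω = ∅}) := by
        gcongr
        exact measure_biUnion_finset_le _ _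
    _ ≤ P {ω | R (k + 1) ω ≠ ∅} +
        ∑ Q ∈ (F k).powerset.filter (· ≠ ∅), ε * P {ω | R k ω = Q} := by
        gcongr with Q hQ
        rw [Finset.mem_filter, Finset.mem_powerset] at hQ
        exact hprod Q hQ.1 hQ.2
    _ = _ := by rw [← Finset.mul_sum, ← hsum]

/-- the exploration survives with positive probability -/
theorem chain_survives (P : Measure Ω) [IsProbabilityMeasure P] (ξ : ι → Ω → Bool)
    (hm : ∀ i, Measurable (ξ i)) (hi : iIndepFun ξ P) (F : ℕ → Finset ι)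
    (hF : ∀ j k, j < k → Disjoint (F j) (F k)) (I0 : ι → Prop) (rel : ι → ι → Prop)
    (ε : ℕ → ℝ) (hε0 : ∀ k, 0 ≤ ε k) (hεs : ∀ n, ∑ k ∈ Finset.range n, ε k ≤ 1 / 2)
    (hε : ∀ k, ∀ j ∈ F k, P {ω | ∀ i ∈ F (k + 1), ¬ (ξ i ω = true ∧ rel j i)}
      ≤ ENNReal.ofReal (ε k))
    (h0 : P {ω | Rk F I0 rel (fun i => ξ i ω) 0 ≠ ∅} ≠ 0) :
    P {ω | ∀ k, Rk F I0 rel (fun i => ξ i ω) k ≠ ∅} ≠ 0 := by
  classical
  set A : ℕ → Set Ω := fun k => {ω | Rk F I0 rel (fun i => ξ i ω) k ≠ ∅} with hA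
  set p : ℕ → ℝ := fun k => (P (A k)).toReal with hp
  have hp0 : 0 < p 0 := ENNReal.toReal_pos h0 (measure_ne_top P _)
  have hstep : ∀ k, p k ≤ p (k + 1) + ε k * p k := by
    intro k
    have h1 := chain_step P ξ hm hi F hF I0 rel k _ (hε k)
    have h2 := ENNReal.toReal_mono (by
      refine ENNReal.add_ne_top.mpr ⟨measure_ne_top P _, ENNReal.mul_ne_top (by simp)
        (measure_ne_top P _)⟩) h1
    rw [ENNReal.toReal_add (measure_ne_top P _) (ENNReal.mul_ne_top (by simp)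
        (measure_ne_top P _)), ENNReal.toReal_mul, ENNReal.toReal_ofReal (hε0 k)] at h2
    exact h2
  have hlow : ∀ k, p 0 * (1 - ∑ j ∈ Finset.range k, ε j) ≤ p k := by
    intro k
    induction k with
    | zero => simp
    | succ k ih =>
      have h1 := hstep k
      have h2 : (1 - ε k) * p k ≤ p (k + 1) := by linarith
      have h3 : ε k ≤ 1 := by
        have h4 := hεs (k + 1)
        rw [Finset.sum_range_succ] at h4
        have h5 : 0 ≤ ∑ j ∈ Finset.range k, ε j := Finset.sum_nonneg fun j _ => hε0 j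
        linarith
      have h6 : 0 ≤ ∑ j ∈ Finset.range k, ε j := Finset.sum_nonneg fun j _ => hε0 j
      have h7 : (1 - ε k) * (p 0 * (1 - ∑ j ∈ Finset.range k, ε j)) ≤ (1 - ε k) * p k :=
        mul_le_mul_of_nonneg_left ih (by linarith)
      rw [Finset.sum_range_succ]
      have h8 : 0 ≤ ε k * ∑ j ∈ Finset.range k, ε j := mul_nonneg (hε0 k) h6
      have h9 : 0 ≤ p 0 * (ε k * ∑ j ∈ Finset.range k, ε j) := mul_nonneg hp0.le h8
      nlinarith
  have hhalf : ∀ k, ENNReal.ofReal (p 0 / 2) ≤ P (A k) := by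
    intro k
    rw [← ENNReal.ofReal_toReal (measure_ne_top P (A k))]
    refine ENNReal.ofReal_le_ofReal ?_
    have h1 := hlow k
    have h2 := hεs k
    have : p 0 * (1 / 2) ≤ p 0 * (1 - ∑ j ∈ Finset.range k, ε j) :=
      mul_le_mul_of_nonneg_left (by linarith) hp0.le
    show p 0 / 2 ≤ p k
    linarith
  have hanti : Antitone A := by
    refine antitone_nat_of_succ_le fun k ω h => ?_
    simp only [hA, Set.mem_ofPred_eq] at h ⊢
    intro hcon
    apply h
    unfold Rk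
    rw [hcon]
    simp
  have hmeas : ∀ k, NullMeasurableSet (A k) P := by
    intro k
    refine MeasurableSet.nullMeasurableSet ?_
    have : A k = (fun ω (i : Gk F k) => ξ i ω) ⁻¹'
      {b | Rk F I0 rel (fun i => if h : i ∈ Gk F k then b ⟨i, h⟩ else false) k ≠ ∅} := by
      ext ω
      simp only [Set.mem_preimage, Set.mem_ofPred_eq, hA]
      rw [Rk_congr F I0 rel (fun i => ξ i ω)
        (fun i => if h : i ∈ Gk F k then ξ i ω else false) k (fun i hi => by simp [hi])]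
    rw [this]
    have hmm : Measurable (fun ω (i : Gk F k) => ξ i ω) := measurable_pi_lambda _ fun i => hm i
    exact hmm (Set.toFinite _).measurableSet
  have hinter : {ω | ∀ k, Rk F I0 rel (fun i => ξ i ω) k ≠ ∅} = ⋂ k, A k := by
    ext ω; simp [hA]
  rw [hinter, hanti.measure_iInter hmeas ⟨0, measure_ne_top P _⟩]
  have h1 : ENNReal.ofReal (p 0 / 2) ≤ ⨅ k, P (A k) := le_iInf hhalf
  intro hcon
  rw [hcon] at h1
  simp at h1
  linarith

end

end Pool.Agent.H592
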