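import Mathlib
import Pool.Agent.H592W.Bad

set_option autoImplicit false
open scoped ENNReal BigOperators

namespace Pool.Agent.H592

noncomputable section

theorem neg_bernoulli (p s : ℝ) (hp : 0 < p) (hs : s < 1) : 1 + p * s ≤ (1 - s) ^ (-p) := by
  have h0 : 0 < 1 - s := by linarith
  rw [Real.rpow_def_of_pos h0]
  have h1 : Real.log (1 - s) ≤ -s := by
    have := Real.log_le_sub_one_of_pos h0
    linarith
  have h2 := Real.add_one_le_exp (Real.log (1 - s) * -p)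
  nlinarith

theorem tail_term (p : ℝ) (hp : 0 < p) (n : ℕ) (hn : 1 ≤ n) :
    ((n : ℝ) + 1) ^ (-(p + 1)) ≤ ((n : ℝ) ^ (-p) - ((n : ℝ) + 1) ^ (-p)) / p := by
  have hn0 : (0 : ℝ) < n := by exact_mod_cast hn
  have hn1 : (0 : ℝ) < (n : ℝ) + 1 := by linarith
  have h := neg_bernoulli p (1 / ((n : ℝ) + 1)) hp (by
    rw [div_lt_one hn1]; linarith)
  have h2 : 1 - 1 / ((n : ℝ) + 1) = n / ((n : ℝ) + 1) := by field_simp; ring
  rw [h2, Real.div_rpow hn0.le hn1.le] at h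
  have h3 : 0 < ((n : ℝ) + 1) ^ (-p) := Real.rpow_pos_of_pos hn1 _
  rw [le_div_iff₀ h3] at h
  rw [le_div_iff₀ hp]
  have h4 : ((n : ℝ) + 1) ^ (-(p + 1)) = ((n : ℝ) + 1) ^ (-p) * (1 / ((n : ℝ) + 1)) := by
    rw [neg_add, Real.rpow_add hn1, Real.rpow_neg_one, one_div]
  rw [h4]
  nlinarith

theorem tail_sum (p : ℝ) (hp : 0 < p) (N : ℕ) (hN : 1 ≤ N) :
    ∑' n : ℕ, (if N ≤ n then ENNReal.ofReal (((n : ℝ) + 1) ^ (-(p + 1))) else 0)
      ≤ ENNReal.ofReal ((N : ℝ) ^ (-p) / p) := by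
  refine ENNReal.tsum_le_of_sum_range_le fun M => ?_
  have key : ∀ M : ℕ, ∑ n ∈ Finset.range M,
      (if N ≤ n then ENNReal.ofReal (((n : ℝ) + 1) ^ (-(p + 1))) else 0)
        ≤ ENNReal.ofReal (((N : ℝ) ^ (-p) - ((max N M : ℕ) : ℝ) ^ (-p)) / p) := by
    intro M
    induction M with
    | zero => simp
    | succ M ih =>
      rw [Finset.sum_range_succ]
      by_cases hM : N ≤ M
      · rw [if_pos hM]
        rw [max_eq_right hM] at ih
        rw [max_eq_right (by omega)]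
        have hM1 : 1 ≤ M := hN.trans hM
        have hN0 : (0 : ℝ) < N := by exact_mod_cast hN
        have h1 : (0 : ℝ) ≤ ((N : ℝ) ^ (-p) - (M : ℝ) ^ (-p)) / p := by
          refine div_nonneg ?_ hp.le
          have : (M : ℝ) ^ (-p) ≤ (N : ℝ) ^ (-p) :=
            Real.rpow_le_rpow_of_nonpos hN0 (by exact_mod_cast hM) (by linarith)
          linarith
        have h2 : (0 : ℝ) ≤ ((M : ℝ) + 1) ^ (-(p + 1)) := by positivity
        calc _ ≤ ENNReal.ofReal (((N : ℝ) ^ (-p) - (M : ℝ) ^ (-p)) / p)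
              + ENNReal.ofReal (((M : ℝ) + 1) ^ (-(p + 1))) := by gcongr
          _ = ENNReal.ofReal (((N : ℝ) ^ (-p) - (M : ℝ) ^ (-p)) / p
                + ((M : ℝ) + 1) ^ (-(p + 1))) := (ENNReal.ofReal_add h1 h2).symm
          _ ≤ _ := by
              refine ENNReal.ofReal_le_ofReal ?_
              have := tail_term p hp M hM1
              push_cast
              have h3 : ((N : ℝ) ^ (-p) - ((M : ℝ) + 1) ^ (-p)) / p
                = ((N : ℝ) ^ (-p) - (M : ℝ) ^ (-p)) / p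
                  + ((M : ℝ) ^ (-p) - ((M : ℝ) + 1) ^ (-p)) / p := by ring
              rw [h3]
              linarith
      · rw [if_neg hM, add_zero]
        rw [max_eq_left (by omega)] at ih ⊢
        exact ih
  refine (key M).trans (ENNReal.ofReal_le_ofReal ?_)
  have : (0 : ℝ) ≤ ((max N M : ℕ) : ℝ) ^ (-p) := by positivity
  gcongr
  linarith

variable {d : ℕ}

/-- expected number of bad worms -/
def BS (m : ℕ → ℝ) (c : V d) (r : ℕ) : ℝ≥0∞ :=
  ∑' n : ℕ, ENNReal.ofReal (m (n + 1)) * aa c r n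

theorem BS_bound [NeZero d] (hd3 : 3 ≤ d) (hd4 : d ≤ 4) (m : ℕ → ℝ) (hm0 : ∀ l, 0 ≤ m l)
    (C : ℝ) (hC : 0 < C)
    (hm : ∀ l : ℕ, 1 ≤ l → m l ≤ C * (l : ℝ) ^ (-(((d : ℝ) + 2) / 2))) :
    ∃ H : ℝ, 0 < H ∧ ∀ (c : V d) (r : ℕ), 1 ≤ r → BS m c r ≤ ENNReal.ofReal H := by
  set C1 : ℝ := 99 ^ 6 * (60 * d) with hC1
  set C2 : ℝ := 5 * 120 ^ d with hC2
  have hd0 : (3 : ℝ) ≤ d := by exact_mod_cast hd3
  have hd0' : (d : ℝ) ≤ 4 := by exact_mod_cast hd4
  set p : ℝ := (d : ℝ) / 2 - 1 with hp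
  have hp0 : 0 < p := by rw [hp]; linarith
  refine ⟨C * C1 + C * C2 / p, by positivity, fun c r hr => ?_⟩
  have hr0 : (0 : ℝ) < r := by exact_mod_cast hr
  have hfin : ∀ n, aa c r n ≠ ⊤ := by
    intro n hn
    have := aa_small (by omega : d ≤ 6) c r n hr
    rw [hn] at this
    have hr1 : ((r : ℝ≥0∞)) ^ (6 - d) ≠ 0 := by
      have : (r : ℝ≥0∞) ≠ 0 := by exact_mod_cast (by omega : r ≠ 0)
      exact pow_ne_zero _ this
    rw [ENNReal.mul_top hr1, top_le_iff] at this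
    have h2 : (99 : ℝ≥0∞) ^ 6 * (60 * d * (n : ℝ≥0∞) ^ 3) ≠ ⊤ := by
      have : (99 : ℝ≥0∞) ^ 6 * (60 * d * (n : ℝ≥0∞) ^ 3)
        = ((99 ^ 6 * (60 * d * n ^ 3) : ℕ) : ℝ≥0∞) := by push_cast; ring
      rw [this]
      exact ENNReal.natCast_ne_top _
    exact h2 this
  have hA1 : ∀ n, (r : ℝ) ^ (6 - d) * (aa c r n).toReal ≤ C1 * ((n : ℝ) + 1) ^ 3 := by
    intro n
    have h := aa_small (by omega : d ≤ 6) c r n hr
    have h2 : (99 : ℝ≥0∞) ^ 6 * (60 * d * (n : ℝ≥0∞) ^ 3)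
        = ((99 ^ 6 * (60 * d * n ^ 3) : ℕ) : ℝ≥0∞) := by push_cast; ring
    rw [h2] at h
    have h3 := (ENNReal.toReal_le_toReal (ENNReal.mul_ne_top (by simp) (hfin n))
      (ENNReal.natCast_ne_top _)).mpr h
    rw [ENNReal.toReal_mul, ENNReal.toReal_pow, ENNReal.toReal_natCast, ENNReal.toReal_natCast] at h3
    refine h3.trans ?_
    push_cast
    rw [hC1]
    have : (n : ℝ) ^ 3 ≤ ((n : ℝ) + 1) ^ 3 := by gcongr; linarith
    have h60 : (0 : ℝ) ≤ 99 ^ 6 * (60 * d) := by positivity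
    nlinarith
  have hA2 : ∀ n, r ^ 2 ≤ n + 1 → (r : ℝ) ^ 2 * (aa c r n).toReal
      ≤ C2 * (r : ℝ) ^ d * ((n : ℝ) + 1) := by
    intro n hn
    have h := aa_large c r n hr hn
    have h2 : 5 * (120 : ℝ≥0∞) ^ d * (r : ℝ≥0∞) ^ d * (n + 1)
        = ((5 * 120 ^ d * r ^ d * (n + 1) : ℕ) : ℝ≥0∞) := by push_cast; ring
    rw [h2] at h
    have h3 := (ENNReal.toReal_le_toReal (ENNReal.mul_ne_top (by simp) (hfin n))
      (ENNReal.natCast_ne_top _)).mpr h
    rw [ENNReal.toReal_mul, ENNReal.toReal_pow, ENNReal.toReal_natCast, ENNReal.toReal_natCast] at h3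
    refine h3.trans (le_of_eq ?_)
    push_cast
    rw [hC2]
  have hterm : ∀ n : ℕ, ENNReal.ofReal (m (n + 1)) * aa c r n
      ≤ (if n < r ^ 2 then ENNReal.ofReal (C * C1 / (r : ℝ) ^ 2) else 0)
        + ENNReal.ofReal (C * C2 * (r : ℝ) ^ ((d : ℝ) - 2)) *
          (if r ^ 2 ≤ n then ENNReal.ofReal (((n : ℝ) + 1) ^ (-(p + 1))) else 0) := by
    intro n
    have hn1 : (0 : ℝ) < (n : ℝ) + 1 := by positivity
    have hmn : m (n + 1) ≤ C * ((n : ℝ) + 1) ^ (-(((d : ℝ) + 2) / 2)) := by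
      have := hm (n + 1) (by omega)
      push_cast at this
      exact this
    rw [← ENNReal.ofReal_toReal (hfin n), ← ENNReal.ofReal_mul (hm0 _)]
    have hAn : 0 ≤ (aa c r n).toReal := ENNReal.toReal_nonneg
    by_cases hn : n < r ^ 2
    · rw [if_pos hn]
      refine le_trans (ENNReal.ofReal_le_ofReal ?_) le_self_add
      rw [le_div_iff₀ (by positivity)]
      -- key real inequality
      have h1 : ((n : ℝ) + 1) ^ ((4 - (d : ℝ)) / 2) ≤ (r : ℝ) ^ (4 - (d : ℝ)) := by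
        have : ((n : ℝ) + 1) ≤ (r : ℝ) ^ (2 : ℝ) := by
          rw [Real.rpow_two]
          exact_mod_cast hn
        calc ((n : ℝ) + 1) ^ ((4 - (d : ℝ)) / 2) ≤ ((r : ℝ) ^ (2 : ℝ)) ^ ((4 - (d : ℝ)) / 2) :=
              Real.rpow_le_rpow hn1.le this (by linarith)
          _ = _ := by rw [← Real.rpow_mul hr0.le]; congr 1; ring
      have h2 : ((n : ℝ) + 1) ^ (-(((d : ℝ) + 2) / 2)) * ((n : ℝ) + 1) ^ 3
          = ((n : ℝ) + 1) ^ ((4 - (d : ℝ)) / 2) := by
        rw [← Real.rpow_natCast ((n : ℝ) + 1) 3, ← Real.rpow_add hn1]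
        congr 1
        push_cast
        ring
      have h3 : (r : ℝ) ^ (6 - d) = (r : ℝ) ^ (4 - (d : ℝ)) * (r : ℝ) ^ 2 := by
        rw [← Real.rpow_natCast (r : ℝ) (6 - d), ← Real.rpow_natCast (r : ℝ) 2,
          ← Real.rpow_add hr0]
        congr 1
        rw [Nat.cast_sub (by omega)]
        push_cast
        ring
      have hA := hA1 n
      rw [h3] at hA
      set A := (aa c r n).toReal
      set q : ℝ := (r : ℝ) ^ (4 - (d : ℝ)) with hq
      have hq0 : 0 < q := Real.rpow_pos_of_pos hr0 _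
      have h4 : ((n : ℝ) + 1) ^ (-(((d : ℝ) + 2) / 2)) * ((n : ℝ) + 1) ^ 3 ≤ q := by
        rw [h2]; exact h1
      set t : ℝ := ((n : ℝ) + 1) ^ (-(((d : ℝ) + 2) / 2)) with ht
      have ht0 : 0 < t := Real.rpow_pos_of_pos hn1 _
      -- m * A * r^2 * q ≤ C t C1 (n+1)^3 ≤ C C1 q
      have h5 : m (n + 1) * A * (r : ℝ) ^ 2 * q ≤ C * C1 * q := by
        calc m (n + 1) * A * (r : ℝ) ^ 2 * q = m (n + 1) * (q * (r : ℝ) ^ 2 * A) := by ring
          _ ≤ (C * t) * (C1 * ((n : ℝ) + 1) ^ 3) := by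
              apply mul_le_mul hmn hA (by positivity) (by positivity)
          _ = C * C1 * (t * ((n : ℝ) + 1) ^ 3) := by ring
          _ ≤ C * C1 * q := by
              have : 0 ≤ C * C1 := by positivity
              exact mul_le_mul_of_nonneg_left h4 this
      exact le_of_mul_le_mul_right h5 hq0
    · rw [if_neg hn, if_pos (by omega), zero_add]
      have hrp : (0 : ℝ) < (r : ℝ) ^ ((d : ℝ) - 2) := Real.rpow_pos_of_pos hr0 _
      rw [← ENNReal.ofReal_mul (by positivity)]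
      refine ENNReal.ofReal_le_ofReal ?_
      have hA := hA2 n (by omega)
      have h3 : (r : ℝ) ^ d = (r : ℝ) ^ ((d : ℝ) - 2) * (r : ℝ) ^ 2 := by
        rw [← Real.rpow_natCast (r : ℝ) d, ← Real.rpow_natCast (r : ℝ) 2, ← Real.rpow_add hr0]
        congr 1
        push_cast
        ring
      rw [h3] at hA
      have hr2 : (0 : ℝ) < (r : ℝ) ^ 2 := by positivity
      set A := (aa c r n).toReal
      have hA' : A ≤ C2 * (r : ℝ) ^ ((d : ℝ) - 2) * ((n : ℝ) + 1) := by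
        have : (r : ℝ) ^ 2 * A ≤ (r : ℝ) ^ 2 * (C2 * (r : ℝ) ^ ((d : ℝ) - 2) * ((n : ℝ) + 1)) := by
          refine hA.trans (le_of_eq (by ring))
        exact le_of_mul_le_mul_left this hr2
      have h2 : ((n : ℝ) + 1) ^ (-(((d : ℝ) + 2) / 2)) * ((n : ℝ) + 1)
          = ((n : ℝ) + 1) ^ (-(p + 1)) := by
        nth_rewrite 2 [← Real.rpow_one ((n : ℝ) + 1)]
        rw [← Real.rpow_add hn1]
        congr 1
        rw [hp]
        ring
      calc m (n + 1) * A ≤ (C * ((n : ℝ) + 1) ^ (-(((d : ℝ) + 2) / 2)))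
            * (C2 * (r : ℝ) ^ ((d : ℝ) - 2) * ((n : ℝ) + 1)) := by
            apply mul_le_mul hmn hA' hAn (by positivity)
        _ = C * C2 * (r : ℝ) ^ ((d : ℝ) - 2) *
            (((n : ℝ) + 1) ^ (-(((d : ℝ) + 2) / 2)) * ((n : ℝ) + 1)) := by ring
        _ = _ := by rw [h2]
  unfold BS
  calc ∑' n : ℕ, ENNReal.ofReal (m (n + 1)) * aa c r n
      ≤ ∑' n : ℕ, ((if n < r ^ 2 then ENNReal.ofReal (C * C1 / (r : ℝ) ^ 2) else 0)
        + ENNReal.ofReal (C * C2 * (r : ℝ) ^ ((d : ℝ) - 2)) *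
          (if r ^ 2 ≤ n then ENNReal.ofReal (((n : ℝ) + 1) ^ (-(p + 1))) else 0)) :=
        ENNReal.tsum_le_tsum hterm
    _ ≤ ENNReal.ofReal (C * C1) + ENNReal.ofReal (C * C2 / p) := by
        rw [ENNReal.tsum_add]
        gcongr
        · rw [tsum_eq_sum (s := Finset.range (r ^ 2)) (fun n hn => by
            rw [if_neg]; simpa using hn)]
          rw [Finset.sum_congr rfl (fun n hn => if_pos (Finset.mem_range.mp hn))]
          rw [Finset.sum_const, Finset.card_range, nsmul_eq_mul]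
          rw [← ENNReal.ofReal_natCast, ← ENNReal.ofReal_mul (by positivity)]
          refine ENNReal.ofReal_le_ofReal (le_of_eq ?_)
          push_cast
          field_simp
        · rw [ENNReal.tsum_mul_left]
          calc _ ≤ ENNReal.ofReal (C * C2 * (r : ℝ) ^ ((d : ℝ) - 2)) *
                ENNReal.ofReal (((r ^ 2 : ℕ) : ℝ) ^ (-p) / p) := by
                gcongr
                exact tail_sum p hp0 (r ^ 2) (Nat.one_le_pow _ _ hr)
            _ = _ := by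
                rw [← ENNReal.ofReal_mul (by positivity)]
                congr 1
                have : (((r ^ 2 : ℕ) : ℝ)) ^ (-p) = (r : ℝ) ^ (-((d : ℝ) - 2)) := by
                  push_cast
                  rw [← Real.rpow_natCast (r : ℝ) 2, ← Real.rpow_mul hr0.le]
                  congr 1
                  rw [hp]; push_cast; ring
                rw [this]
                have h5 : (r : ℝ) ^ ((d : ℝ) - 2) * (r : ℝ) ^ (-((d : ℝ) - 2)) = 1 := by
                  rw [← Real.rpow_add hr0]; simp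
                calc C * C2 * (r : ℝ) ^ ((d : ℝ) - 2) * ((r : ℝ) ^ (-((d : ℝ) - 2)) / p)
                    = C * C2 / p * ((r : ℝ) ^ ((d : ℝ) - 2) * (r : ℝ) ^ (-((d : ℝ) - 2))) := by ring
                  _ = _ := by rw [h5, mul_one]
    _ = _ := by rw [← ENNReal.ofReal_add (by positivity) (by positivity)]

end

end Pool.Agent.H592
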