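import Mathlib
import Pool.Agent.H592W.Sum

set_option autoImplicit false
open scoped ENNReal BigOperators

namespace Pool.Agent.H592

noncomputable section

theorem second_diff (γ κ : ℝ) (hγ : 0 < γ) (hκ : γ * (γ + 1) < κ) :
    ∃ z0 : ℝ, 0 < z0 ∧ z0 < 1 ∧
      ∀ z : ℝ, |z| ≤ z0 → (1 + z) ^ (-γ) + (1 - z) ^ (-γ) ≤ 2 + κ * z ^ 2 := by
  have hg0 : 0 < γ * (γ + 1) := by positivity
  -- choose z0
  obtain ⟨z0, hz0, hz1, hz⟩ : ∃ z0 : ℝ, 0 < z0 ∧ z0 < 1 ∧
      γ * (γ + 1) * (1 - z0) ^ (-γ - 2) ≤ κ := by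
    have hcont : ContinuousAt (fun t : ℝ => γ * (γ + 1) * (1 - t) ^ (-γ - 2)) 0 := by
      apply ContinuousAt.mul continuousAt_const
      apply ContinuousAt.rpow_const
      · exact (continuous_const.sub continuous_id).continuousAt
      · left; norm_num
    have h1 : (fun t : ℝ => γ * (γ + 1) * (1 - t) ^ (-γ - 2)) 0 < κ := by
      simpa using hκ
    have h2 := hcont.eventually_lt continuousAt_const h1
    rw [Metric.eventually_nhds_iff] at h2
    obtain ⟨ε, hε, h3⟩ := h2
    refine ⟨min (ε / 2) (1 / 2), by positivity, ?_, ?_⟩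
    · exact lt_of_le_of_lt (min_le_right _ _) (by norm_num)
    · refine (h3 ?_).le
      rw [Real.dist_eq, sub_zero, abs_of_pos (by positivity)]
      exact lt_of_le_of_lt (min_le_left _ _) (by linarith)
  refine ⟨z0, hz0, hz1, ?_⟩
  set f : ℝ → ℝ := fun u => κ / 2 * u ^ 2 - (1 + u) ^ (-γ) with hf
  set f' : ℝ → ℝ := fun u => κ * u + γ * (1 + u) ^ (-γ - 1) with hf'
  set f'' : ℝ → ℝ := fun u => κ - γ * (γ + 1) * (1 + u) ^ (-γ - 2) with hf''
  have hpos : ∀ u ∈ Set.Icc (-z0) z0, 0 < 1 + u := by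
    intro u hu
    linarith [hu.1]
  have hconv : ConvexOn ℝ (Set.Icc (-z0) z0) f := by
    refine convexOn_of_hasDerivWithinAt2_nonneg (f' := f') (f'' := f'') (convex_Icc _ _) ?_ ?_ ?_ ?_
    · refine ContinuousOn.sub (by fun_prop) ?_
      refine ContinuousOn.rpow_const (by fun_prop) ?_
      intro u hu
      left
      exact (hpos u hu).ne'
    · intro u hu
      have hu' := hpos u (interior_subset hu)
      refine HasDerivAt.hasDerivWithinAt ?_
      have h1 : HasDerivAt (fun u : ℝ => κ / 2 * u ^ 2) (κ / 2 * (2 * u)) u := by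
        have := (hasDerivAt_pow 2 u).const_mul (κ / 2)
        simpa using this
      have h2 : HasDerivAt (fun u : ℝ => (1 + u) ^ (-γ)) (1 * (-γ) * (1 + u) ^ (-γ - 1)) u := by
        exact ((hasDerivAt_id u).const_add 1).rpow_const (Or.inl hu'.ne')
      have h3 := h1.sub h2
      refine h3.congr_deriv ?_
      show κ / 2 * (2 * u) - 1 * (-γ) * (1 + u) ^ (-γ - 1) = κ * u + γ * (1 + u) ^ (-γ - 1)
      ring
    · intro u hu
      have hu' := hpos u (interior_subset hu)
      refine HasDerivAt.hasDerivWithinAt ?_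
      have h1 : HasDerivAt (fun u : ℝ => κ * u) κ u := by
        simpa using (hasDerivAt_id u).const_mul κ
      have h2 : HasDerivAt (fun u : ℝ => (1 + u) ^ (-γ - 1))
          (1 * (-γ - 1) * (1 + u) ^ (-γ - 1 - 1)) u := by
        exact ((hasDerivAt_id u).const_add 1).rpow_const (Or.inl hu'.ne')
      have h3 := h1.add (h2.const_mul γ)
      refine h3.congr_deriv ?_
      show κ + γ * (1 * (-γ - 1) * (1 + u) ^ (-γ - 1 - 1))
        = κ - γ * (γ + 1) * (1 + u) ^ (-γ - 2)
      rw [show -γ - 1 - 1 = -γ - 2 by ring]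
      ring
    · intro u hu
      have hmem := interior_subset hu
      have hu' := hpos u hmem
      have h1 : (1 + u) ^ (-γ - 2) ≤ (1 - z0) ^ (-γ - 2) := by
        refine Real.rpow_le_rpow_of_nonpos (by linarith) (by linarith [hmem.1]) (by linarith)
      have h2 : γ * (γ + 1) * (1 + u) ^ (-γ - 2) ≤ γ * (γ + 1) * (1 - z0) ^ (-γ - 2) :=
        mul_le_mul_of_nonneg_left h1 hg0.le
      simp only [hf'']
      linarith
  intro z hzz
  rw [abs_le] at hzz
  have hz1' : z ∈ Set.Icc (-z0) z0 := ⟨hzz.1, hzz.2⟩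
  have hz2' : -z ∈ Set.Icc (-z0) z0 := ⟨by linarith [hzz.2], by linarith [hzz.1]⟩
  have hm := hconv.2 hz1' hz2' (by norm_num : (0 : ℝ) ≤ 1 / 2) (by norm_num : (0 : ℝ) ≤ 1 / 2)
    (by norm_num)
  simp only [smul_eq_mul, hf] at hm
  have e1 : (1 / 2 * z + 1 / 2 * -z : ℝ) = 0 := by ring
  rw [e1] at hm
  simp only [ne_eq, OfNat.ofNat_ne_zero, not_false_eq_true, zero_pow, mul_zero, add_zero,
    Real.one_rpow, zero_sub, even_two, Even.neg_pow] at hm
  rw [← sub_eq_add_neg] at hm
  linarith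

variable {d : ℕ}

/-- the supersolution -/
def uu (a b γ : ℝ) (k : ℝ) (x : V d) : ℝ := (k + a + b * (sqZ x : ℝ)) ^ (-γ)

theorem super (hd : 0 < d) (γ : ℝ) (hγ : 0 < γ) (hγd : 2 * (γ + 1) < d) :
    ∃ a b : ℝ, 1 ≤ a ∧ 1 < b ∧ ∀ (k : ℝ), 0 ≤ k → ∀ x : V d,
      ∑ e : Stp d, uu a b γ k (x + stp e) ≤ (Fintype.card (Stp d) : ℝ) * uu a b γ (k + 1) x := by
  have hd0 : (0 : ℝ) < d := by exact_mod_cast hd
  set κ : ℝ := (γ * (γ + 1) + d * γ / 2) / 2 with hκ
  have h1 : γ * (γ + 1) < κ := by rw [hκ]; nlinarith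
  have h2 : 2 * κ < d * γ := by rw [hκ]; nlinarith
  obtain ⟨z0, hz0, hz1, hz⟩ := second_diff γ κ hγ h1
  have hκ0 : 0 < κ := lt_trans (by positivity) h1
  -- b (d γ - 2 κ) = d γ
  set b : ℝ := d * γ / (d * γ - 2 * κ) with hb
  have hden : 0 < d * γ - 2 * κ := by linarith
  have hb1 : 1 < b := by
    rw [hb, lt_div_iff₀ hden]
    linarith
  have hbeq : 2 * κ * b = d * γ * (b - 1) := by
    have : b * (d * γ - 2 * κ) = d * γ := by rw [hb]; field_simp
    nlinarith
  set a : ℝ := b / z0 ^ 2 with ha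
  have ha1 : 1 ≤ a := by
    rw [ha, le_div_iff₀ (by positivity)]
    nlinarith
  refine ⟨a, b, ha1, hb1, fun k hk x => ?_⟩
  set A : ℝ := k + a + b * (sqZ x : ℝ) + b with hA
  have hsq : (0 : ℝ) ≤ (sqZ x : ℝ) := by exact_mod_cast sqZ_nonneg x
  have hbs : 0 ≤ b * (sqZ x : ℝ) := by positivity
  have hA0 : b < A := by rw [hA]; linarith
  have hApos : 0 < A := by linarith
  rw [Fintype.sum_prod_type]
  have hj : ∀ j : Fin d, ∑ s : Bool, uu a b γ k (x + stp (j, s))
      ≤ A ^ (-γ) * (2 + κ * (2 * b * (x j : ℝ) / A) ^ 2) := by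
    intro j
    set z : ℝ := 2 * b * (x j : ℝ) / A with hzdef
    have hzle : |z| ≤ z0 := by
      rw [hzdef, abs_div, abs_of_pos hApos, div_le_iff₀ hApos]
      have hxj : ((x j : ℝ)) ^ 2 ≤ (sqZ x : ℝ) := by
        have : (x j) ^ 2 ≤ sqZ x := Finset.single_le_sum (f := fun j => x j ^ 2)
              (fun i _ => sq_nonneg _) (Finset.mem_univ j)
        exact_mod_cast this
      have h3 : 2 * b * |(x j : ℝ)| ≤ z0 * (a + b * (x j : ℝ) ^ 2) := by
        have h4 : z0 * (a + b * (x j : ℝ) ^ 2) = b / z0 * (1 + (z0 * |(x j : ℝ)|) ^ 2) := by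
          rw [ha, mul_pow, sq_abs]
          field_simp
        rw [h4]
        have h5 : 2 * (z0 * |(x j : ℝ)|) ≤ 1 + (z0 * |(x j : ℝ)|) ^ 2 := by
          nlinarith [sq_nonneg (1 - z0 * |(x j : ℝ)|)]
        calc 2 * b * |(x j : ℝ)| = b / z0 * (2 * (z0 * |(x j : ℝ)|)) := by field_simp
          _ ≤ _ := mul_le_mul_of_nonneg_left h5 (by positivity)
      rw [abs_mul, abs_of_pos (by linarith : (0 : ℝ) < 2 * b)]
      refine h3.trans ?_
      refine mul_le_mul_of_nonneg_left ?_ hz0.le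
      rw [hA]
      have : b * (x j : ℝ) ^ 2 ≤ b * (sqZ x : ℝ) := mul_le_mul_of_nonneg_left hxj (by linarith)
      linarith
    have h6 := hz z hzle
    have hzl := abs_le.mp hzle
    have hone : (0 : ℝ) < 1 + z := by linarith [hzl.1]
    have hone' : (0 : ℝ) < 1 - z := by linarith [hzl.2]
    have hAz : A * z = 2 * b * (x j : ℝ) := by rw [hzdef]; field_simp
    have e1 : uu a b γ k (x + stp (j, true)) = A ^ (-γ) * (1 + z) ^ (-γ) := by
      unfold uu
      rw [sqZ_add_stp, ← Real.mul_rpow hApos.le hone.le]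
      congr 1
      rw [mul_add, hAz, hA]
      simp only [if_true]
      push_cast
      ring
    have e2 : uu a b γ k (x + stp (j, false)) = A ^ (-γ) * (1 - z) ^ (-γ) := by
      unfold uu
      rw [sqZ_add_stp, ← Real.mul_rpow hApos.le hone'.le]
      congr 1
      rw [mul_sub, hAz, hA]
      simp only [Bool.false_eq_true, if_false]
      push_cast
      ring
    rw [Fintype.sum_bool, e1, e2, ← mul_add]
    exact mul_le_mul_of_nonneg_left h6 (Real.rpow_nonneg hApos.le _)
  have hAg : 0 < A ^ (-γ) := Real.rpow_pos_of_pos hApos _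
  have hlow : A ^ (-γ) * (1 + γ * ((b - 1) / A)) ≤ uu a b γ (k + 1) x := by
    have hs : (b - 1) / A < 1 := by rw [div_lt_one hApos]; linarith
    have h7 := neg_bernoulli γ ((b - 1) / A) hγ hs
    have e3 : uu a b γ (k + 1) x = A ^ (-γ) * (1 - (b - 1) / A) ^ (-γ) := by
      unfold uu
      rw [← Real.mul_rpow hApos.le (by linarith)]
      congr 1
      rw [hA]
      field_simp
      ring
    rw [e3]
    exact mul_le_mul_of_nonneg_left h7 hAg.le
  have hcard : (Fintype.card (Stp d) : ℝ) = 2 * d := by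
    simp
    ring
  rw [hcard]
  calc ∑ j : Fin d, ∑ s : Bool, uu a b γ k (x + stp (j, s))
      ≤ ∑ j : Fin d, A ^ (-γ) * (2 + κ * (2 * b * (x j : ℝ) / A) ^ 2) :=
        Finset.sum_le_sum fun j _ => hj j
    _ = A ^ (-γ) * (2 * d + κ * (4 * b * (b * (sqZ x : ℝ)) / A ^ 2)) := by
        rw [← Finset.mul_sum]
        congr 1
        rw [Finset.sum_add_distrib]
        congr 1
        · simp; ring
        · rw [← Finset.mul_sum]
          congr 1
          unfold sqZ
          push_cast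
          rw [Finset.mul_sum, Finset.mul_sum, Finset.sum_div]
          refine Finset.sum_congr rfl fun j _ => ?_
          field_simp
          ring
    _ ≤ A ^ (-γ) * (2 * d + κ * (4 * b / A)) := by
        refine mul_le_mul_of_nonneg_left ?_ hAg.le
        have : 4 * b * (b * (sqZ x : ℝ)) / A ^ 2 ≤ 4 * b / A := by
          rw [div_le_div_iff₀ (by positivity) hApos]
          have h8 : b * (sqZ x : ℝ) ≤ A := by rw [hA]; linarith
          nlinarith [mul_pos (by linarith : (0 : ℝ) < 4 * b) hApos,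
            mul_nonneg (mul_nonneg (by linarith : (0 : ℝ) ≤ 4 * b) hApos.le) (sub_nonneg.mpr h8)]
        have := mul_le_mul_of_nonneg_left this hκ0.le
        linarith
    _ = 2 * d * (A ^ (-γ) * (1 + γ * ((b - 1) / A))) := by
        have : κ * (4 * b / A) = 2 * (d * γ * (b - 1)) / A := by
          rw [← hbeq]; ring
        rw [this]
        ring
    _ ≤ _ := by
        refine mul_le_mul_of_nonneg_left hlow (by positivity)

end

end Pool.Agent.H592
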