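import Mathlib
import Pool.Agent.H592W.Super

set_option autoImplicit false
open scoped ENNReal BigOperators

namespace Pool.Agent.H592

noncomputable section

variable {d : ℕ}

/-- sum over a list -/
def LS (f : V d → ℝ≥0∞) (L : List (V d)) : ℝ≥0∞ := (L.map f).sum

@[simp] theorem LS_nil (f : V d → ℝ≥0∞) : LS f [] = 0 := rfl
@[simp] theorem LS_cons (f : V d → ℝ≥0∞) (x : V d) (L : List (V d)) :
    LS f (x :: L) = f x + LS f L := by simp [LS]

theorem LS_mono {f g : V d → ℝ≥0∞} (h : ∀ x, f x ≤ g x) (L : List (V d)) : LS f L ≤ LS g L := by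
  induction L with
  | nil => simp
  | cons x L ih => rw [LS_cons, LS_cons]; exact add_le_add (h x) ih

theorem LS_add (f g : V d → ℝ≥0∞) (L : List (V d)) :
    LS (fun x => f x + g x) L = LS f L + LS g L := by
  induction L with
  | nil => simp
  | cons x L ih => simp only [LS_cons]; rw [ih]; ring

theorem LS_mul_left (c : ℝ≥0∞) (f : V d → ℝ≥0∞) (L : List (V d)) :
    LS (fun x => c * f x) L = c * LS f L := by
  induction L with
  | nil => simp
  | cons x L ih => simp only [LS_cons]; rw [ih]; ring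

theorem S_eq_LS (f : V d → ℝ≥0∞) (x : V d) (l : List (Stp d)) : S f x l = LS f (pts x l) := rfl

/-- occupation numbers of a list -/
def mu (L : List (V d)) (z : V d) : ℝ≥0∞ := LS (fun y => one? (z = y)) L

theorem mu_ne_zero {L : List (V d)} {z : V d} (h : mu L z ≠ 0) : z ∈ L := by
  induction L with
  | nil => simp [mu] at h
  | cons y L ih =>
    by_cases hz : z = y
    · simp [hz]
    · have : mu (y :: L) z = mu L z := by
        unfold mu
        rw [LS_cons, one?_false hz, zero_add]
      rw [this] at h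
      exact List.mem_cons_of_mem _ (ih h)

theorem tsum_mu_mul (L : List (V d)) (G : V d → ℝ≥0∞) : ∑' z, mu L z * G z = LS G L := by
  induction L with
  | nil => simp [mu]
  | cons y L ih =>
    have h : ∀ z, mu (y :: L) z * G z = one? (z = y) * G z + mu L z * G z := by
      intro z
      unfold mu
      rw [LS_cons, add_mul]
    simp_rw [h]
    rw [ENNReal.tsum_add, ih, LS_cons]
    congr 1
    rw [tsum_eq_single y]
    · rw [one?_true rfl, one_mul]
    · intro z hz
      rw [one?_false hz, zero_mul]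

theorem tsum_mu (L : List (V d)) : ∑' z, mu L z = L.length := by
  have := tsum_mu_mul L (fun _ => 1)
  simp only [mul_one] at this
  rw [this]
  induction L with
  | nil => simp
  | cons y L ih =>
    rw [LS_cons, ih (by have := tsum_mu_mul L (fun _ => 1); simpa using this)]
    push_cast [List.length_cons]
    ring

/-- energy of a list -/
def En (g : V d → ℝ≥0∞) (L : List (V d)) : ℝ≥0∞ := LS (fun y => LS (fun y' => g (y - y')) L) L

theorem LS_map (f : V d → ℝ≥0∞) (φ : V d → V d) (L : List (V d)) :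
    LS f (L.map φ) = LS (fun x => f (φ x)) L := by
  unfold LS
  rw [List.map_map]
  rfl

theorem En_translate (g : V d → ℝ≥0∞) (x : V d) (l : List (Stp d)) :
    En g (pts x l) = En g (pts 0 l) := by
  rw [pts_eq_map x l]
  unfold En
  rw [LS_map]
  simp_rw [LS_map]
  simp

theorem En_cons_le (g : V d → ℝ≥0∞) (hg : ∀ x, g (-x) = g x) (x : V d) (L : List (V d)) :
    En g (x :: L) ≤ 2 * LS (fun y => g (y - x)) (x :: L) + En g L := by
  unfold En
  simp only [LS_cons, sub_self]
  rw [LS_add]
  have h : LS (fun y' => g (x - y')) L = LS (fun y => g (y - x)) L := by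
    unfold LS
    congr 1
    refine List.map_congr_left fun y _ => ?_
    rw [← hg, neg_sub]
  rw [h]
  set s := LS (fun y => g (y - x)) L
  set t := LS (fun y => LS (fun y' => g (y - y')) L) L
  calc g 0 + s + (s + t) ≤ g 0 + s + (s + t) + g 0 := le_self_add
    _ = 2 * (g 0 + s) + t := by ring

theorem Av_succ_le [NeZero d] (n : ℕ) (x : V d) (F G : List (Stp d) → ℝ≥0∞)
    (H : V d → List (Stp d) → ℝ≥0∞)
    (h : ∀ e l, F (e :: l) ≤ G (e :: l) + H (x + stp e) l) :
    Av (n + 1) F ≤ Av (n + 1) G + PP (fun y => Av n (H y)) x := by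
  rw [Av_succ, Av_succ, PP, ← ENNReal.add_div, ← Finset.sum_add_distrib]
  gcongr with e _
  rw [← Av_add]
  exact Av_mono n fun l _ => h e l

theorem Av_En [NeZero d] (g : V d → ℝ≥0∞) (hg : ∀ x, g (-x) = g x) (B : ℕ → ℝ≥0∞)
    (hB : ∀ n, ∑ u ∈ Finset.range (n + 1), PP^[u] g 0 ≤ B n) (hBm : Monotone B) (n : ℕ) (x : V d) :
    Av n (fun l => En g (pts x l)) ≤ 2 * ((n : ℝ≥0∞) + 1) * B n := by
  induction n generalizing x with
  | zero =>
    rw [Av_zero]
    have h0 := hB 0
    simp only [zero_add, Finset.range_one, Finset.sum_singleton, Function.iterate_zero, id_eq] at h0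
    calc En g (pts x []) = g 0 := by simp [En]
      _ ≤ B 0 := h0
      _ ≤ _ := by
          push_cast
          rw [zero_add, mul_one]
          calc B 0 = 1 * B 0 := (one_mul _).symm
            _ ≤ 2 * B 0 := by gcongr; norm_num
  | succ n ih =>
    have h1 := Av_succ_le n x (fun l => En g (pts x l))
      (fun l => 2 * S (fun y => g (y - x)) x l) (fun y l => En g (pts y l))
      (fun e l => by
        rw [pts_cons, S_eq_LS, pts_cons]
        exact En_cons_le g hg x _)
    refine h1.trans ?_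
    rw [Av_mul_left, Av_S]
    have h2 : ∀ u, PP^[u] (fun y => g (y - x)) x = PP^[u] g 0 := by
      intro u
      have := PPn_shift u (fun y => g (y - x)) x 0
      rw [add_zero] at this
      rw [← this]
      refine congrArg (fun f => PP^[u] f 0) (funext fun y => ?_)
      simp
    simp_rw [h2]
    calc 2 * ∑ u ∈ Finset.range (n + 1 + 1), PP^[u] g 0
          + PP (fun y => Av n (fun l => En g (pts y l))) x
        ≤ 2 * B (n + 1) + PP (fun _ => 2 * ((n : ℝ≥0∞) + 1) * B n) x := by
          gcongr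
          · exact hB (n + 1)
          · exact PP_mono ih x
      _ = 2 * B (n + 1) + 2 * ((n : ℝ≥0∞) + 1) * B n := by rw [PP_const]
      _ ≤ 2 * B (n + 1) + 2 * ((n : ℝ≥0∞) + 1) * B (n + 1) := by
          gcongr
          exact hBm (Nat.le_succ n)
      _ = _ := by push_cast; ring

/-- delta function -/
def dl (x : V d) : ℝ≥0∞ := one? (x = 0)

theorem dl_neg (x : V d) : dl (-x) = dl x := by
  unfold dl
  congr 1
  simp

theorem LS_dl (L : List (V d)) (y : V d) : LS (fun y' => dl (y - y')) L = (L.count y : ℝ≥0∞) := by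
  induction L with
  | nil => simp
  | cons x L ih =>
    rw [LS_cons, ih]
    by_cases h : y = x
    · subst h
      rw [List.count_cons_self, dl, one?_true (by simp)]
      push_cast
      ring
    · rw [List.count_cons_of_ne (Ne.symm h), dl, one?_false (by rw [sub_eq_zero]; exact h), zero_add]

theorem En_dl (L : List (V d)) : En dl L = ((∑ z ∈ L.toFinset, L.count z ^ 2 : ℕ) : ℝ≥0∞) := by
  unfold En
  simp_rw [LS_dl]
  unfold LS
  rw [Finset.sum_list_map_count]
  push_cast
  refine Finset.sum_congr rfl fun z _ => ?_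
  rw [nsmul_eq_mul, pow_two]

theorem range_lower (L : List (V d)) :
    ((L.length : ℕ) : ℝ≥0∞) ^ 2 ≤ (L.toFinset.card : ℝ≥0∞) * En dl L := by
  rw [En_dl]
  have h := sq_sum_le_card_mul_sum_sq (s := L.toFinset) (f := fun z => (L.count z : ℤ))
  have h2 : ∑ z ∈ L.toFinset, L.count z = L.length := List.sum_toFinset_count_eq_length L
  have h3 : (L.length : ℤ) ^ 2 ≤ (L.toFinset.card : ℤ) * ∑ z ∈ L.toFinset, (L.count z : ℤ) ^ 2 := by
    rw [← h2]
    push_cast
    exact h
  exact_mod_cast h3

/-- end point -/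
def endp : V d → List (Stp d) → V d
  | x, [] => x
  | x, e :: l => endp (x + stp e) l

theorem pts_append (x : V d) (l1 l2 : List (Stp d)) :
    ∀ z ∈ pts (endp x l1) l2, z ∈ pts x (l1 ++ l2) := by
  induction l1 generalizing x with
  | nil => intro z hz; exact hz
  | cons e l1 ih =>
    intro z hz
    rw [List.cons_append, pts_cons]
    exact List.mem_cons_of_mem _ (ih (x + stp e) z hz)

theorem pts_take (x : V d) (l : List (Stp d)) (n : ℕ) : ∀ z ∈ pts x (l.take n), z ∈ pts x l := by
  induction l generalizing x n with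
  | nil => intro z hz; simpa using hz
  | cons e l ih =>
    intro z hz
    cases n with
    | zero =>
      simp only [List.take_zero, pts_nil, List.mem_singleton] at hz
      rw [hz]
      exact mem_pts_self _ _
    | succ n =>
      rw [List.take_succ_cons, pts_cons] at hz
      rw [pts_cons]
      rcases List.mem_cons.mp hz with h | h
      · rw [h]; exact List.mem_cons_self
      · exact List.mem_cons_of_mem _ (ih _ _ _ h)

/-- number of good hits -/
def NG (μ : V d → ℝ≥0∞) (G : List (Stp d) → Prop) : ℕ → V d → List (Stp d) → ℝ≥0∞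
  | 0, x, l => μ x * one? (G l)
  | _ + 1, x, [] => μ x * one? (G [])
  | n + 1, x, e :: l => μ x * one? (G (e :: l)) + NG μ G n (x + stp e) l

theorem f_le_S (f : V d → ℝ≥0∞) (x : V d) (l : List (Stp d)) : f x ≤ S f x l := by
  cases l with
  | nil => simp
  | cons e l => rw [S_cons]; exact le_self_add

theorem NG_le_S (μ : V d → ℝ≥0∞) (G : List (Stp d) → Prop) (T : ℕ) (x : V d)
    (l : List (Stp d)) : NG μ G T x l ≤ S μ x l := by
  have h0 : ∀ (x : V d) (p : Prop), μ x * one? p ≤ μ x := by
    intro x p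
    calc μ x * one? p ≤ μ x * 1 := by gcongr; exact one?_le_one p
      _ = μ x := mul_one _
  induction T generalizing x l with
  | zero => exact (h0 x _).trans (f_le_S μ x l)
  | succ T ih =>
    cases l with
    | nil => exact (h0 x _).trans (f_le_S μ x [])
    | cons e l =>
      rw [S_cons]
      exact add_le_add (h0 x _) (ih _ _)

theorem NG_ne_zero (μ : V d → ℝ≥0∞) (G : List (Stp d) → Prop) (T : ℕ) (x : V d)
    (l : List (Stp d)) (h : NG μ G T x l ≠ 0) :
    ∃ l1 l2, l = l1 ++ l2 ∧ l1.length ≤ T ∧ μ (endp x l1) ≠ 0 ∧ G l2 := by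
  have h0 : ∀ (x : V d) (p : Prop), μ x * one? p ≠ 0 → μ x ≠ 0 ∧ p := by
    intro x p hne
    refine ⟨left_ne_zero_of_mul hne, ?_⟩
    by_contra hp
    rw [one?_false hp, mul_zero] at hne
    exact hne rfl
  induction T generalizing x l with
  | zero =>
    obtain ⟨h1, h2⟩ := h0 x _ h
    exact ⟨[], l, rfl, le_rfl, h1, h2⟩
  | succ T ih =>
    cases l with
    | nil =>
      obtain ⟨h1, h2⟩ := h0 x _ h
      exact ⟨[], [], rfl, Nat.zero_le _, h1, h2⟩
    | cons e l =>
      by_cases h1 : μ x * one? (G (e :: l)) = 0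
      · have h2 : NG μ G T (x + stp e) l ≠ 0 := by
          intro h3
          apply h
          show μ x * one? (G (e :: l)) + NG μ G T (x + stp e) l = 0
          rw [h1, h3, add_zero]
        obtain ⟨l1, l2, hl, hlen, hm, hG⟩ := ih _ _ h2
        exact ⟨e :: l1, l2, by rw [hl]; rfl, by simpa using hlen, hm, hG⟩
      · obtain ⟨h1, h2⟩ := h0 x _ h1
        exact ⟨[], e :: l, rfl, Nat.zero_le _, h1, h2⟩

theorem NG_first [NeZero d] (μ : V d → ℝ≥0∞) (G : List (Stp d) → Prop) (n0 : ℕ)
    (hG : ∀ l, G l ↔ G (l.take n0)) (T n : ℕ) (hn : T + n0 ≤ n) :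
    ∑' x, Av n (NG μ G T x) = ((T : ℝ≥0∞) + 1) * (∑' x, μ x) * Av n0 (fun l => one? (G l)) := by
  have hA : ∀ n, n0 ≤ n → Av n (fun l : List (Stp d) => one? (G l)) = Av n0 (fun l => one? (G l)) := by
    intro n hn
    rw [← Av_take n0 n hn (fun l => one? (G l))]
    refine Av_congr n fun l _ => ?_
    congr 1
    exact propext (hG l)
  induction T generalizing n with
  | zero =>
    have : ∀ x, Av n (NG μ G 0 x) = μ x * Av n0 (fun l => one? (G l)) := by
      intro x
      rw [← hA n (by omega), ← Av_mul_left]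
      rfl
    simp_rw [this]
    rw [ENNReal.tsum_mul_right]
    simp
  | succ T ih =>
    obtain ⟨n', rfl⟩ : ∃ n', n = n' + 1 := ⟨n - 1, by omega⟩
    have h : ∀ x, Av (n' + 1) (NG μ G (T + 1) x)
        = μ x * Av n0 (fun l => one? (G l)) + PP (fun y => Av n' (NG μ G T y)) x := by
      intro x
      rw [← hA (n' + 1) (by omega), ← Av_mul_left, Av_succ, Av_succ, PP, ← ENNReal.add_div,
        ← Finset.sum_add_distrib]
      congr 1
      refine Finset.sum_congr rfl fun e _ => ?_
      rw [← Av_add]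
      rfl
    simp_rw [h]
    rw [ENNReal.tsum_add, tsum_PP, ih n' (by omega), ENNReal.tsum_mul_right]
    push_cast
    ring

/-- ordered pair sum -/
def QS (f : V d → ℝ≥0∞) : V d → List (Stp d) → ℝ≥0∞
  | x, [] => f x * f x
  | x, e :: l => f x * S f x (e :: l) + QS f (x + stp e) l

theorem S_sq_le (f : V d → ℝ≥0∞) (x : V d) (l : List (Stp d)) : S f x l ^ 2 ≤ 2 * QS f x l := by
  induction l generalizing x with
  | nil =>
    rw [S_nil, QS, pow_two]
    calc f x * f x = 1 * (f x * f x) := (one_mul _).symm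
      _ ≤ 2 * (f x * f x) := by gcongr; norm_num
  | cons e l ih =>
    rw [S_cons, QS, S_cons]
    set s := S f (x + stp e) l
    calc (f x + s) ^ 2 ≤ (f x + s) ^ 2 + f x ^ 2 := le_self_add
      _ = 2 * (f x * (f x + s)) + s ^ 2 := by ring
      _ ≤ 2 * (f x * (f x + s)) + 2 * QS f (x + stp e) l := by gcongr; exact ih _
      _ = _ := by ring

theorem QS_sum [NeZero d] (f : V d → ℝ≥0∞) (B : V d → ℝ≥0∞) (hB : ∀ n x, Av n (S f x) ≤ B x)
    (n : ℕ) : ∑' x, Av n (QS f x) ≤ ((n : ℝ≥0∞) + 1) * ∑' x, f x * B x := by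
  induction n with
  | zero =>
    simp only [Nat.cast_zero, zero_add, one_mul]
    refine ENNReal.tsum_le_tsum fun x => ?_
    rw [Av_zero]
    show f x * f x ≤ f x * B x
    gcongr
    have := hB 0 x
    rwa [Av_zero, S_nil] at this
  | succ n ih =>
    have h : ∀ x, Av (n + 1) (QS f x) ≤ f x * B x + PP (fun y => Av n (QS f y)) x := by
      intro x
      have h1 := Av_succ_le n x (QS f x) (fun l => f x * S f x l) (fun y l => QS f y l)
        (fun e l => le_of_eq rfl)
      refine h1.trans ?_
      rw [Av_mul_left]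
      gcongr
      exact hB (n + 1) x
    calc ∑' x, Av (n + 1) (QS f x) ≤ ∑' x, (f x * B x + PP (fun y => Av n (QS f y)) x) :=
          ENNReal.tsum_le_tsum h
      _ = ∑' x, f x * B x + ∑' x, Av n (QS f x) := by rw [ENNReal.tsum_add, tsum_PP]
      _ ≤ ∑' x, f x * B x + ((n : ℝ≥0∞) + 1) * ∑' x, f x * B x := by gcongr
      _ = _ := by push_cast; ring

theorem two_mul_le (a N : ℝ≥0∞) : 2 * a * N ≤ a ^ 2 + N ^ 2 := by
  by_cases ha : a = ⊤
  · subst ha; simp
  by_cases hN : N = ⊤
  · subst hN; simp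
  lift a to NNReal using ha
  lift N to NNReal using hN
  have : 2 * a * N ≤ a ^ 2 + N ^ 2 := two_mul_le_add_sq a N
  exact_mod_cast this

/-- Cauchy-Schwarz, in the linear form -/
theorem lin_bound [NeZero d] (μ : V d → ℝ≥0∞) (G : List (Stp d) → Prop) (T n : ℕ) (a : ℝ≥0∞) :
    2 * a * ∑' x, Av n (NG μ G T x)
      ≤ a ^ 2 * ∑' x, Av n (fun l => one? (NG μ G T x l ≠ 0)) + 2 * ∑' x, Av n (QS μ x) := by
  rw [← ENNReal.tsum_mul_left, ← ENNReal.tsum_mul_left, ← ENNReal.tsum_mul_left,
    ← ENNReal.tsum_add]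
  refine ENNReal.tsum_le_tsum fun x => ?_
  rw [← Av_mul_left, ← Av_mul_left, ← Av_mul_left, ← Av_add]
  refine Av_mono n fun l _ => ?_
  by_cases h : NG μ G T x l = 0
  · rw [h, mul_zero]; exact zero_le
  · rw [one?_true h, mul_one]
    refine (two_mul_le a _).trans ?_
    gcongr
    calc NG μ G T x l ^ 2 ≤ S μ x l ^ 2 := by gcongr; exact NG_le_S _ _ _ _ _
      _ ≤ _ := S_sq_le _ _ _

end

end Pool.Agent.H592
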