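import Mathlib
import Pool.Agent.H592W.Bad

set_option autoImplicit false
open scoped ENNReal BigOperators

namespace Pool.Agent.H592

noncomputable section

variable {d : ℕ}

/-- nearest-neighbour adjacency -/
def nb (a b : V d) : Prop := ∑ j, |a j - b j| = 1

theorem nb_symm {a b : V d} (h : nb a b) : nb b a := by
  unfold nb at *
  rw [← h]
  exact Finset.sum_congr rfl fun j _ => abs_sub_comm _ _

theorem nb_ne {a b : V d} (h : nb a b) : a ≠ b := by
  rintro rfl
  simp [nb] at h

theorem nb_coord {a b : V d} (h : nb a b) (j : Fin d) : |a j - b j| ≤ 1 := by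
  unfold nb at h
  rw [← h]
  exact Finset.single_le_sum (f := fun j => |a j - b j|) (fun i _ => abs_nonneg _)
    (Finset.mem_univ j)

/-- occupied set of a set of worms -/
def occ (Q : Set (V d × Finset (V d))) : Set (V d) := {a | ∃ k ∈ Q, a - k.1 ∈ k.2}

theorem occ_mono {Q Q' : Set (V d × Finset (V d))} (h : Q ⊆ Q') : occ Q ⊆ occ Q' := by
  rintro a ⟨k, hk, ha⟩
  exact ⟨k, h hk, ha⟩

/-- a step inside `U` -/
def st (U : Set (V d)) (a b : V d) : Prop := a ∈ U ∧ b ∈ U ∧ nb a b

/-- connection inside `U` -/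
def conn (U : Set (V d)) : V d → V d → Prop := Relation.ReflTransGen (st U)

theorem st_symm {U : Set (V d)} {a b : V d} (h : st U a b) : st U b a := ⟨h.2.1, h.1, nb_symm h.2.2⟩

theorem conn_symm {U : Set (V d)} {a b : V d} (h : conn U a b) : conn U b a := by
  unfold conn at *
  induction h with
  | refl => exact Relation.ReflTransGen.refl
  | tail _ h2 ih => exact Relation.ReflTransGen.head (st_symm h2) ih

theorem conn_mono {U U' : Set (V d)} (h : U ⊆ U') {a b : V d} (hc : conn U a b) : conn U' a b := by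
  unfold conn at *
  induction hc with
  | refl => exact Relation.ReflTransGen.refl
  | tail _ h2 ih => exact Relation.ReflTransGen.tail ih ⟨h h2.1, h h2.2.1, h2.2.2⟩

/-- an infinite cluster -/
def perc (U : Set (V d)) : Prop := ∃ y, {z | conn U y z}.Infinite

/-- local worms -/
def T (c : V d) (r : ℕ) : Finset (V d × Finset (V d)) :=
  (Bx c (3 * r)).biUnion fun z =>
    ((Bx c (3 * r)).image (fun y => y - z)).powerset.image (fun A => (z, A))

theorem mem_T {c : V d} {r : ℕ} {k : V d × Finset (V d)} :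
    k ∈ T c r ↔ k.1 ∈ Bx c (3 * r) ∧ ∀ a ∈ k.2, k.1 + a ∈ Bx c (3 * r) := by
  unfold T
  simp only [Finset.mem_biUnion, Finset.mem_image, Finset.mem_powerset]
  constructor
  · rintro ⟨z, hz, A, hA, rfl⟩
    refine ⟨hz, fun a ha => ?_⟩
    have := hA ha
    rw [Finset.mem_image] at this
    obtain ⟨y, hy, rfl⟩ := this
    simpa using hy
  · rintro ⟨h1, h2⟩
    refine ⟨k.1, h1, k.2, fun a ha => ?_, rfl⟩
    rw [Finset.mem_image]
    exact ⟨k.1 + a, h2 a ha, by simp⟩

theorem T_disjoint {y1 y2 : V d} {r : ℕ} (h : ∃ j, (6 * r : ℤ) < |y1 j - y2 j|) :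
    Disjoint (T y1 r) (T y2 r) := by
  rw [Finset.disjoint_left]
  rintro k hk1 hk2
  obtain ⟨j, hj⟩ := h
  rw [mem_T] at hk1 hk2
  have h1 := mem_Bx.mp hk1.1 j
  have h2 := mem_Bx.mp hk2.1 j
  push_cast at h1 h2
  rw [abs_le] at h1 h2
  rw [lt_abs] at hj
  omega

/-- crossing of the annulus -/
def cross (U : Set (V d)) (c : V d) (r : ℕ) : Prop :=
  ∃ p q, p ∈ Bx c r ∧ q ∉ Bx c (2 * r) ∧ conn U p q

/-- crossing by local worms -/
def E (Q : Set (V d × Finset (V d))) (c : V d) (r : ℕ) : Prop :=
  cross (occ (Q ∩ (T c r : Set (V d × Finset (V d))))) c r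

/-- stop at the first exit -/
theorem loc {U : Set (V d)} {y : V d} {R : ℕ} {p q : V d} (h : conn U p q) (hp : p ∈ Bx y R)
    (hq : q ∉ Bx y R) :
    ∃ q', q' ∉ Bx y R ∧ conn (U ∩ (Bx y (R + 1) : Set (V d))) p q' := by
  have key : p ∉ Bx y R ∨ ∃ q', q' ∉ Bx y R ∧ conn (U ∩ (Bx y (R + 1) : Set (V d))) p q' := by
    unfold conn at h
    induction h using Relation.ReflTransGen.head_induction_on with
    | refl => exact Or.inl hq
    | head h1 h2 ih =>
      rename_i a b
      by_cases ha : a ∈ Bx y R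
      · right
        have haU : a ∈ U ∩ (Bx y (R + 1) : Set (V d)) := by
          refine ⟨h1.1, ?_⟩
          rw [Finset.mem_coe, mem_Bx] at *
          intro j
          have := ha j
          push_cast
          linarith
        have hbU : b ∈ U ∩ (Bx y (R + 1) : Set (V d)) := by
          refine ⟨h1.2.1, ?_⟩
          rw [Finset.mem_coe, mem_Bx] at *
          intro j
          have h3 := ha j
          have h4 := nb_coord h1.2.2 j
          rw [abs_le] at *
          push_cast
          constructor <;> linarith [h3.1, h3.2, h4.1, h4.2]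
        by_cases hb : b ∈ Bx y R
        · rcases ih hb with h5 | ⟨q', hq', hc⟩
          · exact absurd hb h5
          · exact ⟨q', hq', Relation.ReflTransGen.head ⟨haU, hbU, h1.2.2⟩ hc⟩
        · exact ⟨b, hb, Relation.ReflTransGen.single ⟨haU, hbU, h1.2.2⟩⟩
      · exact Or.inl ha
  rcases key with h1 | h1
  · exact absurd hp h1
  · exact h1

/-- a local crossing from a global one when no worm is bad -/
theorem local_cross {Q : Set (V d × Finset (V d))} {c y p q : V d} {r : ℕ}
    (hbad : ∀ k ∈ Q, ¬ bad c r k)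
    (h : conn (occ (Q ∩ {k | ∀ a ∈ k.2, k.1 + a ∈ Bx c (24 * r)})) p q)
    (hp : p ∈ Bx y r) (hq : q ∉ Bx y (2 * r)) : E Q y r := by
  have hp2 : p ∈ Bx y (2 * r) := by
    rw [mem_Bx] at *
    intro j
    have := hp j
    push_cast
    have : (0 : ℤ) ≤ r := by positivity
    linarith
  obtain ⟨q', hq', hc⟩ := loc h hp2 hq
  refine ⟨p, q', hp, hq', conn_mono ?_ hc⟩
  rintro a ⟨⟨k, ⟨hkQ, hkT⟩, hak⟩, haB⟩
  have hnb := hbad k hkQ
  simp only [Set.mem_ofPred_eq] at hkT
  have hto : touches k c (24 * r) := ⟨a - k.1, hak, hkT _ hak⟩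
  unfold bad at hnb
  push Not at hnb
  obtain ⟨h0, hs⟩ := hnb hto
  have hb : ∀ b ∈ k.2, k.1 + b ∈ Bx y (3 * r) := by
    intro b hb
    have h1 := hs b hb (a - k.1) hak
    rw [Finset.mem_coe, mem_Bx] at haB
    rw [mem_Bx]
    intro j
    have h2 := h1 j
    have h3 := haB j
    simp only [Pi.sub_apply] at h2
    simp only [Pi.add_apply]
    rw [abs_lt] at h2
    rw [abs_le] at *
    push_cast at *
    omega
  refine ⟨k, ⟨hkQ, ?_⟩, hak⟩
  rw [Finset.mem_coe, mem_T]
  refine ⟨?_, hb⟩
  have := hb 0 h0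
  simpa using this

/-- the grid -/
def gr (c : V d) (r M : ℕ) : Finset (V d) :=
  (Bx (0 : V d) M).image (fun z => fun j => c j + (r : ℤ) * z j)

theorem card_gr (c : V d) (r M : ℕ) : (gr c r M).card ≤ (2 * M + 1) ^ d := by
  unfold gr
  exact Finset.card_image_le.trans (card_Bx _ _).le

theorem exists_gr (c p : V d) (r M : ℕ) (hr : 1 ≤ r) (hp : p ∈ Bx c (M * r)) :
    ∃ y ∈ gr c r M, ∀ j, 0 ≤ p j - y j ∧ p j - y j < r := by
  have hr0 : (0 : ℤ) < r := by exact_mod_cast hr
  refine ⟨fun j => c j + (r : ℤ) * ((p j - c j) / r), ?_, fun j => ?_⟩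
  · unfold gr
    rw [Finset.mem_image]
    refine ⟨fun j => (p j - c j) / r, ?_, rfl⟩
    rw [mem_Bx] at *
    intro j
    have h1 := hp j
    rw [abs_le] at *
    push_cast at h1
    simp only [Pi.zero_apply, sub_zero]
    constructor
    · rw [Int.le_ediv_iff_mul_le hr0]
      linarith [h1.1]
    · have : (p j - c j) / r < M + 1 := by
        rw [Int.ediv_lt_iff_lt_mul hr0]
        nlinarith [h1.2]
      omega
  · have h1 := Int.emod_add_mul_ediv (p j - c j) r
    have h2 := Int.emod_nonneg (p j - c j) hr0.ne'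
    have h3 := Int.emod_lt_of_pos (p j - c j) hr0
    dsimp only
    constructor <;> linarith

/-- the geometric recursion -/
theorem geom_step {Q : Set (V d × Finset (V d))} {c : V d} {r : ℕ} (hr : 1 ≤ r)
    (hbad : ∀ k ∈ Q, ¬ bad c r k) (hE : E Q c (8 * r)) :
    ∃ y1 ∈ gr c r 24, ∃ y2 ∈ gr c r 24, (∃ j, (6 * r : ℤ) < |y1 j - y2 j|) ∧
      E Q y1 r ∧ E Q y2 r := by
  obtain ⟨p, q, hp, hq, hc⟩ := hE
  have hr0 : (1 : ℤ) ≤ r := by exact_mod_cast hr
  have hsub : occ (Q ∩ (T c (8 * r) : Set (V d × Finset (V d))))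
      ⊆ occ (Q ∩ {k | ∀ a ∈ k.2, k.1 + a ∈ Bx c (24 * r)}) := by
    apply occ_mono
    rintro k ⟨h1, h2⟩
    refine ⟨h1, ?_⟩
    rw [Finset.mem_coe, mem_T] at h2
    have : 3 * (8 * r) = 24 * r := by ring
    rw [this] at h2
    exact h2.2
  have hc' := conn_mono hsub hc
  -- q is in the big box
  have hqB : q ∈ Bx c (24 * r) := by
    have hne : p ≠ q := by
      rintro rfl
      apply hq
      rw [mem_Bx] at *
      intro j
      have := hp j
      push_cast at *
      linarith
    rcases Relation.ReflTransGen.cases_tail hc' with h | ⟨w, _, hw⟩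
    · exact absurd h.symm hne
    · obtain ⟨k, ⟨_, hk⟩, hqk⟩ := hw.2.1
      have := hk _ hqk
      simpa using this
  obtain ⟨y1, hy1, h1⟩ := exists_gr c p r 24 hr (by
    rw [mem_Bx] at *
    intro j
    have := hp j
    push_cast at *
    linarith)
  obtain ⟨y2, hy2, h2⟩ := exists_gr c q r 24 hr hqB
  have hq2 : ∃ j, (2 * (8 * r) : ℤ) < |q j - c j| := by
    by_contra hcon
    push Not at hcon
    apply hq
    rw [mem_Bx]
    intro j
    have := hcon j
    push_cast
    exact this
  obtain ⟨j, hj⟩ := hq2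
  have hpj : |p j - c j| ≤ 8 * r := by
    have := mem_Bx.mp hp j
    push_cast at this
    exact this
  have h1j := h1 j
  have h2j := h2 j
  refine ⟨y1, hy1, y2, hy2, ⟨j, ?_⟩, ?_, ?_⟩
  · rw [abs_le] at hpj
    rw [lt_abs] at *
    omega
  · refine local_cross hbad hc' ?_ ?_
    · rw [mem_Bx]
      intro i
      have := h1 i
      rw [abs_le]
      constructor <;> linarith [this.1, this.2]
    · rw [mem_Bx]
      intro hcon
      have h3 := hcon j
      push_cast at h3
      rw [abs_le] at hpj h3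
      rw [lt_abs] at hj
      omega
  · refine local_cross hbad (conn_symm hc') ?_ ?_
    · rw [mem_Bx]
      intro i
      have := h2 i
      rw [abs_le]
      constructor <;> linarith [this.1, this.2]
    · rw [mem_Bx]
      intro hcon
      have h3 := hcon j
      push_cast at h3
      rw [abs_le] at hpj h3
      rw [lt_abs] at hj
      omega

/-- global crossing implies local crossing when nothing is bad -/
theorem cross_local {Q : Set (V d × Finset (V d))} {c : V d} {r : ℕ} (hr : 1 ≤ r)
    (hbad : ∀ k ∈ Q, ¬ bad c r k) (hc : cross (occ Q) c r) : E Q c r := by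
  obtain ⟨p, q, hp, hq, hc⟩ := hc
  have hp2 : p ∈ Bx c (2 * r) := by
    rw [mem_Bx] at *
    intro j
    have := hp j
    push_cast
    have : (0 : ℤ) ≤ r := by positivity
    linarith
  obtain ⟨q', hq', hc'⟩ := loc hc hp2 hq
  refine ⟨p, q', hp, hq', conn_mono ?_ hc'⟩
  rintro a ⟨⟨k, hkQ, hak⟩, haB⟩
  have hnb := hbad k hkQ
  rw [Finset.mem_coe, mem_Bx] at haB
  have hto : touches k c (24 * r) := by
    refine ⟨a - k.1, hak, ?_⟩
    rw [mem_Bx]
    intro j
    have := haB j
    simp only [add_sub_cancel]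
    have : (1 : ℤ) ≤ r := by exact_mod_cast hr
    push_cast at *
    linarith
  unfold bad at hnb
  push Not at hnb
  obtain ⟨h0, hs⟩ := hnb hto
  have hb : ∀ b ∈ k.2, k.1 + b ∈ Bx c (3 * r) := by
    intro b hb
    have h1 := hs b hb (a - k.1) hak
    rw [mem_Bx]
    intro j
    have h2 := h1 j
    have h3 := haB j
    simp only [Pi.sub_apply] at h2
    simp only [Pi.add_apply]
    rw [abs_lt] at h2
    rw [abs_le] at *
    push_cast at *
    omega
  refine ⟨k, ⟨hkQ, ?_⟩, hak⟩
  rw [Finset.mem_coe, mem_T]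
  refine ⟨?_, hb⟩
  have := hb 0 h0
  simpa using this

/-- removing finitely many points does not destroy percolation -/
theorem perc_remove {U U' : Set (V d)} (hfin : (U \ U').Finite) (h : perc U) : perc U' := by
  classical
  obtain ⟨y, hy⟩ := h
  by_contra hno
  unfold perc at hno
  push Not at hno
  set F := U \ U' with hF
  -- neighbours of F
  have hN : {w : V d | ∃ f ∈ F, nb f w}.Finite := by
    have hsub : {w : V d | ∃ f ∈ F, nb f w} ⊆ ⋃ f ∈ F, (Bx f 1 : Set (V d)) := by
      rintro w ⟨f, hf, hnb⟩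
      rw [Set.mem_iUnion₂]
      refine ⟨f, hf, ?_⟩
      rw [Finset.mem_coe, mem_Bx]
      intro j
      rw [abs_sub_comm]
      exact_mod_cast nb_coord hnb j
    exact (hfin.biUnion fun f _ => (Bx f 1).finite_toSet).subset hsub
  have hcover : {z | conn U y z} ⊆ F ∪ {z | conn U' y z} ∪
      ⋃ w ∈ {w : V d | ∃ f ∈ F, nb f w}, {z | conn U' w z} := by
    intro z hz
    simp only [Set.mem_ofPred_eq] at hz
    unfold conn at hz
    induction hz with
    | refl => exact Or.inl (Or.inr Relation.ReflTransGen.refl)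
    | tail _ hbc ih =>
      rename_i b c' _
      by_cases hcF : c' ∈ F
      · exact Or.inl (Or.inl hcF)
      · have hcU' : c' ∈ U' := by
          by_contra hn
          exact hcF ⟨hbc.2.1, hn⟩
        by_cases hbF : b ∈ F
        · right
          rw [Set.mem_iUnion₂]
          exact ⟨c', ⟨b, hbF, hbc.2.2⟩, Relation.ReflTransGen.refl⟩
        · have hbU' : b ∈ U' := by
            by_contra hn
            exact hbF ⟨hbc.1, hn⟩
          rcases ih with (h1 | h1) | h1
          · exact absurd h1 hbF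
          · exact Or.inl (Or.inr (Relation.ReflTransGen.tail h1 ⟨hbU', hcU', hbc.2.2⟩))
          · right
            rw [Set.mem_iUnion₂] at *
            obtain ⟨w, hw, hc⟩ := h1
            exact ⟨w, hw, Relation.ReflTransGen.tail hc ⟨hbU', hcU', hbc.2.2⟩⟩
  refine hy (Set.Finite.subset ?_ hcover)
  refine (hfin.union (hno y)).union (hN.biUnion fun w _ => hno w)

end

end Pool.Agent.H592
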