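import Mathlib
import Pool.Agent.H592W.Sum
import Pool.Agent.H592W.Geom

set_option autoImplicit false
open scoped ENNReal BigOperators
open MeasureTheory ProbabilityTheory

namespace Pool.Agent.H592

noncomputable section

variable {d : ℕ}

/-- the law of the trace -/
def nu (m : ℕ → ℝ) (A : Finset (V d)) : ℝ≥0∞ :=
  ∑' n : ℕ, ENNReal.ofReal (m (n + 1)) * Av n (fun l => one? (tr l = A))

theorem sum_nu (m : ℕ → ℝ) (G : V d × Finset (V d) → ℝ≥0∞) :
    ∑' k, nu m k.2 * G k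
      = ∑' n : ℕ, ENNReal.ofReal (m (n + 1)) * Av n (fun l => ∑' x, G (x, tr l)) := by
  rw [ENNReal.tsum_prod']
  unfold nu
  have h1 : ∀ (x : V d) (A : Finset (V d)),
      (∑' n : ℕ, ENNReal.ofReal (m (n + 1)) * Av n (fun l => one? (tr l = A))) * G (x, A)
      = ∑' n : ℕ, ENNReal.ofReal (m (n + 1)) * Av n (fun l => one? (tr l = A) * G (x, A)) := by
    intro x A
    rw [← ENNReal.tsum_mul_right]
    refine tsum_congr fun n => ?_
    rw [Av_mul_right, mul_assoc]
  simp_rw [h1]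
  have h2 : ∀ x : V d, ∑' A : Finset (V d), ∑' n : ℕ,
      ENNReal.ofReal (m (n + 1)) * Av n (fun l => one? (tr l = A) * G (x, A))
      = ∑' n : ℕ, ENNReal.ofReal (m (n + 1)) * Av n (fun l => G (x, tr l)) := by
    intro x
    rw [ENNReal.tsum_comm]
    refine tsum_congr fun n => ?_
    rw [ENNReal.tsum_mul_left, ← Av_tsum]
    congr 1
    refine Av_congr n fun l _ => ?_
    rw [tsum_eq_single (tr l)]
    · rw [one?_true rfl, one_mul]
    · intro A hA
      rw [one?_false (fun h => hA h.symm), zero_mul]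
  simp_rw [h2]
  rw [ENNReal.tsum_comm]
  refine tsum_congr fun n => ?_
  rw [ENNReal.tsum_mul_left, ← Av_tsum]

theorem sum_nu_bad (m : ℕ → ℝ) (c : V d) (r : ℕ) :
    ∑' k : V d × Finset (V d), nu m k.2 * one? (bad c r k) = BS m c r := by
  rw [sum_nu]; rfl

theorem sum_nu_box [NeZero d] (m : ℕ → ℝ) (c : V d) (R : ℕ)
    (hm : ∑' n : ℕ, ENNReal.ofReal (m (n + 1)) ≤ 1) :
    ∑' k : V d × Finset (V d), nu m k.2 * one? (k.1 ∈ Bx c R) ≤ ((2 * R + 1 : ℕ) : ℝ≥0∞) ^ d := by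
  rw [sum_nu]
  have h : ∑' x : V d, one? (x ∈ Bx c R) = ((2 * R + 1 : ℕ) : ℝ≥0∞) ^ d := by
    have : ∀ x : V d, one? (x ∈ Bx c R) = ind (Bx c R) x := by
      intro x
      unfold one? ind
      by_cases hx : x ∈ Bx c R
      · simp [hx]
      · simp [hx]
    simp_rw [this]
    rw [tsum_ind, card_Bx]
    push_cast
    ring
  simp only [h, Av_const]
  rw [ENNReal.tsum_mul_right]
  calc _ ≤ 1 * ((2 * R + 1 : ℕ) : ℝ≥0∞) ^ d := by gcongr
    _ = _ := one_mul _

section Prob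

variable {Ω : Type*} [mΩ : MeasurableSpace Ω]

/-- the worms present -/
def Qs (ξ : V d × Finset (V d) → Ω → Bool) (ω : Ω) : Set (V d × Finset (V d)) :=
  {k | ξ k ω = true}

theorem union_bound (P : Measure Ω) (ξ : V d × Finset (V d) → Ω → Bool) (v : ℝ≥0∞) (m : ℕ → ℝ)
    (hp : ∀ k, P {ω | ξ k ω = true} ≤ v * nu m k.2) (p : V d × Finset (V d) → Prop) :
    P {ω | ∃ k ∈ Qs ξ ω, p k} ≤ v * ∑' k, nu m k.2 * one? (p k) := by
  have h1 : {ω | ∃ k ∈ Qs ξ ω, p k} = ⋃ k, {ω | ξ k ω = true ∧ p k} := by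
    ext ω; simp [Qs]
  rw [h1]
  refine (measure_iUnion_le _).trans ?_
  rw [← ENNReal.tsum_mul_left]
  refine ENNReal.tsum_le_tsum fun k => ?_
  by_cases hk : p k
  · rw [one?_true hk, mul_one]
    refine le_trans (measure_mono ?_) (hp k)
    intro ω hω
    exact hω.1
  · have : {ω | ξ k ω = true ∧ p k} = ∅ := by ext ω; simp [hk]
    rw [this]
    simp

/-- the cylinder describing `E` -/
def Ecyl (c : V d) (r : ℕ) : Set ((T c r) → Bool) :=
  {b | cross (occ {k | ∃ h : k ∈ T c r, b ⟨k, h⟩ = true}) c r}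

theorem E_eq (ξ : V d × Finset (V d) → Ω → Bool) (c : V d) (r : ℕ) :
    {ω | E (Qs ξ ω) c r} = (fun ω (k : T c r) => ξ k ω) ⁻¹' Ecyl c r := by
  ext ω
  simp only [Set.mem_preimage, Ecyl, E, Set.mem_ofPred_eq]
  have : Qs ξ ω ∩ (T c r : Set (V d × Finset (V d)))
      = {k | ∃ h : k ∈ T c r, ξ k ω = true} := by
    ext k
    simp [Qs, and_comm]
  rw [this]

theorem E_indep (P : Measure Ω) (ξ : V d × Finset (V d) → Ω → Bool)
    (hm : ∀ k, Measurable (ξ k)) (hi : iIndepFun ξ P) (y1 y2 : V d) (r : ℕ)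
    (h : ∃ j, (6 * r : ℤ) < |y1 j - y2 j|) :
    P {ω | E (Qs ξ ω) y1 r ∧ E (Qs ξ ω) y2 r}
      = P {ω | E (Qs ξ ω) y1 r} * P {ω | E (Qs ξ ω) y2 r} := by
  have h1 := hi.indepFun_finset (T y1 r) (T y2 r) (T_disjoint h) hm
  have h2 : {ω | E (Qs ξ ω) y1 r ∧ E (Qs ξ ω) y2 r}
      = {ω | E (Qs ξ ω) y1 r} ∩ {ω | E (Qs ξ ω) y2 r} := rfl
  rw [h2, E_eq, E_eq]
  exact h1.measure_inter_preimage_eq_mul _ _ (Set.toFinite _).measurableSet
    (Set.toFinite _).measurableSet

theorem E_rec (P : Measure Ω) [IsProbabilityMeasure P] (ξ : V d × Finset (V d) → Ω → Bool)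
    (hm : ∀ k, Measurable (ξ k)) (hi : iIndepFun ξ P) (v : ℝ≥0∞) (m : ℕ → ℝ)
    (hp : ∀ k, P {ω | ξ k ω = true} ≤ v * nu m k.2) (r : ℕ) (hr : 1 ≤ r) (q : ℝ≥0∞)
    (hq : ∀ c, P {ω | E (Qs ξ ω) c r} ≤ q) (c : V d) :
    P {ω | E (Qs ξ ω) c (8 * r)} ≤ v * BS m c r + (49 ^ d : ℕ) * (49 ^ d : ℕ) * (q * q) := by
  have hsub : {ω | E (Qs ξ ω) c (8 * r)} ⊆ {ω | ∃ k ∈ Qs ξ ω, bad c r k} ∪
      ⋃ y1 ∈ gr c r 24, ⋃ y2 ∈ gr c r 24,
        {ω | (∃ j, (6 * r : ℤ) < |y1 j - y2 j|) ∧ E (Qs ξ ω) y1 r ∧ E (Qs ξ ω) y2 r} := by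
    intro ω hω
    by_cases hb : ∃ k ∈ Qs ξ ω, bad c r k
    · exact Or.inl hb
    · right
      push Not at hb
      obtain ⟨y1, hy1, y2, hy2, hj, h1, h2⟩ := geom_step hr hb hω
      rw [Set.mem_iUnion₂]
      refine ⟨y1, hy1, ?_⟩
      rw [Set.mem_iUnion₂]
      exact ⟨y2, hy2, hj, h1, h2⟩
  refine (measure_mono hsub).trans ((measure_union_le _ _).trans ?_)
  refine add_le_add ?_ ?_
  · have := union_bound P ξ v m hp (bad c r)
    rwa [sum_nu_bad] at this
  · refine (measure_biUnion_finset_le _ _).trans ?_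
    have hin : ∀ y1 ∈ gr c r 24, P (⋃ y2 ∈ gr c r 24,
        {ω | (∃ j, (6 * r : ℤ) < |y1 j - y2 j|) ∧ E (Qs ξ ω) y1 r ∧ E (Qs ξ ω) y2 r})
          ≤ (49 ^ d : ℕ) * (q * q) := by
      intro y1 _
      refine (measure_biUnion_finset_le _ _).trans ?_
      have hin2 : ∀ y2 ∈ gr c r 24, P {ω | (∃ j, (6 * r : ℤ) < |y1 j - y2 j|) ∧
          E (Qs ξ ω) y1 r ∧ E (Qs ξ ω) y2 r} ≤ q * q := by
        intro y2 _
        by_cases hj : ∃ j, (6 * r : ℤ) < |y1 j - y2 j|
        · have : {ω | (∃ j, (6 * r : ℤ) < |y1 j - y2 j|) ∧ E (Qs ξ ω) y1 r ∧ E (Qs ξ ω) y2 r}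
              = {ω | E (Qs ξ ω) y1 r ∧ E (Qs ξ ω) y2 r} := by
            ext ω; simp only [Set.mem_ofPred_eq, hj, true_and]
          rw [this, E_indep P ξ hm hi y1 y2 r hj]
          exact mul_le_mul' (hq y1) (hq y2)
        · have : {ω | (∃ j, (6 * r : ℤ) < |y1 j - y2 j|) ∧ E (Qs ξ ω) y1 r ∧ E (Qs ξ ω) y2 r}
              = ∅ := by
            ext ω; simp only [Set.mem_ofPred_eq, hj, false_and, Set.mem_empty_iff_false]
          rw [this]; simp
      calc _ ≤ ∑ y2 ∈ gr c r 24, q * q := Finset.sum_le_sum hin2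
        _ = ((gr c r 24).card : ℝ≥0∞) * (q * q) := by rw [Finset.sum_const, nsmul_eq_mul]
        _ ≤ _ := by
            gcongr
            have := card_gr c r 24
            simpa using this
    calc _ ≤ ∑ y1 ∈ gr c r 24, ((49 ^ d : ℕ) : ℝ≥0∞) * (q * q) := Finset.sum_le_sum hin
      _ = ((gr c r 24).card : ℝ≥0∞) * (((49 ^ d : ℕ) : ℝ≥0∞) * (q * q)) := by
          rw [Finset.sum_const, nsmul_eq_mul]
      _ ≤ ((49 ^ d : ℕ) : ℝ≥0∞) * (((49 ^ d : ℕ) : ℝ≥0∞) * (q * q)) := by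
          gcongr
          have := card_gr c r 24
          simpa using this
      _ = _ := by ring

theorem E_base [NeZero d] (P : Measure Ω) (ξ : V d × Finset (V d) → Ω → Bool) (v : ℝ≥0∞) (m : ℕ → ℝ)
    (hp : ∀ k, P {ω | ξ k ω = true} ≤ v * nu m k.2)
    (hms : ∑' n : ℕ, ENNReal.ofReal (m (n + 1)) ≤ 1) (c : V d) :
    P {ω | E (Qs ξ ω) c 1} ≤ v * ((7 : ℕ) : ℝ≥0∞) ^ d := by
  have hsub : {ω | E (Qs ξ ω) c 1} ⊆ {ω | ∃ k ∈ Qs ξ ω, k.1 ∈ Bx c 3} := by
    intro ω hω
    obtain ⟨p, q, hp, hq, hc⟩ := hω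
    have hne : p ≠ q := by
      rintro rfl
      apply hq
      rw [mem_Bx] at *
      intro j
      have := hp j
      push_cast at *
      linarith
    rcases Relation.ReflTransGen.cases_tail hc with h | ⟨w, _, hw⟩
    · exact absurd h.symm hne
    · obtain ⟨k, ⟨hk1, hk⟩, hqk⟩ := hw.2.1
      rw [Finset.mem_coe, mem_T] at hk
      exact ⟨k, hk1, hk.1⟩
  refine (measure_mono hsub).trans ((union_bound P ξ v m hp (fun k => k.1 ∈ Bx c 3)).trans ?_)
  gcongr
  exact sum_nu_box m c 3 hms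

/-! measurability of percolation -/

/-- `n`-step connection -/
def rn (U : Set (V d)) : ℕ → V d → V d → Prop
  | 0, y, z => y = z
  | n + 1, y, z => ∃ w, rn U n y w ∧ st U w z

theorem conn_iff_rn (U : Set (V d)) (y z : V d) : conn U y z ↔ ∃ n, rn U n y z := by
  constructor
  · intro h
    unfold conn at h
    induction h with
    | refl => exact ⟨0, rfl⟩
    | tail _ h2 ih =>
      obtain ⟨n, hn⟩ := ih
      exact ⟨n + 1, _, hn, h2⟩
  · rintro ⟨n, hn⟩
    induction n generalizing z with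
    | zero => rw [show y = z from hn]; exact Relation.ReflTransGen.refl
    | succ n ih =>
      obtain ⟨w, hw, hs⟩ := hn
      exact Relation.ReflTransGen.tail (ih w hw) hs

theorem meas_conn (m' : MeasurableSpace Ω) (U : Ω → Set (V d))
    (hU : ∀ a, MeasurableSet[m'] {ω | a ∈ U ω}) (y z : V d) :
    MeasurableSet[m'] {ω | conn (U ω) y z} := by
  have h1 : {ω | conn (U ω) y z} = ⋃ n, {ω | rn (U ω) n y z} := by
    ext ω; simp [conn_iff_rn]
  rw [h1]
  refine MeasurableSet.iUnion fun n => ?_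
  clear h1
  induction n generalizing z with
  | zero =>
    by_cases h : y = z
    · have : {ω | rn (U ω) 0 y z} = Set.univ := by ext ω; simp [rn, h]
      rw [this]; exact MeasurableSet.univ
    · have : {ω | rn (U ω) 0 y z} = ∅ := by ext ω; simp [rn, h]
      rw [this]; exact MeasurableSet.empty
  | succ n ih =>
    have h2 : {ω | rn (U ω) (n + 1) y z}
        = ⋃ w, ({ω | rn (U ω) n y w} ∩ {ω | st (U ω) w z}) := by
      ext ω; simp [rn]
    rw [h2]
    refine MeasurableSet.iUnion fun w => (ih w).inter ?_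
    have h3 : {ω | st (U ω) w z} = ({ω | w ∈ U ω} ∩ {ω | z ∈ U ω}) ∩ {_ω | nb w z} := by
      ext ω; simp [st, and_assoc]
    rw [h3]
    refine ((hU w).inter (hU z)).inter ?_
    by_cases h : nb w z
    · have : {_ω : Ω | nb w z} = Set.univ := by ext ω; simp [h]
      rw [this]; exact MeasurableSet.univ
    · have : {_ω : Ω | nb w z} = ∅ := by ext ω; simp [h]
      rw [this]; exact MeasurableSet.empty

theorem meas_inf (m' : MeasurableSpace Ω) (U : Ω → Set (V d))
    (hU : ∀ a, MeasurableSet[m'] {ω | a ∈ U ω}) (y : V d) :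
    MeasurableSet[m'] {ω | {z | conn (U ω) y z}.Infinite} := by
  have h1 : {ω | {z | conn (U ω) y z}.Infinite}
      = ⋂ F : Finset (V d), ⋃ z : V d, ({ω | conn (U ω) y z} ∩ {_ω | z ∉ F}) := by
    ext ω
    simp only [Set.mem_ofPred_eq, Set.mem_iInter, Set.mem_iUnion, Set.mem_inter_iff]
    constructor
    · intro h F
      obtain ⟨z, hz, hF⟩ := h.exists_notMem_finset F
      exact ⟨z, hz, hF⟩
    · intro h hfin
      obtain ⟨z, hz, hF⟩ := h hfin.toFinset
      exact hF (by simpa using hz)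
  rw [h1]
  refine MeasurableSet.iInter fun F => MeasurableSet.iUnion fun z => ?_
  refine (meas_conn m' U hU y z).inter ?_
  by_cases h : z ∉ F
  · have : {_ω : Ω | z ∉ F} = Set.univ := by ext ω; simp [h]
    rw [this]; exact MeasurableSet.univ
  · have : {_ω : Ω | z ∉ F} = ∅ := by ext ω; simpa using h
    rw [this]; exact MeasurableSet.empty

theorem meas_perc (m' : MeasurableSpace Ω) (U : Ω → Set (V d))
    (hU : ∀ a, MeasurableSet[m'] {ω | a ∈ U ω}) : MeasurableSet[m'] {ω | perc (U ω)} := by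
  have h1 : {ω | perc (U ω)} = ⋃ y : V d, {ω | {z | conn (U ω) y z}.Infinite} := by
    ext ω
    simp only [perc, Set.mem_ofPred_eq, Set.mem_iUnion]
  rw [h1]
  exact MeasurableSet.iUnion fun y => meas_inf m' U hU y

theorem meas_occ (m' : MeasurableSpace Ω) (ξ : V d × Finset (V d) → Ω → Bool)
    (N : V d × Finset (V d) → Prop) (h : ∀ k, N k → MeasurableSet[m'] {ω | ξ k ω = true})
    (a : V d) : MeasurableSet[m'] {ω | a ∈ occ (Qs ξ ω ∩ {k | N k})} := by
  have h2 : {ω | a ∈ occ (Qs ξ ω ∩ {k | N k})}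
      = ⋃ k : V d × Finset (V d), {ω | ξ k ω = true ∧ N k ∧ a - k.1 ∈ k.2} := by
    ext ω
    simp only [occ, Qs, Set.mem_ofPred_eq, Set.mem_iUnion, Set.mem_inter_iff]
    constructor
    · rintro ⟨k, ⟨h1, h2⟩, h3⟩; exact ⟨k, h1, h2, h3⟩
    · rintro ⟨k, h1, h2, h3⟩; exact ⟨k, ⟨h1, h2⟩, h3⟩
  rw [h2]
  refine MeasurableSet.iUnion fun k => ?_
  by_cases hk : N k ∧ a - k.1 ∈ k.2
  · have h3 : {ω | ξ k ω = true ∧ N k ∧ a - k.1 ∈ k.2} = {ω | ξ k ω = true} := by
      ext ω; simp only [Set.mem_ofPred_eq, hk, and_true]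
    rw [h3]
    exact h k hk.1
  · have h3 : {ω | ξ k ω = true ∧ N k ∧ a - k.1 ∈ k.2} = ∅ := by
      ext ω; simp only [Set.mem_ofPred_eq, hk, and_false, Set.mem_empty_iff_false]
    rw [h3]
    exact MeasurableSet.empty

/-- zero-one law -/
theorem zero_one [NeZero d] (P : Measure Ω) [IsProbabilityMeasure P]
    (ξ : V d × Finset (V d) → Ω → Bool) (hm : ∀ k, Measurable (ξ k)) (hi : iIndepFun ξ P) :
    P {ω | perc (occ (Qs ξ ω))} = 0 ∨ P {ω | perc (occ (Qs ξ ω))} = 1 := by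
  have : Nonempty (Fin d) := ⟨⟨0, Nat.pos_of_ne_zero (NeZero.ne d)⟩⟩
  have : Infinite (V d) := Function.infinite_of_right
  have : Infinite (V d × Finset (V d)) := Prod.infinite_of_left
  obtain ⟨e⟩ : Nonempty (ℕ ≃ V d × Finset (V d)) := nonempty_equiv_of_countable
  set s : ℕ → MeasurableSpace Ω := fun n => MeasurableSpace.comap (ξ (e n)) inferInstance with hs
  refine measure_zero_or_one_of_measurableSet_limsup_atTop (s := s)
    (fun n => (hm (e n)).comap_le) (hi.precomp e.injective) ?_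
  rw [Filter.limsup_eq_iInf_iSup_of_nat]
  rw [MeasurableSpace.measurableSet_iInf]
  intro n
  have heq : {ω | perc (occ (Qs ξ ω))}
      = {ω | perc (occ (Qs ξ ω ∩ {k | n ≤ e.symm k}))} := by
    ext ω
    simp only [Set.mem_ofPred_eq]
    constructor
    · intro h
      refine perc_remove ?_ h
      have hsub : occ (Qs ξ ω) \ occ (Qs ξ ω ∩ {k | n ≤ e.symm k})
          ⊆ ⋃ i ∈ Finset.range n, (((e i).2.image (fun a => (e i).1 + a) : Finset (V d)) :
              Set (V d)) := by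
        rintro a ⟨⟨k, hk, hak⟩, hna⟩
        rw [Set.mem_iUnion₂]
        refine ⟨e.symm k, ?_, ?_⟩
        · rw [Finset.mem_range]
          by_contra hcon
          push Not at hcon
          exact hna ⟨k, ⟨hk, hcon⟩, hak⟩
        · rw [Finset.mem_coe, Finset.mem_image, Equiv.apply_symm_apply]
          exact ⟨a - k.1, hak, by simp⟩
      exact ((Finset.range n).finite_toSet.biUnion fun i _ => Finset.finite_toSet _).subset hsub
    · rintro ⟨y, hy⟩
      refine ⟨y, hy.mono fun z hz => ?_⟩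
      exact conn_mono (occ_mono Set.inter_subset_left) hz
  rw [heq]
  refine meas_perc _ _ fun a => meas_occ _ ξ (fun k => n ≤ e.symm k) (fun k hk => ?_) a
  have h4 : s (e.symm k) ≤ ⨆ i, ⨆ (_ : i ≥ n), s i := le_iSup₂_of_le (e.symm k) hk le_rfl
  refine h4 _ ?_
  rw [hs]
  refine ⟨{true}, trivial, ?_⟩
  ext ω
  simp

/-- no percolation at small intensity -/
theorem upper_main [NeZero d] (m : ℕ → ℝ) (H : ℝ)
    (HB : ∀ (c : V d) (r : ℕ), 1 ≤ r → BS m c r ≤ ENNReal.ofReal H)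
    (hms : ∑' n : ℕ, ENNReal.ofReal (m (n + 1)) ≤ 1) :
    ∃ v : ℝ, 0 < v ∧ ∀ (Ω : Type) [MeasurableSpace Ω] (P : Measure Ω) [IsProbabilityMeasure P]
      (ξ : V d × Finset (V d) → Ω → Bool), (∀ k, Measurable (ξ k)) → iIndepFun ξ P →
      (∀ k, P {ω | ξ k ω = true} ≤ ENNReal.ofReal v * nu m k.2) →
      P {ω | perc (occ (Qs ξ ω))} = 0 := by
  set H' : ℝ := max H (7 ^ d) with hH'
  have hH1 : 1 ≤ H' := le_trans (one_le_pow₀ (by norm_num)) (le_max_right _ _)
  set N0 : ℝ := 49 ^ d * 49 ^ d with hN0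
  have hN1 : 1 ≤ N0 := by
    rw [hN0]
    have : (1 : ℝ) ≤ 49 ^ d := one_le_pow₀ (by norm_num)
    nlinarith
  set v : ℝ := 1 / (8 * N0 * H') with hv
  have hv0 : 0 < v := by positivity
  have hvH : v * H' * (8 * N0) = 1 := by rw [hv]; field_simp
  refine ⟨v, hv0, ?_⟩
  intro Ω _ P _ ξ hm hi hp
  set q : ℝ := 2 * v * H' with hq
  have hq0 : 0 < q := by positivity
  have hstep : ∀ k : ℕ, ∀ c : V d, P {ω | E (Qs ξ ω) c (8 ^ k)} ≤ ENNReal.ofReal q := by
    intro k
    induction k with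
    | zero =>
      intro c
      rw [pow_zero]
      refine (E_base P ξ _ m hp hms c).trans ?_
      have : ((7 : ℕ) : ℝ≥0∞) ^ d = ENNReal.ofReal (7 ^ d) := by
        rw [ENNReal.ofReal_pow (by norm_num)]; norm_num
      rw [this, ← ENNReal.ofReal_mul hv0.le]
      refine ENNReal.ofReal_le_ofReal ?_
      have : (7 : ℝ) ^ d ≤ H' := le_max_right _ _
      nlinarith
    | succ k ih =>
      intro c
      have h8 : 1 ≤ 8 ^ k := Nat.one_le_pow _ _ (by norm_num)
      have h1 := E_rec P ξ hm hi _ m hp (8 ^ k) h8 _ ih c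
      rw [pow_succ, mul_comm]
      refine h1.trans ?_
      calc ENNReal.ofReal v * BS m c (8 ^ k) + (49 ^ d : ℕ) * (49 ^ d : ℕ) *
            (ENNReal.ofReal q * ENNReal.ofReal q)
          ≤ ENNReal.ofReal v * ENNReal.ofReal H' + (49 ^ d : ℕ) * (49 ^ d : ℕ) *
            (ENNReal.ofReal q * ENNReal.ofReal q) := by
            gcongr
            exact (HB c _ h8).trans (ENNReal.ofReal_le_ofReal (le_max_left _ _))
        _ = ENNReal.ofReal (v * H' + N0 * (q * q)) := by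
            have h49 : ((49 ^ d : ℕ) : ℝ≥0∞) = ENNReal.ofReal (49 ^ d) := by
              rw [← ENNReal.ofReal_natCast]; push_cast; rfl
            rw [h49, ← ENNReal.ofReal_mul hv0.le, ← ENNReal.ofReal_mul (by positivity),
              ← ENNReal.ofReal_mul hq0.le, ← ENNReal.ofReal_mul (by positivity),
              ← ENNReal.ofReal_add (by positivity) (by positivity)]
        _ ≤ ENNReal.ofReal q := by
            refine ENNReal.ofReal_le_ofReal ?_
            have h2 : N0 * (q * q) = v * H' / 2 := by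
              have : N0 * (q * q) = (v * H' * (8 * N0)) * (v * H') / 2 := by rw [hq]; ring
              rw [this, hvH, one_mul]
            rw [h2, hq]
            nlinarith [mul_pos hv0 (by linarith : (0 : ℝ) < H')]
  have hbadp : ∀ k : ℕ, P {ω | ∃ κ ∈ Qs ξ ω, bad (0 : V d) (8 ^ k) κ} ≤ ENNReal.ofReal (v * H') := by
    intro k
    have h8 : 1 ≤ 8 ^ k := Nat.one_le_pow _ _ (by norm_num)
    have := union_bound P ξ _ m hp (bad (0 : V d) (8 ^ k))
    rw [sum_nu_bad] at this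
    refine this.trans ?_
    rw [ENNReal.ofReal_mul hv0.le]
    gcongr
    exact (HB 0 _ h8).trans (ENNReal.ofReal_le_ofReal (le_max_left _ _))
  -- percolation from the box
  set A : ℕ → Set Ω := fun k => {ω | ∃ y ∈ Bx (0 : V d) (8 ^ k),
    {z | conn (occ (Qs ξ ω)) y z}.Infinite} with hA
  have hAmono : Monotone A := by
    intro a b hab ω hω
    obtain ⟨y, hy, hinf⟩ := hω
    refine ⟨y, ?_, hinf⟩
    rw [mem_Bx] at *
    intro j
    refine (hy j).trans ?_
    exact_mod_cast Nat.pow_le_pow_right (by norm_num) hab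
  have hAP : ∀ k, P (A k) ≤ ENNReal.ofReal (3 / 8) := by
    intro k
    have hsub : A k ⊆ {ω | E (Qs ξ ω) 0 (8 ^ k)} ∪ {ω | ∃ κ ∈ Qs ξ ω, bad (0 : V d) (8 ^ k) κ} := by
      rintro ω ⟨y, hy, hinf⟩
      by_cases hb : ∃ κ ∈ Qs ξ ω, bad (0 : V d) (8 ^ k) κ
      · exact Or.inr hb
      · left
        push Not at hb
        obtain ⟨z, hz, hzB⟩ := hinf.exists_notMem_finset (Bx (0 : V d) (2 * 8 ^ k))
        exact cross_local (Nat.one_le_pow _ _ (by norm_num)) hb ⟨y, z, hy, hzB, hz⟩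
    refine (measure_mono hsub).trans ((measure_union_le _ _).trans ?_)
    refine (add_le_add (hstep k 0) (hbadp k)).trans ?_
    rw [← ENNReal.ofReal_add (by positivity) (by positivity)]
    refine ENNReal.ofReal_le_ofReal ?_
    have h3 : v * H' ≤ 1 / 8 := by
      have : v * H' * 8 ≤ v * H' * (8 * N0) := by
        have := mul_pos hv0 (by linarith : (0 : ℝ) < H')
        nlinarith
      rw [hvH] at this
      linarith
    rw [hq]
    nlinarith
  have hperc : {ω | perc (occ (Qs ξ ω))} = ⋃ k, A k := by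
    ext ω
    simp only [perc, Set.mem_ofPred_eq, Set.mem_iUnion, hA]
    constructor
    · rintro ⟨y, hy⟩
      refine ⟨(Finset.univ.sup fun j => (y j).natAbs), y, ?_, hy⟩
      rw [mem_Bx]
      intro j
      have h1 : (y j).natAbs ≤ Finset.univ.sup fun j => (y j).natAbs :=
        Finset.le_sup (f := fun j => (y j).natAbs) (Finset.mem_univ j)
      have h2 : (Finset.univ.sup fun j => (y j).natAbs)
          < 8 ^ (Finset.univ.sup fun j => (y j).natAbs) := Nat.lt_pow_self (by norm_num)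
      have h3 : ((y j).natAbs : ℤ) = |y j| := Int.natCast_natAbs _
      simp only [Pi.zero_apply, sub_zero]
      rw [← h3]
      exact_mod_cast (h1.trans h2.le)
    · rintro ⟨k, y, _, hy⟩
      exact ⟨y, hy⟩
  rcases zero_one P ξ hm hi with h0 | h1
  · exact h0
  · exfalso
    rw [hperc, hAmono.measure_iUnion] at h1
    have : (1 : ℝ≥0∞) ≤ ENNReal.ofReal (3 / 8) := by
      rw [← h1]
      exact iSup_le hAP
    rw [ENNReal.one_le_ofReal] at this
    norm_num at this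

end Prob

end

end Pool.Agent.H592
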