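import Mathlib
import Pool.Agent.H592W.Energy
import Pool.Agent.H592W.Upper

set_option autoImplicit false
open scoped ENNReal BigOperators

namespace Pool.Agent.H592

noncomputable section

variable {d : ℕ}

/-- the supersolution in the extended reals -/
def UU (a b γ : ℝ) (k : ℕ) (x : V d) : ℝ≥0∞ := ENNReal.ofReal (uu a b γ k x)

/-- the basic inequality -/
def Sup (d : ℕ) (a b γ : ℝ) : Prop := ∀ (k : ℝ), 0 ≤ k → ∀ x : V d,
      ∑ e : Stp d, uu a b γ k (x + stp e) ≤ (Fintype.card (Stp d) : ℝ) * uu a b γ (k + 1) x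

theorem sqZ_neg (x : V d) : sqZ (-x) = sqZ x := by
  unfold sqZ
  simp

theorem UU_neg (a b γ : ℝ) (k : ℕ) (x : V d) : UU a b γ k (-x) = UU a b γ k x := by
  unfold UU uu
  rw [sqZ_neg]

theorem base_pos {a b : ℝ} (ha : 1 ≤ a) (hb : 1 < b) {k : ℝ} (hk : 0 ≤ k) (x : V d) :
    0 < k + a + b * (sqZ x : ℝ) := by
  have hsq : (0 : ℝ) ≤ (sqZ x : ℝ) := by exact_mod_cast sqZ_nonneg x
  have : 0 ≤ b * (sqZ x : ℝ) := by positivity
  linarith

theorem uu_pos {a b γ : ℝ} (ha : 1 ≤ a) (hb : 1 < b) {k : ℝ} (hk : 0 ≤ k) (x : V d) :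
    0 < uu a b γ k x := Real.rpow_pos_of_pos (base_pos ha hb hk x) _

theorem UU_PP [NeZero d] {a b γ : ℝ} (ha : 1 ≤ a) (hb : 1 < b) (hs : Sup d a b γ) (k : ℕ)
    (x : V d) : PP (UU a b γ k) x ≤ UU a b γ (k + 1) x := by
  unfold PP UU
  rw [← ENNReal.ofReal_sum_of_nonneg (fun e _ => (uu_pos ha hb (by positivity) _).le)]
  refine ENNReal.div_le_of_le_mul ?_
  rw [mul_comm, ← ENNReal.ofReal_natCast, ← ENNReal.ofReal_mul (by positivity)]
  refine ENNReal.ofReal_le_ofReal ?_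
  have := hs k (by positivity) x
  push_cast at this ⊢
  exact this

theorem PPn_UU [NeZero d] {a b γ : ℝ} (ha : 1 ≤ a) (hb : 1 < b) (hs : Sup d a b γ) (k : ℕ)
    (x : V d) : PP^[k] (UU a b γ 0) x ≤ UU a b γ k x := by
  induction k generalizing x with
  | zero => exact le_rfl
  | succ k ih =>
    rw [Function.iterate_succ_apply']
    exact (PP_mono ih x).trans (UU_PP ha hb hs k x)

/-- the gap -/
def c0 (a γ : ℝ) : ℝ := a ^ (-γ) - (1 + a) ^ (-γ)

theorem c0_pos {a γ : ℝ} (ha : 1 ≤ a) (hγ : 0 < γ) : 0 < c0 a γ := by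
  unfold c0
  have : (1 + a) ^ (-γ) < a ^ (-γ) :=
    Real.rpow_lt_rpow_of_neg (by linarith) (by linarith) (by linarith)
  linarith

theorem UU_gap [NeZero d] {a b γ : ℝ} (ha : 1 ≤ a) (hb : 1 < b) (hγ : 0 < γ) (hs : Sup d a b γ)
    (x : V d) : ENNReal.ofReal (c0 a γ) * dl x + PP (UU a b γ 0) x ≤ UU a b γ 0 x := by
  have h1 := UU_PP ha hb hs 0 x
  refine (add_le_add le_rfl h1).trans ?_
  by_cases hx : x = 0
  · subst hx
    rw [dl, one?_true rfl, mul_one]
    unfold UU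
    rw [← ENNReal.ofReal_add (c0_pos ha hγ).le (uu_pos ha hb (by positivity) _).le]
    refine ENNReal.ofReal_le_ofReal ?_
    unfold c0 uu
    simp [sqZ]
  · rw [dl, one?_false hx, mul_zero, zero_add]
    unfold UU
    refine ENNReal.ofReal_le_ofReal ?_
    unfold uu
    refine Real.rpow_le_rpow_of_nonpos (base_pos ha hb (by positivity) x) ?_ (by linarith)
    push_cast
    linarith

/-- Green function bound -/
theorem green [NeZero d] {a b γ : ℝ} (ha : 1 ≤ a) (hb : 1 < b) (hγ : 0 < γ) (hs : Sup d a b γ)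
    (L : List (V d)) (n : ℕ) (x : V d) :
    ENNReal.ofReal (c0 a γ) * Av n (S (mu L) x) ≤ LS (fun y => UU a b γ 0 (x - y)) L := by
  have key : ∀ x : V d, ENNReal.ofReal (c0 a γ) * mu L x
      + PP (fun z => LS (fun y => UU a b γ 0 (z - y)) L) x ≤ LS (fun y => UU a b γ 0 (x - y)) L := by
    intro x
    induction L with
    | nil =>
      simp only [LS_nil, mu, mul_zero, zero_add]
      rw [PP_const]
    | cons y L ih =>
      have h1 : mu (y :: L) x = dl (x - y) + mu L x := by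
        unfold mu dl
        rw [LS_cons]
        congr 2
        exact propext (sub_eq_zero.symm)
      simp only [LS_cons]
      rw [h1, PP_add]
      have h2 : PP (fun z => UU a b γ 0 (z - y)) x = PP (UU a b γ 0) (x - y) := by
        have := PP_shift (UU a b γ 0) (-y) x
        rw [show -y + x = x - y by abel] at this
        rw [← this]
        congr 1
        funext z
        rw [show -y + z = z - y by abel]
      rw [h2]
      calc ENNReal.ofReal (c0 a γ) * (dl (x - y) + mu L x)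
            + (PP (UU a b γ 0) (x - y) + PP (fun z => LS (fun y => UU a b γ 0 (z - y)) L) x)
          = (ENNReal.ofReal (c0 a γ) * dl (x - y) + PP (UU a b γ 0) (x - y))
            + (ENNReal.ofReal (c0 a γ) * mu L x
              + PP (fun z => LS (fun y => UU a b γ 0 (z - y)) L) x) := by ring
        _ ≤ _ := add_le_add (UU_gap ha hb hγ hs (x - y)) ih
  induction n generalizing x with
  | zero =>
    rw [Av_zero, S_nil]
    exact le_trans le_self_add (key x)
  | succ n ih =>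
    rw [Av_succ_S, mul_add, ← PP_mul_left]
    refine le_trans ?_ (key x)
    gcongr
    exact PP_mono ih x

/-- total mass of the supersolution at the origin -/
def Th (a γ : ℝ) (n : ℕ) : ℝ := ∑ u ∈ Finset.range (n + 1), ((u : ℝ) + a) ^ (-γ)

theorem Th_pos {a γ : ℝ} (ha : 1 ≤ a) (n : ℕ) : 0 < Th a γ n := by
  unfold Th
  refine Finset.sum_pos (fun u _ => Real.rpow_pos_of_pos (by positivity) _) ⟨0, by simp⟩

theorem Th_mono {a γ : ℝ} (ha : 1 ≤ a) : Monotone (Th a γ) := by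
  intro m n h
  unfold Th
  refine Finset.sum_le_sum_of_subset_of_nonneg (Finset.range_mono (by omega)) ?_
  intro u _ _
  exact Real.rpow_nonneg (by positivity) _

theorem Th_le {a γ : ℝ} (ha : 1 ≤ a) (hγ : 0 < γ) (hγ1 : γ < 1) (n : ℕ) :
    Th a γ n ≤ ((n : ℝ) + 1) ^ (1 - γ) / (1 - γ) := by
  have h1g : 0 < 1 - γ := by linarith
  induction n with
  | zero =>
    unfold Th
    simp only [zero_add, Finset.range_one, Finset.sum_singleton, Nat.cast_zero, Real.one_rpow]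
    have h1 : a ^ (-γ) ≤ 1 := Real.rpow_le_one_of_one_le_of_nonpos ha (by linarith)
    refine h1.trans ?_
    rw [le_div_iff₀ h1g]
    linarith
  | succ n ih =>
    have h2 : Th a γ (n + 1) = Th a γ n + (((n + 1 : ℕ) : ℝ) + a) ^ (-γ) := by
      unfold Th
      rw [Finset.sum_range_succ _ (n + 1)]
    rw [h2]
    set y : ℝ := (n : ℝ) + 2 with hy
    have hy0 : 0 < y := by positivity
    have h3 : (((n + 1 : ℕ) : ℝ) + a) ^ (-γ) ≤ y ^ (-γ) := by
      refine Real.rpow_le_rpow_of_nonpos hy0 ?_ (by linarith)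
      push_cast
      linarith
    have h4 : ((n : ℝ) + 1) ^ (1 - γ) ≤ y ^ (1 - γ) - (1 - γ) * y ^ (-γ) := by
      have h5 := rpow_one_add_le_one_add_mul_self (s := -(1 / y)) (p := 1 - γ) (by
        rw [neg_le_neg_iff, div_le_one hy0]; linarith) h1g.le (by linarith)
      have h6 : 1 + -(1 / y) = ((n : ℝ) + 1) / y := by
        rw [hy]; field_simp; ring
      rw [h6, Real.div_rpow (by positivity) hy0.le] at h5
      have hyp : 0 < y ^ (1 - γ) := Real.rpow_pos_of_pos hy0 _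
      rw [div_le_iff₀ hyp] at h5
      refine h5.trans (le_of_eq ?_)
      have h7 : y ^ (-γ) = y ^ (1 - γ) * (1 / y) := by
        rw [one_div, ← Real.rpow_neg_one y, ← Real.rpow_add hy0]
        congr 1
        ring
      rw [h7]
      ring
    have h8 : (((n + 1 : ℕ) : ℝ) + 1) = y := by push_cast; rw [hy]; ring
    rw [h8]
    calc Th a γ n + (((n + 1 : ℕ) : ℝ) + a) ^ (-γ)
        ≤ ((n : ℝ) + 1) ^ (1 - γ) / (1 - γ) + y ^ (-γ) := add_le_add ih h3
      _ ≤ (y ^ (1 - γ) - (1 - γ) * y ^ (-γ)) / (1 - γ) + y ^ (-γ) := by gcongr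
      _ = _ := by field_simp; ring

theorem UU_zero (a b γ : ℝ) (k : ℕ) : UU a b γ k (0 : V d) = ENNReal.ofReal (((k : ℝ) + a) ^ (-γ)) := by
  unfold UU uu
  simp [sqZ]

/-- bound constant for self-intersections -/
def Bp (a γ : ℝ) : ℝ := a ^ (-γ) / c0 a γ

theorem Bp_pos {a γ : ℝ} (ha : 1 ≤ a) (hγ : 0 < γ) : 0 < Bp a γ := by
  unfold Bp
  have := c0_pos ha hγ
  have : 0 < a ^ (-γ) := Real.rpow_pos_of_pos (by linarith) _
  positivity

theorem sumPP_UU [NeZero d] {a b γ : ℝ} (ha : 1 ≤ a) (hb : 1 < b) (hs : Sup d a b γ) (n : ℕ) :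
    ∑ u ∈ Finset.range (n + 1), PP^[u] (UU a b γ 0) (0 : V d) ≤ ENNReal.ofReal (Th a γ n) := by
  unfold Th
  rw [ENNReal.ofReal_sum_of_nonneg (fun u _ => Real.rpow_nonneg (by positivity) _)]
  refine Finset.sum_le_sum fun u _ => ?_
  rw [← UU_zero (d := d) a b γ u]
  exact PPn_UU ha hb hs u 0

theorem sumPP_dl [NeZero d] {a b γ : ℝ} (ha : 1 ≤ a) (hb : 1 < b) (hγ : 0 < γ) (hs : Sup d a b γ)
    (n : ℕ) : ∑ u ∈ Finset.range (n + 1), PP^[u] dl (0 : V d) ≤ ENNReal.ofReal (Bp a γ) := by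
  have h := green (d := d) ha hb hγ hs [0] n 0
  have hmu : mu [(0 : V d)] = dl := by
    funext z
    simp [mu, dl]
  rw [hmu, Av_S] at h
  have h2 : LS (fun y => UU a b γ 0 ((0 : V d) - y)) [0] = ENNReal.ofReal (a ^ (-γ)) := by
    rw [LS_cons, LS_nil, add_zero, sub_zero, UU_zero]
    simp
  rw [h2] at h
  unfold Bp
  rw [ENNReal.ofReal_div_of_pos (c0_pos ha hγ)]
  rw [ENNReal.le_div_iff_mul_le (Or.inl (by simpa using c0_pos ha hγ)) (Or.inl (by simp))]
  rw [mul_comm]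
  exact h

/-- energy of the walk is of the right order -/
theorem markov_Av {ι : Type*} [Fintype ι] [Nonempty ι] (n : ℕ) (F : List ι → ℝ≥0∞) (t : ℝ≥0∞)
    (ht : t ≠ 0) (ht' : t ≠ ⊤) (h : 4 * Av n F ≤ t) : 4 * Av n (fun l => one? (¬ F l ≤ t)) ≤ 1 := by
  have h1 : t * Av n (fun l => one? (¬ F l ≤ t)) ≤ Av n F := by
    rw [← Av_mul_left]
    refine Av_mono n fun l _ => ?_
    by_cases hl : F l ≤ t
    · rw [one?_false (by simpa using hl), mul_zero]; exact zero_le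
    · rw [one?_true hl, mul_one]
      exact (not_le.mp hl).le
  have h2 : t * (4 * Av n (fun l => one? (¬ F l ≤ t))) ≤ t * 1 := by
    calc t * (4 * Av n (fun l => one? (¬ F l ≤ t)))
        = 4 * (t * Av n (fun l => one? (¬ F l ≤ t))) := by ring
      _ ≤ 4 * Av n F := by gcongr
      _ ≤ t * 1 := by rw [mul_one]; exact h
  exact (ENNReal.mul_le_mul_iff_right ht ht').mp h2

/-- thresholds -/
def t1 (a γ : ℝ) (n : ℕ) : ℝ≥0∞ := ENNReal.ofReal (8 * ((n : ℝ) + 1) * Th a γ n)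
def t2 (a γ : ℝ) (n : ℕ) : ℝ≥0∞ := ENNReal.ofReal (8 * ((n : ℝ) + 1) * Bp a γ)

/-- good list of steps -/
def Gd (d : ℕ) (a b γ : ℝ) (n : ℕ) (l : List (Stp d)) : Prop :=
  En (UU a b γ 0) (pts 0 (l.take n)) ≤ t1 a γ n ∧ En dl (pts 0 (l.take n)) ≤ t2 a γ n

theorem Gd_take (a b γ : ℝ) (n : ℕ) (l : List (Stp d)) : Gd d a b γ n l ↔ Gd d a b γ n (l.take n) := by
  unfold Gd
  rw [List.take_take, min_self]

theorem prob_good [NeZero d] {a b γ : ℝ} (ha : 1 ≤ a) (hb : 1 < b) (hγ : 0 < γ) (hs : Sup d a b γ)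
    (n : ℕ) : 1 ≤ 2 * Av n (fun l => one? (Gd d a b γ n l)) := by
  have hT := Th_pos (γ := γ) ha n
  have hB := Bp_pos ha hγ
  have e1 : 4 * Av n (fun l : List (Stp d) => En (UU a b γ 0) (pts 0 (l.take n))) ≤ t1 a γ n := by
    rw [Av_take n n le_rfl (fun l : List (Stp d) => En (UU a b γ 0) (pts 0 l))]
    have := Av_En (d := d) (UU a b γ 0) (UU_neg a b γ 0) (fun n => ENNReal.ofReal (Th a γ n))
      (sumPP_UU ha hb hs) (fun m n h => ENNReal.ofReal_le_ofReal (Th_mono ha h)) n 0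
    calc _ ≤ 4 * (2 * ((n : ℝ≥0∞) + 1) * ENNReal.ofReal (Th a γ n)) := by gcongr
      _ = t1 a γ n := by
        unfold t1
        rw [ENNReal.ofReal_mul (by positivity), ENNReal.ofReal_mul (by positivity),
          ENNReal.ofReal_add (by positivity) (by positivity)]
        simp
        ring
  have e2 : 4 * Av n (fun l : List (Stp d) => En dl (pts 0 (l.take n))) ≤ t2 a γ n := by
    rw [Av_take n n le_rfl (fun l : List (Stp d) => En dl (pts 0 l))]
    have := Av_En (d := d) dl dl_neg (fun _ => ENNReal.ofReal (Bp a γ))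
      (sumPP_dl ha hb hγ hs) (fun m n h => le_rfl) n 0
    calc _ ≤ 4 * (2 * ((n : ℝ≥0∞) + 1) * ENNReal.ofReal (Bp a γ)) := by gcongr
      _ = t2 a γ n := by
        unfold t2
        rw [ENNReal.ofReal_mul (by positivity), ENNReal.ofReal_mul (by positivity),
          ENNReal.ofReal_add (by positivity) (by positivity)]
        simp
        ring
  have m1 := markov_Av n _ (t1 a γ n) (by
    unfold t1; simp only [ne_eq, ENNReal.ofReal_eq_zero, not_le]; positivity)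
    ENNReal.ofReal_ne_top e1
  have m2 := markov_Av n _ (t2 a γ n) (by
    unfold t2; simp only [ne_eq, ENNReal.ofReal_eq_zero, not_le]; positivity)
    ENNReal.ofReal_ne_top e2
  set g := Av n (fun l => one? (Gd d a b γ n l))
  set p1 := Av n (fun l : List (Stp d) => one? (¬ En (UU a b γ 0) (pts 0 (l.take n)) ≤ t1 a γ n))
  set p2 := Av n (fun l : List (Stp d) => one? (¬ En dl (pts 0 (l.take n)) ≤ t2 a γ n))
  have hsum : 1 ≤ g + (p1 + p2) := by
    rw [← Av_const (ι := Stp d) n 1, ← Av_add, ← Av_add]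
    refine Av_mono n fun l _ => ?_
    by_cases h1 : En (UU a b γ 0) (pts 0 (l.take n)) ≤ t1 a γ n
    · by_cases h2 : En dl (pts 0 (l.take n)) ≤ t2 a γ n
      · rw [one?_true (show Gd d a b γ n l from ⟨h1, h2⟩)]
        exact le_self_add
      · rw [one?_true h2]
        exact le_trans le_add_self le_add_self
    · rw [one?_true h1]
      exact le_trans le_self_add le_add_self
  have h4 : (4 : ℝ≥0∞) ≤ 4 * g + 2 := by
    calc (4 : ℝ≥0∞) = 4 * 1 := by ring
      _ ≤ 4 * (g + (p1 + p2)) := by gcongr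
      _ = 4 * g + (4 * p1 + 4 * p2) := by ring
      _ ≤ 4 * g + (1 + 1) := by gcongr
      _ = _ := by norm_num
  have h5 : (2 : ℝ≥0∞) + 2 ≤ 4 * g + 2 := by
    rw [show (2 : ℝ≥0∞) + 2 = 4 by norm_num]; exact h4
  have h6 : (2 : ℝ≥0∞) ≤ 4 * g := (ENNReal.add_le_add_iff_right (by simp)).mp h5
  have h7 : (2 : ℝ≥0∞) * 1 ≤ 2 * (2 * g) := by
    calc (2 : ℝ≥0∞) * 1 = 2 := mul_one _
      _ ≤ 4 * g := h6
      _ = 2 * (2 * g) := by rw [← mul_assoc]; norm_num
  exact (ENNReal.mul_le_mul_iff_right (by simp) (by simp)).mp h7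

/-- good worms at scale `n0` -/
def GW (a b γ : ℝ) (n0 : ℕ) (k : V d × Finset (V d)) : Prop :=
  (∃ l : List (Stp d), k.2 = tr l ∧ l.length + 1 ≤ 4 * n0) ∧
  ∃ (x' : V d) (l' : List (Stp d)), l'.length = n0 ∧ En (UU a b γ 0) (pts 0 l') ≤ t1 a γ n0 ∧
    En dl (pts 0 l') ≤ t2 a γ n0 ∧ ∀ z ∈ pts x' l', z - k.1 ∈ k.2

theorem En_pos {a b γ : ℝ} (ha : 1 ≤ a) (hb : 1 < b) (L : List (V d)) (hL : L ≠ []) :
    En (UU a b γ 0) L ≠ 0 := by
  cases L with
  | nil => exact absurd rfl hL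
  | cons x L =>
    unfold En
    rw [LS_cons, LS_cons, sub_self, UU_zero]
    intro h
    simp only [add_eq_zero, ENNReal.ofReal_eq_zero] at h
    have := Real.rpow_pos_of_pos (by push_cast; linarith : 0 < ((0 : ℕ) : ℝ) + a) (-γ)
    linarith [h.1.1]

theorem LS_ne_top (f : V d → ℝ≥0∞) (hf : ∀ x, f x ≠ ⊤) (L : List (V d)) : LS f L ≠ ⊤ := by
  induction L with
  | nil => simp
  | cons x L ih => rw [LS_cons]; exact ENNReal.add_ne_top.mpr ⟨hf x, ih⟩

theorem En_ne_top (a b γ : ℝ) (L : List (V d)) : En (UU a b γ 0) L ≠ ⊤ :=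
  LS_ne_top _ (fun _ => LS_ne_top _ (fun _ => ENNReal.ofReal_ne_top) _) _

/-- mean number of good worms meeting `L` -/
def Hh (a b γ : ℝ) (n0 n : ℕ) (L : List (V d)) : ℝ≥0∞ :=
  Av n (fun l => ∑' x, one? (GW a b γ n0 (x, tr l) ∧ ∃ z ∈ L, z - x ∈ tr l))

theorem endp_mem (x : V d) (l1 l2 : List (Stp d)) : endp x l1 ∈ pts x (l1 ++ l2) :=
  pts_append x l1 l2 _ (mem_pts_self _ _)

theorem hit_good [NeZero d] {a b γ : ℝ} (ha : 1 ≤ a) (hb : 1 < b) (hγ : 0 < γ) (hs : Sup d a b γ)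
    (L : List (V d)) (hL : L ≠ []) (n0 n : ℕ) (hn0 : 1 ≤ n0) (hn : 2 * n0 ≤ n)
    (hn' : n + 1 ≤ 4 * n0) :
    ENNReal.ofReal (c0 a γ * ((n0 : ℝ) + 1) * (L.length : ℝ) ^ 2 / (32 * (En (UU a b γ 0) L).toReal))
      ≤ Hh a b γ n0 n L := by
  set G := Gd d a b γ n0 with hG
  set H : ℝ≥0∞ := ∑' x, Av n (fun l => one? (NG (mu L) G n0 x l ≠ 0)) with hH
  -- comparison with Hh
  have hcomp : H ≤ Hh a b γ n0 n L := by
    unfold Hh
    rw [Av_tsum, hH]
    refine ENNReal.tsum_le_tsum fun x => Av_mono n fun l hl => one?_mono fun hne => ?_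
    obtain ⟨l1, l2, hl12, hlen, hm, hg⟩ := NG_ne_zero _ _ _ _ _ hne
    have hlen2 : n0 ≤ l2.length := by
      have : l.length = l1.length + l2.length := by rw [hl12, List.length_append]
      omega
    refine ⟨⟨⟨l, rfl, by omega⟩, endp x l1, l2.take n0, ?_, hg.1, hg.2, ?_⟩, ?_⟩
    · rw [List.length_take]; omega
    · intro z hz
      have h1 := pts_take _ _ _ z hz
      have h2 := pts_append x l1 l2 z h1
      rw [← hl12] at h2
      exact (mem_pts_iff _ _ _).mp h2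
    · refine ⟨endp x l1, mu_ne_zero hm, ?_⟩
      have h2 := endp_mem x l1 l2
      rw [← hl12] at h2
      exact (mem_pts_iff _ _ _).mp h2
  refine le_trans ?_ hcomp
  by_cases hHtop : H = ⊤
  · rw [hHtop]; exact le_top
  -- first and second moment
  have hfirst := NG_first (mu L) G n0 (fun l => Gd_take a b γ n0 l) n0 n (by omega)
  rw [tsum_mu] at hfirst
  have hc0 := c0_pos ha hγ
  have hc0' : ENNReal.ofReal (c0 a γ) ≠ 0 := by simpa using hc0
  have hQ := QS_sum (mu L) (fun x => LS (fun y => UU a b γ 0 (x - y)) L / ENNReal.ofReal (c0 a γ))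
    (fun n x => by
      rw [ENNReal.le_div_iff_mul_le (Or.inl hc0') (Or.inl (by simp)), mul_comm]
      exact green ha hb hγ hs L n x) n
  have hQ2 : ∑' x, mu L x * (LS (fun y => UU a b γ 0 (x - y)) L / ENNReal.ofReal (c0 a γ))
      = En (UU a b γ 0) L / ENNReal.ofReal (c0 a γ) := by
    rw [tsum_mu_mul]
    unfold En
    simp_rw [div_eq_mul_inv, mul_comm _ ((ENNReal.ofReal (c0 a γ))⁻¹)]
    rw [LS_mul_left]
  rw [hQ2] at hQ
  have hg := prob_good ha hb hγ hs n0 (d := d)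
  set g := Av n0 (fun l => one? (Gd d a b γ n0 l)) with hgdef
  have hgtop : g ≠ ⊤ := by
    have : g ≤ 1 := by
      rw [hgdef, ← Av_const (ι := Stp d) n0 1]
      exact Av_mono n0 fun l _ => one?_le_one _
    exact ne_top_of_le_ne_top (by simp) this
  have hlin := lin_bound (mu L) G n0 n
  -- real quantities
  set E := (En (UU a b γ 0) L).toReal with hE
  have hE0 : 0 < E := ENNReal.toReal_pos (En_pos ha hb L hL) (En_ne_top a b γ L)
  set ll : ℝ := (L.length : ℝ) with hll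
  have hl0 : 0 < ll := by
    rw [hll]
    exact_mod_cast List.length_pos_iff.mpr hL
  have hreal : ∀ α : ℝ, 0 ≤ α → 2 * α * (((n0 : ℝ) + 1) * ll * (1 / 2))
      ≤ α ^ 2 * H.toReal + 2 * (((n : ℝ) + 1) * (E / c0 a γ)) := by
    intro α hα
    have h1 := hlin (ENNReal.ofReal α)
    rw [hfirst] at h1
    have h2 : 2 * ENNReal.ofReal α * (((n0 : ℝ≥0∞) + 1) * (L.length : ℝ≥0∞) * g)
        ≤ ENNReal.ofReal α ^ 2 * H + 2 * (((n : ℝ≥0∞) + 1) *
          (En (UU a b γ 0) L / ENNReal.ofReal (c0 a γ))) := by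
      refine h1.trans ?_
      gcongr
    have htop : ENNReal.ofReal α ^ 2 * H + 2 * (((n : ℝ≥0∞) + 1) *
          (En (UU a b γ 0) L / ENNReal.ofReal (c0 a γ))) ≠ ⊤ := by
      refine ENNReal.add_ne_top.mpr ⟨ENNReal.mul_ne_top (by simp) hHtop, ?_⟩
      refine ENNReal.mul_ne_top (by simp) (ENNReal.mul_ne_top (by simp) ?_)
      exact ENNReal.div_ne_top (En_ne_top a b γ L) hc0'
    have h3 := ENNReal.toReal_mono htop h2
    rw [ENNReal.toReal_add (ENNReal.mul_ne_top (by simp) hHtop)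
      (ENNReal.mul_ne_top (by simp) (ENNReal.mul_ne_top (by simp)
        (ENNReal.div_ne_top (En_ne_top a b γ L) hc0')))] at h3
    simp only [ENNReal.toReal_mul, ENNReal.toReal_div, ENNReal.toReal_pow,
      ENNReal.toReal_ofReal hα, ENNReal.toReal_ofReal hc0.le, ENNReal.toReal_ofNat,
      ENNReal.toReal_natCast] at h3
    rw [ENNReal.toReal_add (by simp) (by simp), ENNReal.toReal_add (by simp) (by simp)] at h3
    simp only [ENNReal.toReal_natCast, ENNReal.toReal_one] at h3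
    rw [← hE, ← hll] at h3
    have hg2 : (1 : ℝ) / 2 ≤ g.toReal := by
      have := ENNReal.toReal_mono (ENNReal.mul_ne_top (by simp) hgtop) hg
      rw [ENNReal.toReal_mul] at this
      simp at this
      linarith
    refine le_trans ?_ h3
    gcongr
  have hHr : 0 ≤ H.toReal := ENNReal.toReal_nonneg
  set m1 : ℝ := ((n0 : ℝ) + 1) * ll * (1 / 2) with hm1
  set m2 : ℝ := 2 * (((n : ℝ) + 1) * (E / c0 a γ)) with hm2
  have hm10 : 0 < m1 := by positivity
  have hm20 : 0 < m2 := by positivity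
  have hmain : m1 ^ 2 ≤ m2 * H.toReal := by
    have h1 := hreal (m2 / m1) (by positivity)
    have h2 : 2 * (m2 / m1) * m1 = 2 * m2 := by field_simp
    rw [h2] at h1
    have h3 : m2 ≤ (m2 / m1) ^ 2 * H.toReal := by linarith
    rw [div_pow, div_mul_eq_mul_div, le_div_iff₀ (by positivity)] at h3
    have h4 : m2 * m1 ^ 2 ≤ m2 * (m2 * H.toReal) := by
      calc m2 * m1 ^ 2 ≤ m2 ^ 2 * H.toReal := h3
        _ = _ := by ring
    exact le_of_mul_le_mul_left h4 hm20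
  rw [← ENNReal.ofReal_toReal hHtop]
  refine ENNReal.ofReal_le_ofReal ?_
  rw [div_le_iff₀ (by positivity)]
  have hnn : (n : ℝ) + 1 ≤ 4 * ((n0 : ℝ) + 1) := by
    have : (n : ℝ) + 1 ≤ 4 * (n0 : ℝ) := by exact_mod_cast hn'
    linarith
  have h5 : m2 * H.toReal ≤ 8 * ((n0 : ℝ) + 1) * E / c0 a γ * H.toReal := by
    refine mul_le_mul_of_nonneg_right ?_ hHr
    rw [hm2]
    calc 2 * (((n : ℝ) + 1) * (E / c0 a γ)) ≤ 2 * ((4 * ((n0 : ℝ) + 1)) * (E / c0 a γ)) := by gcongr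
      _ = _ := by ring
  have h6 := hmain.trans h5
  rw [hm1] at h6
  have hn00 : (0 : ℝ) < (n0 : ℝ) + 1 := by positivity
  have h7 : ((n0 : ℝ) + 1) * (c0 a γ * ((n0 : ℝ) + 1) * ll ^ 2)
      ≤ ((n0 : ℝ) + 1) * (H.toReal * (32 * E)) := by
    have h8 : c0 a γ * (((n0 : ℝ) + 1) * ll * (1 / 2)) ^ 2
        ≤ c0 a γ * (8 * ((n0 : ℝ) + 1) * E / c0 a γ * H.toReal) :=
      mul_le_mul_of_nonneg_left h6 hc0.le
    have h9 : c0 a γ * (8 * ((n0 : ℝ) + 1) * E / c0 a γ * H.toReal)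
        = 8 * ((n0 : ℝ) + 1) * E * H.toReal := by field_simp
    rw [h9] at h8
    nlinarith
  exact le_of_mul_le_mul_left h7 hn00

/-- intensity of good worms meeting `L` -/
theorem lam_lower [NeZero d] {a b γ : ℝ} (ha : 1 ≤ a) (hb : 1 < b) (hγ : 0 < γ) (hs : Sup d a b γ)
    (m : ℕ → ℝ) (c β : ℝ) (hc : 0 < c) (hβ : 0 < β)
    (hm : ∀ l : ℕ, 1 ≤ l → c * (l : ℝ) ^ (-β) ≤ m l)
    (L : List (V d)) (hL : L ≠ []) (n0 : ℕ) (hn0 : 1 ≤ n0) :
    ENNReal.ofReal (c * c0 a γ / 16 * (n0 : ℝ) ^ 2 * (4 * (n0 : ℝ)) ^ (-β) *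
      ((L.length : ℝ) ^ 2 / (En (UU a b γ 0) L).toReal))
      ≤ ∑' k : V d × Finset (V d), nu m k.2 * one? (GW a b γ n0 k ∧ ∃ z ∈ L, z - k.1 ∈ k.2) := by
  rw [sum_nu]
  have hc0 := c0_pos ha hγ
  set E := (En (UU a b γ 0) L).toReal with hE
  have hE0 : 0 < E := ENNReal.toReal_pos (En_pos ha hb L hL) (En_ne_top a b γ L)
  have hn00 : (0 : ℝ) < n0 := by exact_mod_cast hn0
  have h1 : ∀ n ∈ Finset.Ico (2 * n0) (4 * n0),
      ENNReal.ofReal (c * (4 * (n0 : ℝ)) ^ (-β) *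
        (c0 a γ * (n0 : ℝ) * (L.length : ℝ) ^ 2 / (32 * E)))
      ≤ ENNReal.ofReal (m (n + 1)) *
        Av n (fun l => ∑' x, one? (GW a b γ n0 (x, tr l) ∧ ∃ z ∈ L, z - x ∈ tr l)) := by
    intro n hn
    rw [Finset.mem_Ico] at hn
    rw [ENNReal.ofReal_mul (by positivity)]
    refine mul_le_mul' ?_ ?_
    · refine ENNReal.ofReal_le_ofReal (le_trans ?_ (hm (n + 1) (by omega)))
      refine mul_le_mul_of_nonneg_left ?_ hc.le
      refine Real.rpow_le_rpow_of_nonpos (by positivity) ?_ (by linarith)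
      have : n + 1 ≤ 4 * n0 := by omega
      exact_mod_cast this
    · refine le_trans (ENNReal.ofReal_le_ofReal ?_) (hit_good ha hb hγ hs L hL n0 n hn0 hn.1 (by omega))
      rw [← hE]
      gcongr
      linarith
  calc _ = ∑ n ∈ Finset.Ico (2 * n0) (4 * n0), ENNReal.ofReal (c * (4 * (n0 : ℝ)) ^ (-β) *
        (c0 a γ * (n0 : ℝ) * (L.length : ℝ) ^ 2 / (32 * E))) := by
        rw [Finset.sum_const, Nat.card_Ico, nsmul_eq_mul, ← ENNReal.ofReal_natCast,
          ← ENNReal.ofReal_mul (by positivity)]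
        congr 1
        rw [show 4 * n0 - 2 * n0 = 2 * n0 by omega]
        push_cast
        field_simp
        ring
    _ ≤ ∑ n ∈ Finset.Ico (2 * n0) (4 * n0), ENNReal.ofReal (m (n + 1)) *
        Av n (fun l => ∑' x, one? (GW a b γ n0 (x, tr l) ∧ ∃ z ∈ L, z - x ∈ tr l)) :=
        Finset.sum_le_sum h1
    _ ≤ _ := ENNReal.sum_le_tsum _

end

end Pool.Agent.H592
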