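import Mathlib
import Pool.Agent.H592W.Good
import Pool.Agent.H592W.Chain

set_option autoImplicit false
open scoped ENNReal BigOperators
open MeasureTheory ProbabilityTheory

namespace Pool.Agent.H592

noncomputable section

variable {d : ℕ}

theorem nb_stp (x : V d) (e : Stp d) : nb x (x + stp e) := by
  obtain ⟨i, b⟩ := e
  unfold nb
  have : ∀ j, |x j - (x + stp (i, b)) j| = if j = i then 1 else 0 := by
    intro j
    rw [Pi.add_apply, stp_apply]
    by_cases h : j = i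
    · rw [if_pos h, if_pos h]
      cases b <;> simp
    · rw [if_neg h, if_neg h]
      simp
  simp_rw [this]
  simp

theorem conn_pts (U : Set (V d)) (x : V d) (l : List (Stp d)) (h : ∀ z ∈ pts x l, z ∈ U) :
    ∀ z ∈ pts x l, conn U x z := by
  induction l generalizing x with
  | nil =>
    intro z hz
    simp only [pts_nil, List.mem_singleton] at hz
    rw [hz]
    exact Relation.ReflTransGen.refl
  | cons e l ih =>
    intro z hz
    rw [pts_cons] at hz
    rcases List.mem_cons.mp hz with h1 | h1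
    · rw [h1]; exact Relation.ReflTransGen.refl
    · have h2 := ih (x + stp e) (fun z hz => h z (List.mem_cons_of_mem _ hz)) z h1
      refine Relation.ReflTransGen.head ⟨h x (by simp), ?_, nb_stp x e⟩ h2
      exact h _ (List.mem_cons_of_mem _ (mem_pts_self _ _))

theorem conn_trans {U : Set (V d)} {a b c : V d} (h1 : conn U a b) (h2 : conn U b c) :
    conn U a c := Relation.ReflTransGen.trans h1 h2

/-- a trace-shaped worm is connected -/
theorem conn_worm {Q : Set (V d × Finset (V d))} {k : V d × Finset (V d)} (hk : k ∈ Q)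
    (l : List (Stp d)) (hl : k.2 = tr l) {z : V d} (hz : z - k.1 ∈ k.2) :
    conn (occ Q) k.1 z := by
  rw [hl] at hz
  rw [← mem_pts_iff] at hz
  refine conn_pts (occ Q) k.1 l (fun w hw => ?_) z hz
  refine ⟨k, hk, ?_⟩
  rw [hl, ← mem_pts_iff]
  exact hw

theorem GW_card_le {a b γ : ℝ} {n : ℕ} {k : V d × Finset (V d)} (h : GW a b γ n k) :
    k.2.card ≤ 4 * n := by
  obtain ⟨⟨l, hl, hlen⟩, _⟩ := h
  rw [hl]
  unfold tr
  refine (List.toFinset_card_le _).trans ?_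
  rw [pts_length]
  exact hlen

theorem GW_card_ge {a b γ : ℝ} (ha : 1 ≤ a) (hγ : 0 < γ) {n : ℕ} {k : V d × Finset (V d)}
    (h : GW a b γ n k) : (n : ℝ) + 1 ≤ 8 * Bp a γ * (k.2.card : ℝ) := by
  obtain ⟨_, x', l', hlen, _, hen, hz⟩ := h
  have h1 := range_lower (pts (0 : V d) l')
  rw [pts_length, hlen] at h1
  have hcard : (pts (0 : V d) l').toFinset.card ≤ k.2.card := by
    have : (pts (0 : V d) l').toFinset.card = (pts x' l').toFinset.card := by
      rw [pts_eq_map x' l']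
      rw [show (List.map (fun x => x' + x) (pts 0 l')).toFinset
        = (pts 0 l').toFinset.image (fun x => x' + x) by
          ext z; simp only [List.mem_toFinset, List.mem_map, Finset.mem_image]]
      rw [Finset.card_image_of_injective _ (add_right_injective x')]
    rw [this]
    refine Finset.card_le_card_of_injOn (fun z => z - k.1) ?_ ?_
    · intro z hzz
      rw [Finset.mem_coe, List.mem_toFinset] at hzz
      exact hz z hzz
    · intro z _ w _ hzw
      simpa using hzw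
  have hB := Bp_pos ha hγ
  have h2 : (((n + 1 : ℕ) : ℝ≥0∞)) ^ 2 ≤ (k.2.card : ℝ≥0∞) * t2 a γ n := by
    refine h1.trans ?_
    gcongr
  unfold t2 at h2
  have h3 := ENNReal.toReal_mono (ENNReal.mul_ne_top (by simp) ENNReal.ofReal_ne_top) h2
  rw [ENNReal.toReal_pow, ENNReal.toReal_natCast, ENNReal.toReal_mul, ENNReal.toReal_natCast,
    ENNReal.toReal_ofReal (by positivity)] at h3
  push_cast at h3
  have hn : (0 : ℝ) < (n : ℝ) + 1 := by positivity
  have h4 : ((n : ℝ) + 1) * ((n : ℝ) + 1) ≤ ((n : ℝ) + 1) * (8 * Bp a γ * (k.2.card : ℝ)) := by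
    nlinarith
  exact le_of_mul_le_mul_left h4 hn

/-- two worms meet -/
def meet (k k' : V d × Finset (V d)) : Prop := ∃ z, z - k.1 ∈ k.2 ∧ z - k'.1 ∈ k'.2

/-- lower bound for the number of larger good worms -/
def lamR (a γ c β : ℝ) (n0 n' : ℝ) : ℝ :=
  c * c0 a γ / 16 * n0 ^ 2 * (4 * n0) ^ (-β) * ((1 - γ) * n' ^ γ / 8)

theorem lam_step [NeZero d] {a b γ : ℝ} (ha : 1 ≤ a) (hb : 1 < b) (hγ : 0 < γ) (hγ1 : γ < 1)
    (hs : Sup d a b γ) (m : ℕ → ℝ) (c β : ℝ) (hc : 0 < c) (hβ : 0 < β)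
    (hm : ∀ l : ℕ, 1 ≤ l → c * (l : ℝ) ^ (-β) ≤ m l)
    (n0 n' : ℕ) (hn0 : 1 ≤ n0) (k : V d × Finset (V d)) (hk : GW a b γ n' k) :
    ENNReal.ofReal (lamR a γ c β n0 n')
      ≤ ∑' k' : V d × Finset (V d), nu m k'.2 * one? (GW a b γ n0 k' ∧ meet k k') := by
  obtain ⟨_, x', l', hlen, hen, _, hz⟩ := hk
  have hLne : pts x' l' ≠ [] := by
    intro h
    have := mem_pts_self x' l'
    rw [h] at this
    simp at this
  have h1 := lam_lower ha hb hγ hs m c β hc hβ hm (pts x' l') hLne n0 hn0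
  have hc0 := c0_pos ha hγ
  refine le_trans ?_ (h1.trans ?_)
  · refine ENNReal.ofReal_le_ofReal ?_
    unfold lamR
    have hn00 : (0 : ℝ) < n0 := by exact_mod_cast hn0
    have hE0 : 0 < (En (UU a b γ 0) (pts x' l')).toReal :=
      ENNReal.toReal_pos (En_pos ha hb _ hLne) (En_ne_top a b γ _)
    refine mul_le_mul_of_nonneg_left ?_ (by positivity)
    rw [le_div_iff₀ hE0, pts_length, hlen]
    have hE : (En (UU a b γ 0) (pts x' l')).toReal ≤ 8 * ((n' : ℝ) + 1) * Th a γ n' := by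
      rw [En_translate]
      have h2 := ENNReal.toReal_mono (by unfold t1; exact ENNReal.ofReal_ne_top) hen
      unfold t1 at h2
      rwa [ENNReal.toReal_ofReal (by have := Th_pos (γ := γ) ha n'; positivity)] at h2
    have hTh := Th_le ha hγ hγ1 n'
    have h1g : 0 < 1 - γ := by linarith
    have hnn : (0 : ℝ) < (n' : ℝ) + 1 := by positivity
    have hpw : ((n' : ℝ) + 1) ^ γ * ((n' : ℝ) + 1) ^ (1 - γ) = (n' : ℝ) + 1 := by
      rw [← Real.rpow_add hnn]; simp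
    have hnγ : (n' : ℝ) ^ γ ≤ ((n' : ℝ) + 1) ^ γ :=
      Real.rpow_le_rpow (by positivity) (by linarith) hγ.le
    calc (1 - γ) * (n' : ℝ) ^ γ / 8 * (En (UU a b γ 0) (pts x' l')).toReal
        ≤ (1 - γ) * ((n' : ℝ) + 1) ^ γ / 8 * (8 * ((n' : ℝ) + 1) *
            (((n' : ℝ) + 1) ^ (1 - γ) / (1 - γ))) := by
          gcongr
          refine hE.trans ?_
          gcongr
      _ = ((n' : ℝ) + 1) * (((n' : ℝ) + 1) ^ γ * ((n' : ℝ) + 1) ^ (1 - γ)) := by
          field_simp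
      _ = (((n' + 1 : ℕ) : ℝ)) ^ 2 := by rw [hpw]; push_cast; ring
  · refine ENNReal.tsum_le_tsum fun k' => ?_
    refine mul_le_mul' le_rfl (one?_mono ?_)
    rintro ⟨hg, z, hzL, hz'⟩
    exact ⟨hg, z, hz z hzL, hz'⟩

theorem nu_le_one [NeZero d] (m : ℕ → ℝ) (hms : ∑' n : ℕ, ENNReal.ofReal (m (n + 1)) ≤ 1)
    (A : Finset (V d)) : nu m A ≤ 1 := by
  refine le_trans ?_ hms
  unfold nu
  refine ENNReal.tsum_le_tsum fun n => ?_
  calc ENNReal.ofReal (m (n + 1)) * Av n (fun l => one? (tr l = A))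
      ≤ ENNReal.ofReal (m (n + 1)) * 1 := by
        gcongr
        rw [← Av_const (ι := Stp d) n 1]
        exact Av_mono n fun l _ => one?_le_one _
    _ = _ := mul_one _

theorem exists_finset [NeZero d] (m : ℕ → ℝ) (hms : ∑' n : ℕ, ENNReal.ofReal (m (n + 1)) ≤ 1)
    (p : V d × Finset (V d) → Prop) (lam : ℝ) (hl : 0 < lam)
    (h : ENNReal.ofReal lam ≤ ∑' k : V d × Finset (V d), nu m k.2 * one? (p k)) :
    ∃ F : Finset (V d × Finset (V d)), (∀ k ∈ F, p k) ∧ lam / 2 ≤ ∑ k ∈ F, (nu m k.2).toReal := by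
  classical
  have h1 : ENNReal.ofReal (lam / 2) < ∑' k : V d × Finset (V d), nu m k.2 * one? (p k) := by
    refine lt_of_lt_of_le ?_ h
    rw [ENNReal.ofReal_lt_ofReal_iff hl]
    linarith
  rw [ENNReal.tsum_eq_iSup_sum, lt_iSup_iff] at h1
  obtain ⟨F, hF⟩ := h1
  refine ⟨F.filter p, fun k hk => (Finset.mem_filter.mp hk).2, ?_⟩
  have h2 : ∑ k ∈ F, nu m k.2 * one? (p k) = ∑ k ∈ F.filter p, nu m k.2 := by
    rw [Finset.sum_filter]
    refine Finset.sum_congr rfl fun k _ => ?_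
    by_cases hp : p k
    · rw [one?_true hp, mul_one, if_pos hp]
    · rw [one?_false hp, mul_zero, if_neg hp]
  rw [h2] at hF
  have hfin : ∀ k ∈ F.filter p, nu m k.2 ≠ ⊤ := fun k _ =>
    ne_top_of_le_ne_top (by simp) (nu_le_one m hms k.2)
  rw [← ENNReal.toReal_sum hfin]
  have h3 : ∑ k ∈ F.filter p, nu m k.2 ≠ ⊤ := ENNReal.sum_ne_top.mpr hfin
  have h4 := ENNReal.toReal_mono h3 hF.le
  rwa [ENNReal.toReal_ofReal (by positivity)] at h4

theorem absent_prob {Ω : Type*} [MeasurableSpace Ω] (P : Measure Ω) [IsProbabilityMeasure P]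
    (ξ : V d × Finset (V d) → Ω → Bool) (hmξ : ∀ k, Measurable (ξ k)) (hi : iIndepFun ξ P)
    (m : ℕ → ℝ) (v : ℝ) (hv : 0 < v)
    (hp : ∀ k, P {ω | ξ k ω = true} = ENNReal.ofReal (1 - Real.exp (-(v * (nu m k.2).toReal))))
    (F : Finset (V d × Finset (V d))) (s : ℝ) (hs : s ≤ ∑ k ∈ F, (nu m k.2).toReal) :
    P {ω | ∀ k ∈ F, ξ k ω ≠ true} ≤ ENNReal.ofReal (Real.exp (-(v * s))) := by
  have h1 : {ω | ∀ k ∈ F, ξ k ω ≠ true} = ⋂ k ∈ F, (ξ k) ⁻¹' {false} := by
    ext ω; simp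
  have h2 := hi.measure_inter_preimage_eq_mul F (sets := fun _ => {false})
    (fun _ _ => MeasurableSet.singleton _)
  rw [h1, h2]
  have h3 : ∀ k ∈ F, P ((ξ k) ⁻¹' {false}) = ENNReal.ofReal (Real.exp (-(v * (nu m k.2).toReal))) := by
    intro k _
    have h4 : (ξ k) ⁻¹' {false} = {ω | ξ k ω = true}ᶜ := by
      ext ω; simp
    have hms : MeasurableSet {ω | ξ k ω = true} := by
      have : {ω | ξ k ω = true} = (ξ k) ⁻¹' {true} := by ext ω; simp
      rw [this]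
      exact hmξ k (MeasurableSet.singleton _)
    rw [h4, prob_compl_eq_one_sub hms, hp k]
    have h5 : Real.exp (-(v * (nu m k.2).toReal)) ≤ 1 := by
      rw [Real.exp_le_one_iff]
      have : 0 ≤ (nu m k.2).toReal := ENNReal.toReal_nonneg
      nlinarith
    rw [← ENNReal.ofReal_one, ← ENNReal.ofReal_sub _ (by linarith)]
    congr 1
    ring
  rw [Finset.prod_congr rfl h3, ← ENNReal.ofReal_prod_of_nonneg (fun k _ => (Real.exp_pos _).le),
    ← Real.exp_sum]
  refine ENNReal.ofReal_le_ofReal (Real.exp_le_exp.mpr ?_)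
  rw [Finset.sum_neg_distrib, ← Finset.mul_sum]
  have := mul_le_mul_of_nonneg_left hs hv.le
  linarith

theorem exp_neg_le (x : ℝ) (hx : 0 < x) : Real.exp (-x) ≤ 1 / x := by
  rw [Real.exp_neg, one_div]
  refine inv_anti₀ hx ?_
  have := Real.add_one_le_exp x
  linarith

/-- percolation for heavy tails -/
theorem lower_main [NeZero d] (γ β c v : ℝ) (hγ : 0 < γ) (hγ1 : γ < 1)
    (hγd : 2 * (γ + 1) < d) (hβ : 0 < β) (hβγ : β < 2 + γ) (hc : 0 < c) (hv : 0 < v)
    (m : ℕ → ℝ) (hms : ∑' n : ℕ, ENNReal.ofReal (m (n + 1)) ≤ 1)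
    (hm : ∀ l : ℕ, 1 ≤ l → c * (l : ℝ) ^ (-β) ≤ m l)
    {Ω : Type*} [MeasurableSpace Ω] (P : Measure Ω) [IsProbabilityMeasure P]
    (ξ : V d × Finset (V d) → Ω → Bool) (hmξ : ∀ k, Measurable (ξ k)) (hi : iIndepFun ξ P)
    (hp : ∀ k, P {ω | ξ k ω = true} = ENNReal.ofReal (1 - Real.exp (-(v * (nu m k.2).toReal)))) :
    P {ω | {z | conn (occ (Qs ξ ω)) 0 z}.Infinite} ≠ 0 := by
  classical
  obtain ⟨a, b, ha, hb, hs⟩ := super (d := d) (Nat.pos_of_ne_zero (NeZero.ne d)) γ hγ hγd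
  have hs' : Sup d a b γ := hs
  have hBp := Bp_pos ha hγ
  have hc0 := c0_pos ha hγ
  have h1g : 0 < 1 - γ := by linarith
  -- the scale ratio
  obtain ⟨M0, hM0⟩ := exists_nat_ge (32 * Bp a γ)
  set M : ℕ := max M0 2 with hM
  have hM2 : 2 ≤ M := le_max_right _ _
  have hMB : 32 * Bp a γ ≤ (M : ℝ) := hM0.trans (by exact_mod_cast le_max_left _ _)
  have hMr : (2 : ℝ) ≤ (M : ℝ) := by exact_mod_cast hM2
  have hMpos : (0 : ℝ) < (M : ℝ) := by linarith
  set δ : ℝ := 2 - β + γ with hδ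
  have hδ0 : 0 < δ := by rw [hδ]; linarith
  set ρ : ℝ := (M : ℝ) ^ δ with hρ
  have hρ1 : 1 < ρ := Real.one_lt_rpow (by linarith) hδ0
  set C4 : ℝ := c * c0 a γ / 16 * ((1 - γ) / 8) * (4 : ℝ) ^ (-β) * (M : ℝ) ^ (2 - β) with hC4
  have hC40 : 0 < C4 := by
    rw [hC4]
    have h1 : (0 : ℝ) < (4 : ℝ) ^ (-β) := Real.rpow_pos_of_pos (by norm_num) _
    have h2 : (0 : ℝ) < (M : ℝ) ^ (2 - β) := Real.rpow_pos_of_pos hMpos _
    positivity
  have hlam : ∀ K : ℕ, lamR a γ c β ((M : ℝ) ^ (K + 1)) ((M : ℝ) ^ K) = C4 * ρ ^ K := by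
    intro K
    unfold lamR
    rw [hC4, hρ, Real.mul_rpow (by norm_num) (by positivity)]
    have e1 : ((M : ℝ) ^ (K + 1)) ^ 2 * ((M : ℝ) ^ (K + 1)) ^ (-β) * ((M : ℝ) ^ K) ^ γ
        = (M : ℝ) ^ (2 - β) * ((M : ℝ) ^ δ) ^ K := by
      rw [← Real.rpow_natCast ((M : ℝ) ^ (K + 1)) 2, ← Real.rpow_natCast (M : ℝ) (K + 1),
        ← Real.rpow_natCast (M : ℝ) K, ← Real.rpow_natCast ((M : ℝ) ^ δ) K,
        ← Real.rpow_mul hMpos.le, ← Real.rpow_mul hMpos.le, ← Real.rpow_mul hMpos.le,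
        ← Real.rpow_mul hMpos.le, ← Real.rpow_add hMpos, ← Real.rpow_add hMpos,
        ← Real.rpow_add hMpos]
      congr 1
      rw [hδ]
      push_cast
      ring
    calc _ = c * c0 a γ / 16 * ((1 - γ) / 8) * (4 : ℝ) ^ (-β) *
          (((M : ℝ) ^ (K + 1)) ^ 2 * ((M : ℝ) ^ (K + 1)) ^ (-β) * ((M : ℝ) ^ K) ^ γ) := by ring
      _ = _ := by rw [e1]; ring
  -- choose k0
  obtain ⟨k0, hk0⟩ : ∃ k0 : ℕ, 2 / (v * C4) * (1 / ρ) ^ k0 * (1 / (1 - 1 / ρ)) ≤ 1 / 2 := by
    have hr : 1 / ρ < 1 := by rw [div_lt_one (by linarith)]; exact hρ1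
    have hr0 : 0 < 1 / ρ := by positivity
    have ht := (tendsto_pow_atTop_nhds_zero_of_lt_one hr0.le hr).const_mul (2 / (v * C4))
    have ht2 := ht.mul_const (1 / (1 - 1 / ρ))
    simp only [mul_zero, zero_mul] at ht2
    have := ht2.eventually (ge_mem_nhds (by norm_num : (0 : ℝ) < 1 / 2))
    obtain ⟨k0, hk0⟩ := this.exists
    exact ⟨k0, hk0⟩
  set nn : ℕ → ℕ := fun k => M ^ (k0 + k) with hnn
  have hnn1 : ∀ k, 1 ≤ nn k := fun k => Nat.one_le_pow _ _ (by omega)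
  have hlamk : ∀ k, 0 < lamR a γ c β (nn (k + 1)) (nn k) := by
    intro k
    have : lamR a γ c β (nn (k + 1)) (nn k) = C4 * ρ ^ (k0 + k) := by
      rw [← hlam (k0 + k)]
      simp only [hnn]
      push_cast
      rw [show k0 + (k + 1) = k0 + k + 1 by ring]
    rw [this]
    positivity
  have hlamk' : ∀ k, lamR a γ c β (nn (k + 1)) (nn k) = C4 * ρ ^ (k0 + k) := by
    intro k
    rw [← hlam (k0 + k)]
    simp only [hnn]
    push_cast
    rw [show k0 + (k + 1) = k0 + k + 1 by ring]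
  -- the choice of finite sets
  have hpick : ∀ k : ℕ, ∀ κ : V d × Finset (V d), GW a b γ (nn k) κ →
      ∃ F : Finset (V d × Finset (V d)), (∀ i ∈ F, GW a b γ (nn (k + 1)) i ∧ meet κ i) ∧
        lamR a γ c β (nn (k + 1)) (nn k) / 2 ≤ ∑ i ∈ F, (nu m i.2).toReal := by
    intro k κ hκ
    exact exists_finset m hms _ _ (hlamk k)
      (lam_step ha hb hγ hγ1 hs' m c β hc hβ hm (nn (k + 1)) (nn k) (hnn1 _) κ hκ)
  set pick : ℕ → V d × Finset (V d) → Finset (V d × Finset (V d)) := fun k κ =>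
    if h : GW a b γ (nn k) κ then (hpick k κ h).choose else ∅ with hpickdef
  have hpick1 : ∀ k κ, ∀ i ∈ pick k κ, GW a b γ (nn (k + 1)) i ∧ meet κ i := by
    intro k κ i hi
    simp only [hpickdef] at hi
    split_ifs at hi with h
    · exact (hpick k κ h).choose_spec.1 i hi
    · simp at hi
  have hpick2 : ∀ k κ, GW a b γ (nn k) κ →
      lamR a γ c β (nn (k + 1)) (nn k) / 2 ≤ ∑ i ∈ pick k κ, (nu m i.2).toReal := by
    intro k κ h
    simp only [hpickdef, dif_pos h]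
    exact (hpick k κ h).choose_spec.2
  -- initial set
  set I0 : V d × Finset (V d) → Prop := fun κ => (0 : V d) - κ.1 ∈ κ.2 with hI0
  obtain ⟨F0, hF0, hF0s⟩ : ∃ F : Finset (V d × Finset (V d)),
      (∀ i ∈ F, GW a b γ (nn 0) i ∧ I0 i) ∧ 0 < ∑ i ∈ F, (nu m i.2).toReal := by
    have h1 := lam_lower ha hb hγ hs' m c β hc hβ hm [(0 : V d)] (by simp) (nn 0) (hnn1 0)
    set lam : ℝ := c * c0 a γ / 16 * (nn 0 : ℝ) ^ 2 * (4 * (nn 0 : ℝ)) ^ (-β) *
      (((([(0 : V d)] : List (V d)).length : ℕ) : ℝ) ^ 2 /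
        (En (UU a b γ 0) [(0 : V d)]).toReal) with hlamdef
    have hE0 : 0 < (En (UU a b γ 0) [(0 : V d)]).toReal :=
      ENNReal.toReal_pos (En_pos ha hb _ (by simp)) (En_ne_top a b γ _)
    have hn00 : (0 : ℝ) < (nn 0 : ℝ) := by exact_mod_cast hnn1 0
    have hl0 : 0 < lam := by
      rw [hlamdef]
      have : (0 : ℝ) < (4 * (nn 0 : ℝ)) ^ (-β) := Real.rpow_pos_of_pos (by positivity) _
      simp only [List.length_cons, List.length_nil, zero_add, Nat.cast_one, one_pow]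
      positivity
    obtain ⟨F, hF1, hF2⟩ := exists_finset m hms _ lam hl0 h1
    refine ⟨F, fun i hi => ?_, by linarith⟩
    obtain ⟨hg, z, hz, hz'⟩ := hF1 i hi
    simp only [List.mem_singleton] at hz
    rw [hz] at hz'
    exact ⟨hg, hz'⟩
  set F : ℕ → Finset (V d × Finset (V d)) := fun k =>
    Nat.rec F0 (fun k F => F.biUnion (pick k)) k with hFdef
  have hFs : ∀ k, F (k + 1) = (F k).biUnion (pick k) := fun k => rfl
  have hFG : ∀ k, ∀ i ∈ F k, GW a b γ (nn k) i := by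
    intro k
    induction k with
    | zero => intro i hi; exact (hF0 i hi).1
    | succ k _ =>
      intro i hi
      rw [hFs, Finset.mem_biUnion] at hi
      obtain ⟨κ, _, hi⟩ := hi
      exact (hpick1 k κ i hi).1
  have hFdisj : ∀ j k, j < k → Disjoint (F j) (F k) := by
    intro j k hjk
    rw [Finset.disjoint_left]
    intro i hij hik
    have h1 := GW_card_le (hFG j i hij)
    have h2 := GW_card_ge ha hγ (hFG k i hik)
    have h3 : M * nn j ≤ nn k := by
      simp only [hnn]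
      rw [← pow_succ']
      exact Nat.pow_le_pow_right (by omega) (by omega)
    have h4 : (M : ℝ) * (nn j : ℝ) ≤ (nn k : ℝ) := by exact_mod_cast h3
    have h5 : (i.2.card : ℝ) ≤ 4 * (nn j : ℝ) := by exact_mod_cast h1
    have h6 : 8 * Bp a γ * (i.2.card : ℝ) ≤ 8 * Bp a γ * (4 * (nn j : ℝ)) := by gcongr
    have h7 : 32 * Bp a γ * (nn j : ℝ) ≤ M * (nn j : ℝ) := by gcongr
    linarith
  set ε : ℕ → ℝ := fun k => Real.exp (-(v * (lamR a γ c β (nn (k + 1)) (nn k) / 2))) with hε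
  have hεs : ∀ n, ∑ k ∈ Finset.range n, ε k ≤ 1 / 2 := by
    intro n
    have hr : 1 / ρ < 1 := by rw [div_lt_one (by linarith)]; exact hρ1
    have hr0 : 0 < 1 / ρ := by positivity
    have h1 : ∀ k, ε k ≤ 2 / (v * C4) * (1 / ρ) ^ k0 * (1 / ρ) ^ k := by
      intro k
      simp only [hε]
      refine (exp_neg_le _ (by have := hlamk k; positivity)).trans (le_of_eq ?_)
      rw [hlamk', one_div_pow, one_div_pow, pow_add]
      have hρ0 : ρ ≠ 0 := by linarith
      field_simp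
    have h2 : ∑ k ∈ Finset.range n, (1 / ρ) ^ k ≤ 1 / (1 - 1 / ρ) := by
      have h3 := geom_sum_eq (ne_of_lt hr) n
      rw [h3]
      have h4 : 0 < 1 - 1 / ρ := by linarith
      rw [← neg_div_neg_eq, neg_sub, neg_sub, div_le_div_iff_of_pos_right h4]
      have : 0 ≤ (1 / ρ) ^ n := by positivity
      linarith
    calc ∑ k ∈ Finset.range n, ε k
        ≤ ∑ k ∈ Finset.range n, 2 / (v * C4) * (1 / ρ) ^ k0 * (1 / ρ) ^ k :=
          Finset.sum_le_sum fun k _ => h1 k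
      _ = 2 / (v * C4) * (1 / ρ) ^ k0 * ∑ k ∈ Finset.range n, (1 / ρ) ^ k := by
          rw [← Finset.mul_sum]
      _ ≤ 2 / (v * C4) * (1 / ρ) ^ k0 * (1 / (1 - 1 / ρ)) := by gcongr
      _ ≤ 1 / 2 := hk0
  have hεp : ∀ k, ∀ j ∈ F k, P {ω | ∀ i ∈ F (k + 1), ¬ (ξ i ω = true ∧ meet j i)}
      ≤ ENNReal.ofReal (ε k) := by
    intro k j hj
    have h1 := absent_prob P ξ hmξ hi m v hv hp (pick k j) _ (hpick2 k j (hFG k j hj))
    refine le_trans (measure_mono ?_) h1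
    intro ω hω i hi hcon
    refine hω i ?_ ⟨hcon, (hpick1 k j i hi).2⟩
    rw [hFs, Finset.mem_biUnion]
    exact ⟨j, hj, hi⟩
  have hR0 : P {ω | Rk F I0 meet (fun i => ξ i ω) 0 ≠ ∅} ≠ 0 := by
    have h1 := absent_prob P ξ hmξ hi m v hv hp F0 _ le_rfl
    intro hcon
    have hsub : Set.univ ⊆ {ω | Rk F I0 meet (fun i => ξ i ω) 0 ≠ ∅} ∪
        {ω | ∀ k ∈ F0, ξ k ω ≠ true} := by
      intro ω _
      by_cases h : ∀ k ∈ F0, ξ k ω ≠ true
      · exact Or.inr h
      · left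
        push Not at h
        obtain ⟨k, hk, hkt⟩ := h
        simp only [Set.mem_ofPred_eq, ne_eq, ← Finset.nonempty_iff_ne_empty]
        refine ⟨k, ?_⟩
        rw [mem_Rk_zero]
        exact ⟨hk, hkt, (hF0 k hk).2⟩
    have h2 : (1 : ℝ≥0∞) ≤ 0 + ENNReal.ofReal (Real.exp (-(v * ∑ k ∈ F0, (nu m k.2).toReal))) := by
      calc (1 : ℝ≥0∞) = P Set.univ := measure_univ.symm
        _ ≤ _ := (measure_mono hsub).trans (measure_union_le _ _)
        _ ≤ _ := by rw [hcon]; gcongr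
    rw [zero_add, ENNReal.one_le_ofReal] at h2
    have h3 : Real.exp (-(v * ∑ k ∈ F0, (nu m k.2).toReal)) < 1 := by
      rw [Real.exp_lt_one_iff]
      have := mul_pos hv hF0s
      linarith
    linarith
  have hmain := chain_survives P ξ hmξ hi F hFdisj I0 meet ε (fun k => (Real.exp_pos _).le) hεs hεp hR0
  intro hcon
  apply hmain
  refine measure_mono_null ?_ hcon
  intro ω hω
  simp only [Set.mem_ofPred_eq] at hω ⊢
  -- every point of a reached worm is connected to the origin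
  have hconn : ∀ k, ∀ κ ∈ Rk F I0 meet (fun i => ξ i ω) k, ∀ z, z - κ.1 ∈ κ.2 →
      conn (occ (Qs ξ ω)) 0 z := by
    intro k
    induction k with
    | zero =>
      intro κ hκ z hz
      rw [mem_Rk_zero] at hκ
      obtain ⟨⟨l, hl, _⟩, _⟩ := hFG 0 κ hκ.1
      have hk : κ ∈ Qs ξ ω := hκ.2.1
      exact conn_trans (conn_symm (conn_worm hk l hl hκ.2.2)) (conn_worm hk l hl hz)
    | succ k ih =>
      intro κ hκ z hz
      rw [mem_Rk_succ] at hκ
      obtain ⟨hF1, hκ1, j, hj, w, hw1, hw2⟩ := hκ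
      obtain ⟨⟨l, hl, _⟩, _⟩ := hFG (k + 1) κ hF1
      have hk : κ ∈ Qs ξ ω := hκ1
      exact conn_trans (ih j hj w hw1) (conn_trans (conn_symm (conn_worm hk l hl hw2))
        (conn_worm hk l hl hz))
  intro hfin
  set N := hfin.toFinset.card with hN
  have hall : ∀ k, (nn k : ℝ) + 1 ≤ 8 * Bp a γ * (N : ℝ) := by
    intro k
    obtain ⟨κ, hκ⟩ := Finset.nonempty_iff_ne_empty.mpr (hω k)
    have h1 := GW_card_ge ha hγ (hFG k κ (Rk_sub F I0 meet _ k hκ))
    have h2 : κ.2.card ≤ N := by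
      rw [hN]
      refine Finset.card_le_card_of_injOn (fun z => z + κ.1) ?_ ?_
      · intro z hz
        rw [Finset.mem_coe, Set.Finite.mem_toFinset]
        exact hconn k κ hκ (z + κ.1) (by simpa using hz)
      · intro z _ w _ hzw
        simpa using hzw
    have h3 : (κ.2.card : ℝ) ≤ (N : ℝ) := by exact_mod_cast h2
    have h4 : 8 * Bp a γ * (κ.2.card : ℝ) ≤ 8 * Bp a γ * (N : ℝ) := by gcongr
    linarith
  obtain ⟨K, hK⟩ := exists_nat_ge (8 * Bp a γ * (N : ℝ))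
  have h1 := hall K
  have h2 : K ≤ nn K := by
    simp only [hnn]
    calc K ≤ k0 + K := by omega
      _ ≤ M ^ (k0 + K) := (Nat.lt_pow_self (by omega)).le
  have h3 : (K : ℝ) ≤ (nn K : ℝ) := by exact_mod_cast h2
  linarith

end

end Pool.Agent.H592
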