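import Mathlib
import Pool.Agent.H592W.Lower

set_option autoImplicit false
open scoped ENNReal BigOperators
open MeasureTheory ProbabilityTheory

namespace Pool.Agent.H592

noncomputable section

variable {d : ℕ}

theorem tr_nil : tr ([] : List (Stp d)) = {0} := by
  simp [tr]

theorem tr_cons (e : Stp d) (l : List (Stp d)) :
    tr (e :: l) = insert 0 ((tr l).image (fun z => stp e + z)) := by
  unfold tr
  rw [pts_cons, List.toFinset_cons, zero_add, pts_eq_map (stp e) l]
  congr 1
  ext z
  simp only [List.mem_toFinset, List.mem_map, Finset.mem_image]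

theorem mem_tr_ofFn (n : ℕ) (s : Fin n → Stp d) (z : V d) :
    z ∈ tr (List.ofFn s) ↔ ∃ t, t < n + 1 ∧
      ∑ i ∈ Finset.univ.filter (fun i : Fin n => (i : ℕ) < t), stp (s i) = z := by
  induction n generalizing z with
  | zero =>
    rw [List.ofFn_zero, tr_nil, Finset.mem_singleton]
    constructor
    · rintro rfl
      exact ⟨0, by omega, by simp⟩
    · rintro ⟨t, _, h⟩
      rw [← h]
      simp
  | succ n ih =>
    rw [List.ofFn_succ, tr_cons, Finset.mem_insert, Finset.mem_image]
    have hsum : ∀ t : ℕ, ∑ i ∈ Finset.univ.filter (fun i : Fin (n + 1) => (i : ℕ) < t + 1), stp (s i)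
        = stp (s 0) + ∑ i ∈ Finset.univ.filter (fun i : Fin n => (i : ℕ) < t), stp (s i.succ) := by
      intro t
      rw [Finset.sum_filter, Finset.sum_filter, Fin.sum_univ_succ]
      simp
    constructor
    · rintro (rfl | ⟨w, hw, rfl⟩)
      · exact ⟨0, by omega, by simp⟩
      · rw [ih] at hw
        obtain ⟨t, ht, rfl⟩ := hw
        exact ⟨t + 1, by omega, hsum t⟩
    · rintro ⟨t, ht, rfl⟩
      cases t with
      | zero => left; simp
      | succ t =>
        right
        refine ⟨_, (ih _ _).mpr ⟨t, by omega, rfl⟩, (hsum t).symm⟩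

theorem image_eq_tr (n : ℕ) (s : Fin n → Stp d) :
    (Finset.range (n + 1)).image (fun t : ℕ =>
      ∑ i ∈ Finset.univ.filter (fun i : Fin n => (i : ℕ) < t), stp (s i)) = tr (List.ofFn s) := by
  ext z
  rw [mem_tr_ofFn, Finset.mem_image]
  simp only [Finset.mem_range]

theorem Av_tr (n : ℕ) (A : Finset (V d)) :
    Av n (fun l : List (Stp d) => one? (tr l = A))
      = ((Finset.univ.filter (fun s : Fin n → Stp d => tr (List.ofFn s) = A)).card : ℝ≥0∞)
        / (Fintype.card (Stp d) : ℝ≥0∞) ^ n := by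
  rw [Av_eq_sum_ofFn]
  congr 1
  rw [Finset.card_filter]
  push_cast
  refine Finset.sum_congr rfl fun s _ => ?_
  unfold one?
  by_cases h : tr (List.ofFn s) = A
  · simp [h]
  · simp [h]

theorem nu_toReal [NeZero d] (m : ℕ → ℝ) (hm0 : ∀ l, 0 ≤ m l) (A : Finset (V d)) :
    (nu m A).toReal = ∑' n : ℕ, m (n + 1) *
      (((Finset.univ.filter (fun s : Fin n → Stp d => tr (List.ofFn s) = A)).card : ℝ)
        / (Fintype.card (Stp d) : ℝ) ^ n) := by
  unfold nu
  have hfin : ∀ n : ℕ, ENNReal.ofReal (m (n + 1)) *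
      Av n (fun l : List (Stp d) => one? (tr l = A)) ≠ ⊤ := by
    intro n
    refine ENNReal.mul_ne_top ENNReal.ofReal_ne_top ?_
    have : Av n (fun l : List (Stp d) => one? (tr l = A)) ≤ 1 := by
      rw [← Av_const (ι := Stp d) n 1]
      exact Av_mono n fun l _ => one?_le_one _
    exact ne_top_of_le_ne_top (by simp) this
  rw [ENNReal.tsum_toReal_eq hfin]
  refine tsum_congr fun n => ?_
  rw [ENNReal.toReal_mul, ENNReal.toReal_ofReal (hm0 _), Av_tr, ENNReal.toReal_div,
    ENNReal.toReal_pow, ENNReal.toReal_natCast, ENNReal.toReal_natCast]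

/-- the random graph in the frozen statement has the same connections -/
theorem reach_iff (Q : Set (V d × Finset (V d))) (p : V d → Prop) (hp : ∀ a, p a ↔ a ∈ occ Q)
    (y z : V d) :
    (SimpleGraph.fromRel (fun a b : V d => p a ∧ p b ∧ ∑ j, |a j - b j| = 1)).Reachable y z
      ↔ conn (occ Q) y z := by
  rw [SimpleGraph.reachable_iff_reflTransGen]
  unfold conn
  have hadj : ∀ a b, (SimpleGraph.fromRel
      (fun a b : V d => p a ∧ p b ∧ ∑ j, |a j - b j| = 1)).Adj a b ↔ st (occ Q) a b := by
    intro a b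
    rw [SimpleGraph.fromRel_adj]
    constructor
    · rintro ⟨_, ⟨h1, h2, h3⟩ | ⟨h1, h2, h3⟩⟩
      · exact ⟨(hp a).mp h1, (hp b).mp h2, h3⟩
      · exact ⟨(hp a).mp h2, (hp b).mp h1, nb_symm h3⟩
    · rintro ⟨h1, h2, h3⟩
      exact ⟨nb_ne h3, Or.inl ⟨(hp a).mpr h1, (hp b).mpr h2, h3⟩⟩
  constructor
  · intro h
    induction h with
    | refl => exact Relation.ReflTransGen.refl
    | tail _ h2 ih => exact Relation.ReflTransGen.tail ih ((hadj _ _).mp h2)
  · intro h
    induction h with
    | refl => exact Relation.ReflTransGen.refl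
    | tail _ h2 ih => exact Relation.ReflTransGen.tail ih ((hadj _ _).mpr h2)

/-- a product space carrying the worm indicators -/
theorem exists_space [NeZero d] (m : ℕ → ℝ) (v : ℝ) (hv : 0 < v) :
    ∃ (Ω : Type) (_ : MeasurableSpace Ω) (P : Measure Ω) (_ : IsProbabilityMeasure P)
      (ξ : V d × Finset (V d) → Ω → Bool), (∀ k, Measurable (ξ k)) ∧ iIndepFun ξ P ∧
      ∀ k, P {ω | ξ k ω = true} = ENNReal.ofReal (1 - Real.exp (-(v * (nu m k.2).toReal))) := by
  have hle : ∀ k : V d × Finset (V d),
      Real.toNNReal (1 - Real.exp (-(v * (nu m k.2).toReal))) ≤ 1 := by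
    intro k
    rw [Real.toNNReal_le_one]
    have := Real.exp_pos (-(v * (nu m k.2).toReal))
    linarith
  set μ : V d × Finset (V d) → Measure Bool := fun k => (PMF.bernoulli _ (hle k)).toMeasure with hμ
  refine ⟨V d × Finset (V d) → Bool, inferInstance, Measure.infinitePi μ, inferInstance,
    fun k ω => ω k, fun k => measurable_pi_apply k, ?_, fun k => ?_⟩
  · exact iIndepFun_infinitePi (P := μ) (X := fun k x => x) (fun k => measurable_id)
  · have h1 : {ω : V d × Finset (V d) → Bool | ω k = true} = (fun ω => ω k) ⁻¹' {true} := by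
      ext ω; simp
    rw [h1, ← Measure.map_apply (measurable_pi_apply k) (MeasurableSet.singleton _),
      Measure.infinitePi_map_eval]
    simp only [hμ]
    rw [PMF.toMeasure_apply_singleton _ _ (MeasurableSet.singleton _)]
    simp [PMF.bernoulli_apply, ENNReal.ofReal]

end

end Pool.Agent.H592
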