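import Mathlib
import Pool.Agent.H592W.Bad

set_option autoImplicit false
open scoped ENNReal BigOperators

namespace Pool.Agent.H592

noncomputable section

variable {d : ℕ}

/-! Return estimate for boxes by a collision argument, and the two-dimensional hitting bound
with its logarithmic gain. -/

/-- cell label -/
def key (R : ℕ) (x : V d) : V d := fun j => x j / ((R : ℤ) + 1)

theorem key_close (R : ℕ) (x y : V d) (h : key R (-y) = key R x) : x + y ∈ Bx (0 : V d) R := by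
  rw [mem_Bx]
  intro j
  have hj : (-y) j / ((R : ℤ) + 1) = x j / ((R : ℤ) + 1) := congrFun h j
  have hpos : (0 : ℤ) < (R : ℤ) + 1 := by positivity
  have h1 := Int.mul_ediv_add_emod (x j) ((R : ℤ) + 1)
  have h2 := Int.mul_ediv_add_emod ((-y) j) ((R : ℤ) + 1)
  have h3 := Int.emod_nonneg (x j) hpos.ne'
  have h4 := Int.emod_lt_of_pos (x j) hpos
  have h5 := Int.emod_nonneg ((-y) j) hpos.ne'
  have h6 := Int.emod_lt_of_pos ((-y) j) hpos
  rw [hj] at h2
  simp only [Pi.zero_apply, sub_zero, Pi.add_apply]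
  have h7 : (-y) j = - y j := rfl
  rw [h7] at h2 h5 h6
  rw [abs_le]
  constructor <;> linarith

theorem key_mem (R ρ : ℕ) (x : V d) (h : x ∈ Bx (0 : V d) ρ) :
    key R x ∈ Bx (0 : V d) (ρ / (R + 1) + 1) := by
  rw [mem_Bx] at *
  intro j
  have hj := h j
  simp only [Pi.zero_apply, sub_zero] at hj ⊢
  have hpos : (0 : ℤ) < (R : ℤ) + 1 := by positivity
  have h1 := Int.mul_ediv_add_emod (x j) ((R : ℤ) + 1)
  have h3 := Int.emod_nonneg (x j) hpos.ne'
  have h4 := Int.emod_lt_of_pos (x j) hpos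
  have h5 : ρ < (R + 1) * (ρ / (R + 1) + 1) := by
    have := Nat.lt_mul_div_succ ρ (by omega : 0 < R + 1)
    simpa using this
  have h6 : (ρ : ℤ) < ((R : ℤ) + 1) * (((ρ / (R + 1) : ℕ) : ℤ) + 1) := by exact_mod_cast h5
  have hk : key R x j = x j / ((R : ℤ) + 1) := rfl
  rw [hk]
  set q := x j / ((R : ℤ) + 1)
  set e : ℤ := ((ρ / (R + 1) : ℕ) : ℤ) with he
  rw [abs_le] at hj ⊢
  push_cast
  push_cast at he
  rw [← he]
  constructor
  · by_contra hcon
    push Not at hcon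
    have : ((R : ℤ) + 1) * (q + 1) ≤ ((R : ℤ) + 1) * (-(e + 1)) :=
      mul_le_mul_of_nonneg_left (by linarith) hpos.le
    nlinarith
  · by_contra hcon
    push Not at hcon
    have : ((R : ℤ) + 1) * (e + 1) ≤ ((R : ℤ) + 1) * q :=
      mul_le_mul_of_nonneg_left (by linarith) hpos.le
    nlinarith

/-- indicator of a cell -/
def cell (R : ℕ) (k : V d) (x : V d) : ℝ≥0∞ := if key R x = k then 1 else 0

theorem cell_split (R : ℕ) (K : Finset (V d)) (x y : V d) :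
    ∑ k ∈ K, cell R k x * cell R k (-y) ≤ ind (Bx (0 : V d) R) (x + y) := by
  have h1 : ∑ k ∈ K, cell R k x * cell R k (-y)
      = ∑ k ∈ K, if key R x = k then cell R k (-y) else 0 := by
    refine Finset.sum_congr rfl fun k _ => ?_
    unfold cell
    split_ifs <;> simp
  rw [h1, Finset.sum_ite_eq]
  by_cases h : key R (-y) = key R x
  · have : x + y ∈ Bx (0 : V d) R := key_close R x y h
    unfold ind
    rw [if_pos this]
    unfold cell
    split_ifs <;> simp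
  · unfold cell
    rw [if_neg h]
    simp

theorem cell_cover (R ρ : ℕ) (x : V d) :
    ind (Bx (0 : V d) ρ) x ≤ ∑ k ∈ Bx (0 : V d) (ρ / (R + 1) + 1), cell R k x := by
  by_cases h : x ∈ Bx (0 : V d) ρ
  · unfold ind cell
    rw [if_pos h, Finset.sum_ite_eq, if_pos (key_mem R ρ x h)]
  · unfold ind
    rw [if_neg h]
    exact zero_le

theorem PPn_sum [NeZero d] {κ : Type} (n : ℕ) (K : Finset κ) (f : κ → V d → ℝ≥0∞) (x : V d) :
    PP^[n] (fun y => ∑ k ∈ K, f k y) x = ∑ k ∈ K, PP^[n] (f k) x := by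
  classical
  induction K using Finset.induction_on with
  | empty =>
    simp only [Finset.sum_empty]
    exact PPn_const n 0 x
  | insert a s ha ih =>
    simp_rw [Finset.sum_insert ha]
    rw [PPn_add, ih]

theorem collision [NeZero d] (R u : ℕ) (K : Finset (V d)) :
    ∑ k ∈ K, PP^[u] (cell R k) (0 : V d) * PP^[u] (cell R k) (0 : V d)
      ≤ PP^[u + u] (ind (Bx (0 : V d) R)) 0 := by
  rw [Function.iterate_add_apply]
  have h1 : ∀ x : V d, ∑ k ∈ K, PP^[u] (cell R k) (0 : V d) * cell R k x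
      ≤ PP^[u] (ind (Bx (0 : V d) R)) x := by
    intro x
    have h2 : PP^[u] (ind (Bx (0 : V d) R)) x
        = PP^[u] (fun y => ind (Bx (0 : V d) R) (x + y)) 0 := by
      rw [PPn_shift, add_zero]
    rw [h2]
    refine le_trans (le_of_eq ?_) (PPn_mono u (fun y => cell_split R K x y) 0)
    rw [PPn_sum]
    refine Finset.sum_congr rfl fun k _ => ?_
    rw [PPn_mul_left u (cell R k x) (fun y => cell R k (-y)) 0, PPn_neg, neg_zero, mul_comm]
  refine le_trans (le_of_eq ?_) (PPn_mono u h1 0)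
  rw [PPn_sum]
  refine Finset.sum_congr rfl fun k _ => ?_
  rw [PPn_mul_left u _ (cell R k) 0]

theorem return_lower [NeZero d] (R u ρ : ℕ) (hρ : 1 ≤ ρ) (hu : 2 * u ≤ ρ ^ 2) :
    (1 / 4 : ℝ) ≤ ((2 * (ρ / (R + 1) + 1) + 1 : ℕ) : ℝ) ^ d *
      (PP^[u + u] (ind (Bx (0 : V d) R)) 0).toReal := by
  set K := Bx (0 : V d) (ρ / (R + 1) + 1) with hK
  set p : V d → ℝ≥0∞ := fun k => PP^[u] (cell R k) (0 : V d) with hp
  have hple : ∀ k, p k ≤ 1 := by
    intro k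
    rw [hp]
    dsimp only
    rw [← PPn_const u 1 (0 : V d)]
    exact PPn_mono u (fun y => by unfold cell; split_ifs <;> simp) 0
  have hpfin : ∀ k, p k ≠ ⊤ := fun k => ne_top_of_le_ne_top (by simp) (hple k)
  have h1 : (1 / 2 : ℝ≥0∞) ≤ ∑ k ∈ K, p k := by
    refine (occ_half (d := d) ρ u hρ hu).trans ?_
    rw [hp, ← PPn_sum]
    exact PPn_mono u (fun y => cell_cover R ρ y) 0
  have h1' : (1 / 2 : ℝ) ≤ ∑ k ∈ K, (p k).toReal := by
    rw [← ENNReal.toReal_sum (fun k _ => hpfin k)]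
    have := ENNReal.toReal_mono (ENNReal.sum_ne_top.mpr fun k _ => hpfin k) h1
    simpa using this
  have h2 : ∑ k ∈ K, (p k).toReal ^ 2 ≤ (PP^[u + u] (ind (Bx (0 : V d) R)) 0).toReal := by
    have h3 := collision (d := d) R u K
    have hfin : PP^[u + u] (ind (Bx (0 : V d) R)) 0 ≠ ⊤ := by
      refine ne_top_of_le_ne_top ENNReal.one_ne_top ?_
      rw [← PPn_const (u + u) 1 (0 : V d)]
      exact PPn_mono _ (fun y => by unfold ind; split_ifs <;> simp) 0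
    have h4 := ENNReal.toReal_mono hfin h3
    rw [ENNReal.toReal_sum (fun k _ => ENNReal.mul_ne_top (hpfin k) (hpfin k))] at h4
    refine le_trans (le_of_eq ?_) h4
    refine Finset.sum_congr rfl fun k _ => ?_
    rw [ENNReal.toReal_mul, pow_two]
  have h5 : (∑ k ∈ K, (p k).toReal) ^ 2 ≤ (K.card : ℝ) * ∑ k ∈ K, (p k).toReal ^ 2 :=
    sq_sum_le_card_mul_sum_sq
  have h6 : (K.card : ℝ) = ((2 * (ρ / (R + 1) + 1) + 1 : ℕ) : ℝ) ^ d := by
    rw [hK, card_Bx]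
    push_cast
    ring
  rw [h6] at h5
  have h7 : (0 : ℝ) ≤ ((2 * (ρ / (R + 1) + 1) + 1 : ℕ) : ℝ) ^ d := by positivity
  calc (1 / 4 : ℝ) = (1 / 2) ^ 2 := by norm_num
    _ ≤ (∑ k ∈ K, (p k).toReal) ^ 2 := by gcongr
    _ ≤ _ := h5
    _ ≤ _ := mul_le_mul_of_nonneg_left h2 h7

theorem return_lower2 (R u : ℕ) (hR : 1 ≤ R) (hu : R ^ 2 ≤ u) :
    (R : ℝ) ^ 2 / (600 * u) ≤ (PP^[2 * u] (ind (Bx (0 : V 2) R)) 0).toReal := by
  set ρ := Nat.sqrt (2 * u) + 1 with hρ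
  have hρ1 : 2 * u ≤ ρ ^ 2 := by
    have := Nat.lt_succ_sqrt (2 * u)
    rw [hρ, pow_two]
    exact this.le
  have hρ2 : ρ ^ 2 ≤ 6 * u := by
    have h1 := Nat.sqrt_le (2 * u)
    have h2 : 1 ≤ u := le_trans (Nat.one_le_pow _ _ hR) hu
    rw [hρ]
    nlinarith [Nat.sqrt_le (2 * u), sq_nonneg ((Nat.sqrt (2 * u) : ℤ) - 1)]
  have hρR : R ≤ ρ := by
    have : R ^ 2 ≤ ρ ^ 2 := by nlinarith
    exact (Nat.pow_le_pow_iff_left (by norm_num)).mp this
  have h := return_lower (d := 2) R u ρ (by omega) hρ1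
  rw [show u + u = 2 * u by ring] at h
  set P := (PP^[2 * u] (ind (Bx (0 : V 2) R)) 0).toReal with hP
  have hP0 : 0 ≤ P := ENNReal.toReal_nonneg
  have h3 : (2 * (ρ / (R + 1) + 1) + 1) * R ≤ 5 * ρ := by
    have h4 : (ρ / (R + 1)) * R ≤ ρ := by
      calc (ρ / (R + 1)) * R ≤ (ρ / (R + 1)) * (R + 1) := by gcongr; omega
        _ ≤ ρ := Nat.div_mul_le_self _ _
    nlinarith
  have h3' : ((2 * (ρ / (R + 1) + 1) + 1 : ℕ) : ℝ) * R ≤ 5 * ρ := by exact_mod_cast h3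
  have h5 : (((2 * (ρ / (R + 1) + 1) + 1 : ℕ) : ℝ) * R) ^ 2 ≤ (5 * ρ) ^ 2 := by gcongr
  have h6 : (ρ : ℝ) ^ 2 ≤ 6 * u := by exact_mod_cast hρ2
  have hu0 : (0 : ℝ) < u := by
    have : 1 ≤ u := le_trans (Nat.one_le_pow _ _ hR) hu
    exact_mod_cast this
  rw [div_le_iff₀ (by positivity)]
  calc (R : ℝ) ^ 2 = 4 * ((R : ℝ) ^ 2 * (1 / 4)) := by ring
    _ ≤ 4 * ((R : ℝ) ^ 2 * (((2 * (ρ / (R + 1) + 1) + 1 : ℕ) : ℝ) ^ 2 * P)) := by gcongr
    _ = 4 * ((((2 * (ρ / (R + 1) + 1) + 1 : ℕ) : ℝ) * R) ^ 2 * P) := by ring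
    _ ≤ 4 * ((5 * ρ) ^ 2 * P) := by gcongr
    _ = 100 * (ρ : ℝ) ^ 2 * P := by ring
    _ ≤ 100 * (6 * u) * P := by gcongr
    _ = P * (600 * u) := by ring

theorem log_sum (a b : ℕ) (ha : 1 ≤ a) (hab : a ≤ b) :
    Real.log b - Real.log a ≤ ∑ u ∈ Finset.Ico a b, 1 / (u : ℝ) := by
  induction b, hab using Nat.le_induction with
  | base => simp
  | succ b hb ih =>
    rw [Finset.sum_Ico_succ_top hb]
    have hb0 : (0 : ℝ) < b := by exact_mod_cast (by omega : 0 < b)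
    have h1 : Real.log ((b + 1 : ℕ) : ℝ) - Real.log b ≤ 1 / b := by
      rw [← Real.log_div (by positivity) hb0.ne']
      have h2 := Real.log_le_sub_one_of_pos (x := ((b + 1 : ℕ) : ℝ) / b) (by positivity)
      refine h2.trans (le_of_eq ?_)
      push_cast
      field_simp
      ring
    linarith

theorem occ_log (R T : ℕ) (hR : 1 ≤ R) (hT : 2 * R ^ 2 < T) :
    ENNReal.ofReal ((R : ℝ) ^ 2 / 600 * Real.log (T / (2 * (R : ℝ) ^ 2)))
      ≤ ∑ u ∈ Finset.range (T + 1), PP^[u] (ind (Bx (0 : V 2) R)) 0 := by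
  have hsub : (Finset.Ico (R ^ 2) (T / 2 + 1)).image (fun u => 2 * u) ⊆ Finset.range (T + 1) := by
    intro v hv
    rw [Finset.mem_image] at hv
    obtain ⟨u, hu, rfl⟩ := hv
    rw [Finset.mem_Ico] at hu
    rw [Finset.mem_range]
    omega
  refine le_trans ?_ (Finset.sum_le_sum_of_subset hsub)
  rw [Finset.sum_image (by intro a _ b _ h; simpa using h)]
  have hfin : ∀ u : ℕ, PP^[2 * u] (ind (Bx (0 : V 2) R)) 0 ≠ ⊤ := by
    intro u
    refine ne_top_of_le_ne_top ENNReal.one_ne_top ?_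
    rw [← PPn_const (2 * u) 1 (0 : V 2)]
    exact PPn_mono _ (fun y => by unfold ind; split_ifs <;> simp) 0
  have h1 : ∀ u ∈ Finset.Ico (R ^ 2) (T / 2 + 1), ENNReal.ofReal ((R : ℝ) ^ 2 / 600 * (1 / (u : ℝ)))
      ≤ PP^[2 * u] (ind (Bx (0 : V 2) R)) 0 := by
    intro u hu
    rw [Finset.mem_Ico] at hu
    have := return_lower2 R u hR hu.1
    rw [← ENNReal.ofReal_toReal (hfin u)]
    refine ENNReal.ofReal_le_ofReal (le_trans (le_of_eq ?_) this)
    have hu0 : (0 : ℝ) < u := by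
      have : 1 ≤ u := le_trans (Nat.one_le_pow _ _ hR) hu.1
      exact_mod_cast this
    field_simp
  refine le_trans ?_ (Finset.sum_le_sum h1)
  rw [← ENNReal.ofReal_sum_of_nonneg (fun u _ => by positivity), ← Finset.mul_sum]
  refine ENNReal.ofReal_le_ofReal ?_
  refine mul_le_mul_of_nonneg_left ?_ (by positivity)
  have hle : R ^ 2 ≤ T / 2 + 1 := by omega
  have h2 := log_sum (R ^ 2) (T / 2 + 1) (Nat.one_le_pow _ _ hR) hle
  refine le_trans ?_ h2
  have hR0 : (0 : ℝ) < R := by exact_mod_cast hR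
  have hT0 : (0 : ℝ) < T := by exact_mod_cast (by omega : 0 < T)
  rw [← Real.log_div (by positivity) (by positivity)]
  refine Real.log_le_log (by positivity) ?_
  have h3 : (T : ℝ) ≤ 2 * ((T / 2 + 1 : ℕ) : ℝ) := by exact_mod_cast (by omega : T ≤ 2 * (T / 2 + 1))
  rw [div_le_div_iff₀ (by positivity) (by positivity)]
  push_cast at h3 ⊢
  have h4 : (0 : ℝ) < (R : ℝ) ^ 2 := by positivity
  nlinarith

/-- the two-dimensional hitting number with its logarithm -/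
theorem hit_log (c : V 2) (R n : ℕ) (hR : 1 ≤ R) (hn : 2 * R ^ 2 < n) :
    ENNReal.ofReal ((R : ℝ) ^ 2 / 600 * Real.log (n / (2 * (R : ℝ) ^ 2)))
      * ∑' x, Av n (hitI (Bx c R) x) ≤ ((n + n : ℕ) + 1 : ℝ≥0∞) * ((4 * R + 1 : ℕ) : ℝ≥0∞) ^ 2 := by
  have h := hit_total (Bx c R) (ind (Bx c (2 * R))) n n
    (ENNReal.ofReal ((R : ℝ) ^ 2 / 600 * Real.log (n / (2 * (R : ℝ) ^ 2))))
    (fun y hy => (occ_log R n hR hn).trans (occ_shift c y R n hy))
  rw [tsum_ind, card_Bx] at h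
  refine h.trans (le_of_eq ?_)
  congr 1
  push_cast
  ring

theorem aa_log (c : V 2) (r n : ℕ) (hr : 1 ≤ r) (hn : 1152 * r ^ 2 < n) (hfin : aa c r n ≠ ⊤) :
    Real.log (n / (1152 * (r : ℝ) ^ 2)) * (aa c r n).toReal ≤ 30000 * n := by
  have hR : 1 ≤ 24 * r := by omega
  have hn' : 2 * (24 * r) ^ 2 < n := by nlinarith
  have h := hit_log c (24 * r) n hR hn'
  have hr0 : (0 : ℝ) < r := by exact_mod_cast hr
  have hn0 : (0 : ℝ) < n := by exact_mod_cast (by omega : 0 < n)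
  have hn1 : (1 : ℝ) ≤ n := by exact_mod_cast (by omega : 1 ≤ n)
  have hnr : 1152 * (r : ℝ) ^ 2 ≤ n := by exact_mod_cast hn.le
  have hlog : 0 ≤ Real.log (n / (1152 * (r : ℝ) ^ 2)) := by
    refine Real.log_nonneg ?_
    rw [le_div_iff₀ (by positivity)]
    linarith
  have e1 : (((24 * r : ℕ) : ℝ)) ^ 2 / 600 * Real.log (n / (2 * ((24 * r : ℕ) : ℝ) ^ 2))
      = (576 / 600 * (r : ℝ) ^ 2) * Real.log (n / (1152 * (r : ℝ) ^ 2)) := by
    push_cast
    have : (2 : ℝ) * (24 * (r : ℝ)) ^ 2 = 1152 * (r : ℝ) ^ 2 := by ring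
    rw [this]
    ring
  rw [e1] at h
  have h2 := (mul_le_mul' le_rfl (aa_le_hit c r n)).trans h
  have h3 := ENNReal.toReal_mono (by
    refine ENNReal.mul_ne_top ?_ ?_
    · exact ENNReal.add_ne_top.mpr ⟨ENNReal.natCast_ne_top _, by simp⟩
    · exact ENNReal.pow_ne_top (ENNReal.natCast_ne_top _)) h2
  rw [ENNReal.toReal_mul, ENNReal.toReal_ofReal (by positivity), ENNReal.toReal_mul,
    ENNReal.toReal_pow, ENNReal.toReal_natCast,
    ENNReal.toReal_add (ENNReal.natCast_ne_top _) (by simp), ENNReal.toReal_natCast,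
    ENNReal.toReal_one] at h3
  push_cast at h3
  set L := Real.log (n / (1152 * (r : ℝ) ^ 2))
  set A := (aa c r n).toReal with hA
  have hA0 : 0 ≤ A := ENNReal.toReal_nonneg
  have h4 : ((4 : ℝ) * (24 * r) + 1) ^ 2 ≤ (97 * r) ^ 2 := by
    have : (1 : ℝ) ≤ r := by exact_mod_cast hr
    gcongr
    linarith
  have h5 : (576 / 600 * (r : ℝ) ^ 2) * (L * A) ≤ (576 / 600 * (r : ℝ) ^ 2) * (30000 * n) := by
    calc (576 / 600 * (r : ℝ) ^ 2) * (L * A) = 576 / 600 * (r : ℝ) ^ 2 * L * A := by ring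
      _ ≤ ((n : ℝ) + n + 1) * (4 * (24 * (r : ℝ)) + 1) ^ 2 := h3
      _ ≤ (3 * (n : ℝ)) * (97 * (r : ℝ)) ^ 2 := by
          gcongr
          linarith
      _ = 28227 * (n : ℝ) * (r : ℝ) ^ 2 := by ring
      _ ≤ _ := by
          have : (0 : ℝ) ≤ (n : ℝ) * (r : ℝ) ^ 2 := by positivity
          nlinarith
  exact le_of_mul_le_mul_left h5 (by positivity)

end

end Pool.Agent.H592
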