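import Mathlib
import Pool.Agent.H592W.Geom

set_option autoImplicit false
open scoped ENNReal BigOperators

namespace Pool.Agent.H592

noncomputable section

variable {d : ℕ}

theorem konig_step (W : Set (V d)) (a : V d) (h : {z | conn W a z}.Infinite) :
    ∃ b, nb a b ∧ b ∈ W \ {a} ∧ {z | conn (W \ {a}) b z}.Infinite := by
  by_contra hno
  push Not at hno
  have hN : {b : V d | nb a b ∧ b ∈ W \ {a}}.Finite := by
    refine ((Bx a 1).finite_toSet).subset ?_
    rintro b ⟨hb, _⟩
    rw [Finset.mem_coe, mem_Bx]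
    intro j
    rw [abs_sub_comm]
    exact_mod_cast nb_coord hb j
  have hcover : {z | conn W a z} ⊆ {a} ∪
      ⋃ b ∈ {b : V d | nb a b ∧ b ∈ W \ {a}}, {z | conn (W \ {a}) b z} := by
    intro z hz
    simp only [Set.mem_ofPred_eq] at hz
    unfold conn at hz
    induction hz with
    | refl => exact Or.inl rfl
    | tail _ hbc ih =>
      rename_i y z _
      by_cases hza : z = a
      · exact Or.inl hza
      · right
        rw [Set.mem_iUnion₂]
        by_cases hya : y = a
        · subst hya
          exact ⟨z, ⟨hbc.2.2, hbc.2.1, hza⟩, Relation.ReflTransGen.refl⟩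
        · rcases ih with h1 | h1
          · exact absurd h1 hya
          · rw [Set.mem_iUnion₂] at h1
            obtain ⟨b, hb, hc⟩ := h1
            exact ⟨b, hb, Relation.ReflTransGen.tail hc ⟨⟨hbc.1, hya⟩, ⟨hbc.2.1, hza⟩, hbc.2.2⟩⟩
  refine h (Set.Finite.subset ?_ hcover)
  exact (Set.finite_singleton a).union (hN.biUnion fun b hb => hno b hb.1 hb.2)

/-- an infinite cluster contains an infinite self-avoiding path -/
theorem konig (U : Set (V d)) (y : V d) (h : {z | conn U y z}.Infinite) :
    ∃ p : ℕ → V d, Function.Injective p ∧ ∀ n, p n ∈ U ∧ nb (p n) (p (n + 1)) := by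
  classical
  set St := {s : Set (V d) × V d // {z | conn s.1 s.2 z}.Infinite} with hSt
  have hnext : ∀ s : St, ∃ t : St, nb s.1.2 t.1.2 ∧ t.1.2 ∈ t.1.1 ∧ t.1.1 = s.1.1 \ {s.1.2} := by
    rintro ⟨⟨W, a⟩, hs⟩
    obtain ⟨b, hb1, hb2, hb3⟩ := konig_step W a hs
    exact ⟨⟨(W \ {a}, b), hb3⟩, hb1, hb2, rfl⟩
  choose next hn1 hn2 hn3 using hnext
  set q : ℕ → St := fun n => Nat.rec ⟨(U, y), h⟩ (fun _ s => next s) n with hq
  have hqs : ∀ n, q (n + 1) = next (q n) := fun n => rfl
  have hW : ∀ m n, m < n → (q n).1.1 ⊆ (q m).1.1 \ {(q m).1.2} := by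
    intro m n hmn
    induction n with
    | zero => omega
    | succ n ih =>
      rw [hqs, hn3]
      rcases Nat.lt_succ_iff_lt_or_eq.mp hmn with h1 | h1
      · intro z hz
        exact ih h1 hz.1
      · rw [h1]
  have hU : ∀ n, (q n).1.1 ⊆ U := by
    intro n
    rcases Nat.eq_zero_or_pos n with h0 | h0
    · rw [h0]
      exact fun z hz => hz
    · intro z hz
      exact (hW 0 n h0 hz).1
  refine ⟨fun n => (q n).1.2, ?_, ?_⟩
  · have hlt : ∀ m n, m < n → (q m).1.2 ≠ (q n).1.2 := by
      intro m n hmn heq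
      obtain ⟨k, rfl⟩ : ∃ k, n = k + 1 := ⟨n - 1, by omega⟩
      have h1 : (q (k + 1)).1.2 ∈ (q (k + 1)).1.1 := by rw [hqs]; exact hn2 _
      have h2 := hW m (k + 1) hmn h1
      exact h2.2 heq.symm
    intro m n hmn
    rcases lt_trichotomy m n with h1 | h1 | h1
    · exact absurd hmn (hlt m n h1)
    · exact h1
    · exact absurd hmn.symm (hlt n m h1)
  · intro n
    constructor
    · cases n with
      | zero =>
        obtain ⟨z, hz, hzy⟩ := h.exists_notMem_finset {y}
        have hne : y ≠ z := fun hh => hzy (by simp [hh])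
        rcases Relation.ReflTransGen.cases_head hz with h1 | ⟨w, hw, _⟩
        · exact absurd h1 hne
        · exact hw.1
      | succ n =>
        refine hU (n + 1) ?_
        rw [hqs]
        exact hn2 _
    · show nb (q n).1.2 (q (n + 1)).1.2
      rw [hqs]
      exact hn1 _

/-- conversely -/
theorem ray_perc (U : Set (V d)) (p : ℕ → V d) (hinj : Function.Injective p)
    (h : ∀ n, p n ∈ U ∧ nb (p n) (p (n + 1))) : perc U := by
  refine ⟨p 0, ?_⟩
  have h1 : ∀ n, conn U (p 0) (p n) := by
    intro n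
    induction n with
    | zero => exact Relation.ReflTransGen.refl
    | succ n ih => exact Relation.ReflTransGen.tail ih ⟨(h n).1, (h (n + 1)).1, (h n).2⟩
  refine Set.Infinite.mono ?_ (Set.infinite_range_of_injective hinj)
  rintro _ ⟨n, rfl⟩
  exact h1 n

end

end Pool.Agent.H592
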