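import Mathlib
import Pool.Agent.H592W.Hit2
import Pool.Agent.H592W.Sum

set_option autoImplicit false
open scoped ENNReal BigOperators

namespace Pool.Agent.H592

noncomputable section

/-! Two dimensions: mean numbers of bad worms. Here `w n` is the weight of `n` steps. -/

/-- shifted weights -/
def sh (w : ℕ → ℝ) : ℕ → ℝ := fun k => w (k - 1)

theorem sh_succ (w : ℕ → ℝ) (n : ℕ) : sh w (n + 1) = w n := rfl

theorem tele (f : ℕ → ℝ) (N : ℕ) (hf : ∀ n, N ≤ n → f (n + 1) ≤ f n)
    (h0 : ∀ n, N ≤ n → 0 ≤ f n) :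
    ∑' n : ℕ, (if N ≤ n then ENNReal.ofReal (f n - f (n + 1)) else 0) ≤ ENNReal.ofReal (f N) := by
  have hanti : ∀ n, N ≤ n → f n ≤ f N := by
    intro n hn
    induction n, hn using Nat.le_induction with
    | base => exact le_rfl
    | succ n hn ih => exact (hf n hn).trans ih
  refine ENNReal.tsum_le_of_sum_range_le fun M => ?_
  have key : ∀ M : ℕ, ∑ n ∈ Finset.range M,
      (if N ≤ n then ENNReal.ofReal (f n - f (n + 1)) else 0)
        ≤ ENNReal.ofReal (f N - f (max N M)) := by
    intro M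
    induction M with
    | zero => simp
    | succ M ih =>
      rw [Finset.sum_range_succ]
      by_cases hM : N ≤ M
      · rw [if_pos hM]
        rw [max_eq_right hM] at ih
        rw [max_eq_right (by omega)]
        calc _ ≤ ENNReal.ofReal (f N - f M) + ENNReal.ofReal (f M - f (M + 1)) := by gcongr
          _ = ENNReal.ofReal ((f N - f M) + (f M - f (M + 1))) :=
              (ENNReal.ofReal_add (by linarith [hanti M hM]) (by linarith [hf M hM])).symm
          _ = _ := by congr 1; ring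
      · rw [if_neg hM, add_zero]
        rw [max_eq_left (by omega)] at ih ⊢
        exact ih
  refine (key M).trans (ENNReal.ofReal_le_ofReal ?_)
  linarith [h0 (max N M) (le_max_left _ _)]

theorem aa_fin (c : V 2) (r n : ℕ) (hr : 1 ≤ r) : aa c r n ≠ ⊤ := by
  intro hn
  have := aa_small (d := 2) (by omega) c r n hr
  rw [hn] at this
  have hr1 : ((r : ℝ≥0∞)) ^ (6 - 2) ≠ 0 := by
    have : (r : ℝ≥0∞) ≠ 0 := by exact_mod_cast (by omega : r ≠ 0)
    exact pow_ne_zero _ this
  rw [ENNReal.mul_top hr1, top_le_iff] at this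
  have h2 : (99 : ℝ≥0∞) ^ 6 * (60 * ((2 : ℕ) : ℝ≥0∞) * (n : ℝ≥0∞) ^ 3) ≠ ⊤ := by
    have : (99 : ℝ≥0∞) ^ 6 * (60 * ((2 : ℕ) : ℝ≥0∞) * (n : ℝ≥0∞) ^ 3)
      = ((99 ^ 6 * (60 * 2 * n ^ 3) : ℕ) : ℝ≥0∞) := by push_cast; ring
    rw [this]
    exact ENNReal.natCast_ne_top _
  exact h2 this

theorem aa_small2 (c : V 2) (r n : ℕ) (hr : 1 ≤ r) :
    (r : ℝ) ^ 4 * (aa c r n).toReal ≤ (99 ^ 6 * 120) * (n : ℝ) ^ 3 := by
  have h := aa_small (d := 2) (by omega) c r n hr
  have h2 : (99 : ℝ≥0∞) ^ 6 * (60 * ((2 : ℕ) : ℝ≥0∞) * (n : ℝ≥0∞) ^ 3)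
      = ((99 ^ 6 * (60 * 2 * n ^ 3) : ℕ) : ℝ≥0∞) := by push_cast; ring
  rw [h2] at h
  have h3 := (ENNReal.toReal_le_toReal (ENNReal.mul_ne_top (by simp) (aa_fin c r n hr))
    (ENNReal.natCast_ne_top _)).mpr h
  rw [ENNReal.toReal_mul, ENNReal.toReal_pow, ENNReal.toReal_natCast, ENNReal.toReal_natCast] at h3
  refine h3.trans (le_of_eq ?_)
  push_cast
  ring

theorem aa_large2 (c : V 2) (r n : ℕ) (hr : 1 ≤ r) (hn : r ^ 2 ≤ n + 1) :
    (aa c r n).toReal ≤ 72000 * ((n : ℝ) + 1) := by
  have h := aa_large (d := 2) c r n hr hn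
  have h2 : 5 * (120 : ℝ≥0∞) ^ 2 * (r : ℝ≥0∞) ^ 2 * (n + 1)
      = ((5 * 120 ^ 2 * r ^ 2 * (n + 1) : ℕ) : ℝ≥0∞) := by push_cast; ring
  rw [h2] at h
  have h3 := (ENNReal.toReal_le_toReal (ENNReal.mul_ne_top (by simp) (aa_fin c r n hr))
    (ENNReal.natCast_ne_top _)).mpr h
  rw [ENNReal.toReal_mul, ENNReal.toReal_pow, ENNReal.toReal_natCast, ENNReal.toReal_natCast] at h3
  have hr0 : (0 : ℝ) < (r : ℝ) ^ 2 := by
    have : (0 : ℝ) < r := by exact_mod_cast hr
    positivity
  refine le_of_mul_le_mul_left (h3.trans (le_of_eq ?_)) hr0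
  push_cast
  ring

/-- if the mean length is finite then the mean number of bad worms is bounded -/
theorem BS2_mean (w : ℕ → ℝ) (hw : ∀ n, 0 ≤ w n)
    (M : ℝ) (hM : ∑' n : ℕ, ENNReal.ofReal (w n * ((n : ℝ) + 1)) ≤ ENNReal.ofReal M) :
    ∃ H : ℝ, ∀ (c : V 2) (r : ℕ), 1 ≤ r → BS (sh w) c r ≤ ENNReal.ofReal H := by
  refine ⟨(99 ^ 6 * 120) * M, fun c r hr => ?_⟩
  have hr0 : (1 : ℝ) ≤ r := by exact_mod_cast hr
  unfold BS
  calc ∑' n : ℕ, ENNReal.ofReal (sh w (n + 1)) * aa c r n
      ≤ ∑' n : ℕ, ENNReal.ofReal (99 ^ 6 * 120) * ENNReal.ofReal (w n * ((n : ℝ) + 1)) := by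
        refine ENNReal.tsum_le_tsum fun n => ?_
        rw [sh_succ, ← ENNReal.ofReal_toReal (aa_fin c r n hr), ← ENNReal.ofReal_mul (hw n),
          ← ENNReal.ofReal_mul (by norm_num)]
        refine ENNReal.ofReal_le_ofReal ?_
        have hA : (aa c r n).toReal ≤ (99 ^ 6 * 120) * ((n : ℝ) + 1) := by
          by_cases hn : n < r ^ 2
          · have h1 := aa_small2 c r n hr
            have hn' : (n : ℝ) ≤ (r : ℝ) ^ 2 := by exact_mod_cast hn.le
            have h2 : (n : ℝ) ^ 2 ≤ (r : ℝ) ^ 4 := by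
              calc (n : ℝ) ^ 2 ≤ ((r : ℝ) ^ 2) ^ 2 := by gcongr
                _ = (r : ℝ) ^ 4 := by ring
            have hr4 : (0 : ℝ) < (r : ℝ) ^ 4 := by positivity
            have hn0 : (0 : ℝ) ≤ n := Nat.cast_nonneg n
            refine le_of_mul_le_mul_left (h1.trans ?_) hr4
            have h3 : (n : ℝ) ^ 3 ≤ (r : ℝ) ^ 4 * ((n : ℝ) + 1) := by
              calc (n : ℝ) ^ 3 = (n : ℝ) ^ 2 * n := by ring
                _ ≤ (r : ℝ) ^ 4 * ((n : ℝ) + 1) := by gcongr; linarith
            nlinarith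
          · have h1 := aa_large2 c r n hr (by omega)
            have hn0 : (0 : ℝ) ≤ n := Nat.cast_nonneg n
            refine h1.trans ?_
            have : (72000 : ℝ) ≤ 99 ^ 6 * 120 := by norm_num
            nlinarith
        calc w n * (aa c r n).toReal ≤ w n * ((99 ^ 6 * 120) * ((n : ℝ) + 1)) :=
              mul_le_mul_of_nonneg_left hA (hw n)
          _ = _ := by ring
    _ = ENNReal.ofReal (99 ^ 6 * 120) * ∑' n : ℕ, ENNReal.ofReal (w n * ((n : ℝ) + 1)) :=
        ENNReal.tsum_mul_left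
    _ ≤ ENNReal.ofReal (99 ^ 6 * 120) * ENNReal.ofReal M := by gcongr
    _ = _ := by rw [← ENNReal.ofReal_mul (by norm_num)]

theorem log_three : (1 : ℝ) ≤ Real.log 3 := by
  rw [Real.le_log_iff_exp_le (by norm_num)]
  linarith [Real.exp_one_lt_d9]

/-- one term of the logarithmic sum -/
theorem log_term (a : ℝ) (ha : 0 < a) (n : ℕ) (hn : 3 * a ≤ n) :
    1 / (((n : ℝ) + 1) * Real.log (((n : ℝ) + 1) / a) ^ 2)
      ≤ 1 / Real.log ((n : ℝ) / a) - 1 / Real.log (((n : ℝ) + 1) / a) := by
  have hn0 : (0 : ℝ) < n := by linarith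
  have hn1 : (0 : ℝ) < (n : ℝ) + 1 := by linarith
  have h1 : 1 ≤ Real.log ((n : ℝ) / a) := by
    refine log_three.trans (Real.log_le_log (by norm_num) ?_)
    rw [le_div_iff₀ ha]
    exact hn
  have h2 : Real.log ((n : ℝ) / a) ≤ Real.log (((n : ℝ) + 1) / a) := by
    refine Real.log_le_log (by positivity) ?_
    gcongr
    linarith
  have h3 : 1 / ((n : ℝ) + 1) ≤ Real.log (((n : ℝ) + 1) / a) - Real.log ((n : ℝ) / a) := by
    rw [← Real.log_div (by positivity) (by positivity)]
    have h4 : ((n : ℝ) + 1) / a / ((n : ℝ) / a) = ((n : ℝ) + 1) / n := by field_simp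
    rw [h4]
    have h5 := Real.one_sub_inv_le_log_of_pos (x := ((n : ℝ) + 1) / n) (by positivity)
    refine le_trans (le_of_eq ?_) h5
    field_simp
    ring
  set L1 := Real.log ((n : ℝ) / a)
  set L2 := Real.log (((n : ℝ) + 1) / a)
  have hL1 : 0 < L1 := by linarith
  have hL2 : 0 < L2 := by linarith
  rw [div_sub_div _ _ hL1.ne' hL2.ne', div_le_div_iff₀ (by positivity) (by positivity)]
  have h6 : 1 ≤ (L2 - L1) * ((n : ℝ) + 1) := by
    rw [div_le_iff₀ hn1] at h3
    exact h3
  have h7 : L1 * L2 ≤ L2 ^ 2 := by nlinarith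
  calc 1 * (L1 * L2) ≤ L2 ^ 2 := by linarith
    _ = 1 * L2 ^ 2 := by ring
    _ ≤ ((L2 - L1) * ((n : ℝ) + 1)) * L2 ^ 2 := by gcongr
    _ = _ := by ring

/-- boundedness for the law with tails `1 / (n ^ 2 * (1 + log n))` -/
theorem BS2_log (w : ℕ → ℝ) (hw : ∀ n, 0 ≤ w n) (C : ℝ) (hC : 0 ≤ C)
    (hwC : ∀ n : ℕ, 1 ≤ n → w n ≤ C / ((n : ℝ) ^ 2 * (1 + Real.log n))) :
    ∃ H : ℝ, ∀ (c : V 2) (r : ℕ), 1 ≤ r → BS (sh w) c r ≤ ENNReal.ofReal H := by
  set K : ℝ := C * (99 ^ 6 * 120) with hK
  have hK0 : 0 ≤ K := by positivity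
  refine ⟨3457 * K + 30000 * C, fun c r hr => ?_⟩
  have hr0 : (1 : ℝ) ≤ r := by exact_mod_cast hr
  have hr2 : (0 : ℝ) < (r : ℝ) ^ 2 := by positivity
  set a : ℝ := 1152 * (r : ℝ) ^ 2 with ha
  have ha0 : 0 < a := by positivity
  set f : ℕ → ℝ := fun n => 1 / Real.log ((n : ℝ) / a) with hf
  have hlog1 : ∀ n : ℕ, 3456 * r ^ 2 ≤ n → 1 ≤ Real.log ((n : ℝ) / a) := by
    intro n hn
    refine log_three.trans (Real.log_le_log (by norm_num) ?_)
    rw [le_div_iff₀ ha0, ha]
    have : 3456 * (r : ℝ) ^ 2 ≤ n := by exact_mod_cast hn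
    linarith
  have hwn : ∀ n : ℕ, 1 ≤ n → w n ≤ C / (n : ℝ) ^ 2 := by
    intro n hn
    refine (hwC n hn).trans ?_
    have hn1 : (1 : ℝ) ≤ n := by exact_mod_cast hn
    have hl : 0 ≤ Real.log n := Real.log_nonneg hn1
    refine div_le_div_of_nonneg_left hC (by positivity) ?_
    have : (0 : ℝ) < (n : ℝ) ^ 2 := by positivity
    nlinarith
  have hterm : ∀ n : ℕ, ENNReal.ofReal (sh w (n + 1)) * aa c r n
      ≤ (if n < 3456 * r ^ 2 + 1 then ENNReal.ofReal (K / (r : ℝ) ^ 2) else 0)
        + ENNReal.ofReal (30000 * C) *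
          (if 3456 * r ^ 2 < n then ENNReal.ofReal (f (n - 1) - f n) else 0) := by
    intro n
    rw [sh_succ, ← ENNReal.ofReal_toReal (aa_fin c r n hr), ← ENNReal.ofReal_mul (hw n)]
    have hA0 : 0 ≤ (aa c r n).toReal := ENNReal.toReal_nonneg
    by_cases hn : n < 3456 * r ^ 2 + 1
    · rw [if_pos hn]
      refine le_trans (ENNReal.ofReal_le_ofReal ?_) le_self_add
      rw [le_div_iff₀ hr2]
      rcases Nat.eq_zero_or_pos n with h0 | h0
      · subst h0
        have h1 := aa_small2 c r 0 hr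
        have h2 : (aa c r 0).toReal = 0 := by
          refine le_antisymm ?_ hA0
          have hr4 : (0 : ℝ) < (r : ℝ) ^ 4 := by positivity
          refine le_of_mul_le_mul_left (h1.trans (le_of_eq ?_)) hr4
          simp
        rw [h2]
        simpa using hK0
      · have hn1 : (1 : ℝ) ≤ n := by exact_mod_cast h0
        have hn2 : (0 : ℝ) < (n : ℝ) ^ 2 := by positivity
        have hw2 := hwn n h0
        by_cases hn' : n < r ^ 2
        · have h1 := aa_small2 c r n hr
          have hnr : (n : ℝ) ≤ (r : ℝ) ^ 2 := by exact_mod_cast hn'.le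
          have h2 : w n * (n : ℝ) ^ 2 ≤ C := by
            rwa [le_div_iff₀ hn2] at hw2
          refine le_of_mul_le_mul_right (a := (r : ℝ) ^ 2) ?_ hr2
          calc w n * (aa c r n).toReal * (r : ℝ) ^ 2 * (r : ℝ) ^ 2
              = w n * ((r : ℝ) ^ 4 * (aa c r n).toReal) := by ring
            _ ≤ w n * ((99 ^ 6 * 120) * (n : ℝ) ^ 3) := mul_le_mul_of_nonneg_left h1 (hw n)
            _ = (w n * (n : ℝ) ^ 2) * ((99 ^ 6 * 120) * n) := by ring
            _ ≤ C * ((99 ^ 6 * 120) * (r : ℝ) ^ 2) := by gcongr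
            _ = K * (r : ℝ) ^ 2 := by rw [hK]; ring
        · have h1 := aa_large2 c r n hr (by omega)
          have hnr : (r : ℝ) ^ 2 ≤ n := by
            have : r ^ 2 ≤ n := by omega
            exact_mod_cast this
          have h2 : w n * (n : ℝ) ^ 2 ≤ C := by
            rwa [le_div_iff₀ hn2] at hw2
          have hwn0 : 0 ≤ w n := hw n
          calc w n * (aa c r n).toReal * (r : ℝ) ^ 2
              ≤ w n * (72000 * ((n : ℝ) + 1)) * n := by gcongr
            _ ≤ w n * (72000 * ((n : ℝ) + n)) * n := by gcongr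
            _ = (w n * (n : ℝ) ^ 2) * 144000 := by ring
            _ ≤ C * 144000 := by gcongr
            _ ≤ K := by rw [hK]; gcongr; norm_num
    · rw [if_neg hn, if_pos (by omega), zero_add, ← ENNReal.ofReal_mul (by positivity)]
      refine ENNReal.ofReal_le_ofReal ?_
      obtain ⟨k, rfl⟩ : ∃ k, n = k + 1 := ⟨n - 1, by omega⟩
      have hk : 3456 * r ^ 2 ≤ k := by omega
      have hkr : 3 * a ≤ (k : ℝ) := by
        have : 3456 * (r : ℝ) ^ 2 ≤ k := by exact_mod_cast hk
        rw [ha]; linarith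
      have h1 := aa_log c r (k + 1) hr (by omega) (aa_fin c r _ hr)
      have h2 := log_term a ha0 k hkr
      have h3 := hwC (k + 1) (by omega)
      have h4 := hlog1 (k + 1) (by omega)
      simp only [Nat.add_sub_cancel, hf]
      have hk0 : (0 : ℝ) < k := by linarith
      push_cast at h1 h3 h4 ⊢
      rw [← ha] at h1
      set L := Real.log (((k : ℝ) + 1) / a)
      have hL : 0 < L := by linarith
      have hn1 : (0 : ℝ) < (k : ℝ) + 1 := by linarith
      have hLle : L ≤ 1 + Real.log ((k : ℝ) + 1) := by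
        have : L ≤ Real.log ((k : ℝ) + 1) := by
          refine Real.log_le_log (by positivity) ?_
          rw [div_le_iff₀ ha0]
          have : (1 : ℝ) ≤ a := by rw [ha]; nlinarith
          nlinarith
        linarith
      have hA : (aa c r (k + 1)).toReal ≤ 30000 * ((k : ℝ) + 1) / L := by
        rw [le_div_iff₀ hL]
        linarith
      have hwk : w (k + 1) ≤ C / (((k : ℝ) + 1) ^ 2 * L) := by
        refine h3.trans (div_le_div_of_nonneg_left hC (by positivity) ?_)
        gcongr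
      calc w (k + 1) * (aa c r (k + 1)).toReal
          ≤ (C / (((k : ℝ) + 1) ^ 2 * L)) * (30000 * ((k : ℝ) + 1) / L) := by
            refine mul_le_mul hwk hA ENNReal.toReal_nonneg (by positivity)
        _ = 30000 * C * (1 / (((k : ℝ) + 1) * L ^ 2)) := by field_simp
        _ ≤ _ := by
            refine mul_le_mul_of_nonneg_left h2 (by positivity)
  unfold BS
  calc ∑' n : ℕ, ENNReal.ofReal (sh w (n + 1)) * aa c r n
      ≤ ∑' n : ℕ, ((if n < 3456 * r ^ 2 + 1 then ENNReal.ofReal (K / (r : ℝ) ^ 2) else 0)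
        + ENNReal.ofReal (30000 * C) *
          (if 3456 * r ^ 2 < n then ENNReal.ofReal (f (n - 1) - f n) else 0)) :=
        ENNReal.tsum_le_tsum hterm
    _ ≤ ENNReal.ofReal (3457 * K) + ENNReal.ofReal (30000 * C) := by
        rw [ENNReal.tsum_add]
        gcongr
        · rw [tsum_eq_sum (s := Finset.range (3456 * r ^ 2 + 1)) (fun n hn => by
            rw [if_neg]; simpa using hn)]
          rw [Finset.sum_congr rfl (fun n hn => if_pos (Finset.mem_range.mp hn))]
          rw [Finset.sum_const, Finset.card_range, nsmul_eq_mul]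
          rw [← ENNReal.ofReal_natCast, ← ENNReal.ofReal_mul (by positivity)]
          refine ENNReal.ofReal_le_ofReal ?_
          have h1 : (((3456 * r ^ 2 + 1 : ℕ) : ℝ)) ≤ 3457 * (r : ℝ) ^ 2 := by
            push_cast
            nlinarith
          calc ((3456 * r ^ 2 + 1 : ℕ) : ℝ) * (K / (r : ℝ) ^ 2)
              ≤ (3457 * (r : ℝ) ^ 2) * (K / (r : ℝ) ^ 2) := by gcongr
            _ = 3457 * K := by field_simp
        · rw [ENNReal.tsum_mul_left]
          have h1 : ∑' n : ℕ, (if 3456 * r ^ 2 < n then ENNReal.ofReal (f (n - 1) - f n) else 0)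
              ≤ 1 := by
            rw [tsum_eq_zero_add' ENNReal.summable, if_neg (by omega), zero_add]
            have h2 : ∀ n : ℕ, (if 3456 * r ^ 2 < n + 1 then
                ENNReal.ofReal (f (n + 1 - 1) - f (n + 1)) else 0)
                = (if 3456 * r ^ 2 ≤ n then ENNReal.ofReal (f n - f (n + 1)) else 0) := by
              intro n
              simp only [Nat.add_sub_cancel, Nat.lt_succ_iff]
            simp_rw [h2]
            refine (tele f (3456 * r ^ 2) ?_ ?_).trans ?_
            · intro n hn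
              simp only [hf]
              have h3 := hlog1 n hn
              refine one_div_le_one_div_of_le (by linarith) ?_
              have hn0 : (0 : ℝ) < n := by
                have : 0 < n := by
                  have : 0 < r ^ 2 := by positivity
                  omega
                exact_mod_cast this
              refine Real.log_le_log (by positivity) ?_
              gcongr
              push_cast
              linarith
            · intro n hn
              simp only [hf]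
              have h3 := hlog1 n hn
              positivity
            · rw [← ENNReal.ofReal_one]
              refine ENNReal.ofReal_le_ofReal ?_
              simp only [hf]
              have h3 := hlog1 (3456 * r ^ 2) le_rfl
              rw [div_le_one (by linarith)]
              exact h3
          calc _ ≤ ENNReal.ofReal (30000 * C) * 1 := by gcongr
            _ = _ := mul_one _
    _ = _ := by rw [← ENNReal.ofReal_add (by positivity) (by positivity)]

end

end Pool.Agent.H592
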