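import Mathlib

set_option autoImplicit false
open scoped ENNReal BigOperators
open MeasureTheory ProbabilityTheory

namespace Pool.Agent.H592

noncomputable section

/-! Thinning of a Poisson number of marks on a product space. -/

variable {X S β : Type} [MeasurableSpace S] [MeasurableSpace β]

/-- the product space of labels and step sequences -/
abbrev QQ (X S : Type) := (X × ℕ → ℕ) × (X × ℕ × ℕ → S)

/-- the mark with label `j` -/
def mark (g : ℕ → (ℕ → S) → β) (j : X × ℕ) (w : QQ X S) : β :=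
  g (w.1 j) (fun k => w.2 (j.1, j.2, k))

theorem mark_measurable (g : ℕ → (ℕ → S) → β) (hg : ∀ n, Measurable (g n)) (j : X × ℕ) :
    Measurable (mark g j) := by
  unfold mark
  have h1 : Measurable (fun p : ℕ × (ℕ → S) => g p.1 p.2) :=
    measurable_from_prod_countable_right fun n => hg n
  have h2 : Measurable (fun w : QQ X S => (w.1 j, fun k => w.2 (j.1, j.2, k))) := by
    fun_prop
  exact h1.comp h2

theorem group_law (u : Measure S) [IsProbabilityMeasure u] :
    (Measure.infinitePi (fun _ : X × ℕ × ℕ => u)).map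
      (fun s (j : X × ℕ) (k : ℕ) => s (j.1, j.2, k))
      = Measure.infinitePi (fun _ : X × ℕ => Measure.infinitePi (fun _ : ℕ => u)) := by
  have h1 := Measure.map_infinitePi_infinitePi_of_inj (P := fun _ : X × ℕ × ℕ => u)
    (f := fun q : (X × ℕ) × ℕ => (q.1.1, q.1.2, q.2)) (by
      rintro ⟨⟨a, b⟩, c⟩ ⟨⟨a', b'⟩, c'⟩ h
      simp only [Prod.mk.injEq] at h ⊢
      tauto)
  have h2 := Measure.infinitePi_map_curry (ι := X × ℕ) (κ := ℕ) (fun _ _ => u)
  rw [← h2, ← h1, Measure.map_map (by fun_prop) (by fun_prop)]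
  rfl

theorem marks_law [Countable X] (m : Measure ℕ) [IsProbabilityMeasure m] (u : Measure S) [IsProbabilityMeasure u]
    (g : ℕ → (ℕ → S) → β) (hg : ∀ n, Measurable (g n)) (J : Finset (X × ℕ))
    (A : X × ℕ → Set β) (hA : ∀ j, MeasurableSet (A j)) :
    ((Measure.infinitePi (fun _ : X × ℕ => m)).prod
      (Measure.infinitePi (fun _ : X × ℕ × ℕ => u))) {w | ∀ j ∈ J, mark g j w ∈ A j}
      = ∏ j ∈ J, ∫⁻ n, (Measure.infinitePi (fun _ : ℕ => u)) {s | g n s ∈ A j} ∂m := by
  have hms : MeasurableSet {w : QQ X S | ∀ j ∈ J, mark g j w ∈ A j} := by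
    have : {w : QQ X S | ∀ j ∈ J, mark g j w ∈ A j} = ⋂ j ∈ J, (mark g j) ⁻¹' (A j) := by
      ext w; simp
    rw [this]
    exact Finset.measurableSet_biInter J fun j _ => mark_measurable g hg j (hA j)
  rw [Measure.prod_apply hms]
  have h1 : ∀ L : X × ℕ → ℕ, (Measure.infinitePi (fun _ : X × ℕ × ℕ => u))
      (Prod.mk L ⁻¹' {w : QQ X S | ∀ j ∈ J, mark g j w ∈ A j})
      = ∏ j ∈ J, (Measure.infinitePi (fun _ : ℕ => u)) {s | g (L j) s ∈ A j} := by
    intro L
    have h2 : Prod.mk L ⁻¹' {w : QQ X S | ∀ j ∈ J, mark g j w ∈ A j}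
        = (fun s (j : X × ℕ) (k : ℕ) => s (j.1, j.2, k)) ⁻¹'
          ((J : Set (X × ℕ)).pi fun j => {s | g (L j) s ∈ A j}) := by
      ext s
      simp [mark, Set.mem_pi]
    have hset : ∀ j ∈ J, MeasurableSet {s | g (L j) s ∈ A j} := fun j _ => hg (L j) (hA j)
    rw [h2, ← Measure.map_apply (by fun_prop), group_law, Measure.infinitePi_pi _ hset]
    exact MeasurableSet.pi J.countable_toSet hset
  simp_rw [h1]
  have h3 := lintegral_prod_eq_prod_lintegral_of_indepFun J
    (fun j (L : X × ℕ → ℕ) => (Measure.infinitePi (fun _ : ℕ => u)) {s | g (L j) s ∈ A j})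
    (iIndepFun_infinitePi (P := fun _ : X × ℕ => m)
      (X := fun j n => (Measure.infinitePi (fun _ : ℕ => u)) {s | g n s ∈ A j})
      (fun j => measurable_from_nat))
    (fun j => (measurable_from_nat (f := fun n => (Measure.infinitePi (fun _ : ℕ => u))
      {s | g n s ∈ A j})).comp (measurable_pi_apply j))
  rw [h3]
  refine Finset.prod_congr rfl fun j _ => ?_
  have h4 := lintegral_map (μ := Measure.infinitePi (fun _ : X × ℕ => m))
    (f := fun n => (Measure.infinitePi (fun _ : ℕ => u)) {s | g n s ∈ A j})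
    (g := fun L : X × ℕ → ℕ => L j) measurable_from_nat (measurable_pi_apply j)
  rw [Measure.infinitePi_map_eval] at h4
  exact h4.symm

/-- the law of a single mark -/
def markLaw (m : Measure ℕ) (u : Measure S) (g : ℕ → (ℕ → S) → β) (A : Set β) : ℝ≥0∞ :=
  ∫⁻ n, (Measure.infinitePi (fun _ : ℕ => u)) {s | g n s ∈ A} ∂m

theorem markLaw_compl (m : Measure ℕ) [IsProbabilityMeasure m] (u : Measure S)
    [IsProbabilityMeasure u] (g : ℕ → (ℕ → S) → β) (hg : ∀ n, Measurable (g n))
    (A : Set β) (hA : MeasurableSet A) : markLaw m u g Aᶜ = 1 - markLaw m u g A := by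
  unfold markLaw
  have h1 : ∀ n, (Measure.infinitePi (fun _ : ℕ => u)) {s | g n s ∈ Aᶜ}
      = 1 - (Measure.infinitePi (fun _ : ℕ => u)) {s | g n s ∈ A} := by
    intro n
    exact prob_compl_eq_one_sub (μ := Measure.infinitePi (fun _ : ℕ => u)) (hg n hA)
  simp_rw [h1]
  rw [lintegral_sub]
  · simp
  · exact measurable_from_nat
  · have : ∫⁻ n, (Measure.infinitePi (fun _ : ℕ => u)) {s | g n s ∈ A} ∂m ≤ 1 := by
      calc _ ≤ ∫⁻ _, 1 ∂m := lintegral_mono fun n => prob_le_one
        _ = 1 := by simp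
    exact ne_top_of_le_ne_top (by simp) this
  · exact Filter.Eventually.of_forall fun n => prob_le_one

/-- avoidance probability -/
theorem avoid [Countable X] (μ0 m : Measure ℕ) [IsProbabilityMeasure μ0] [IsProbabilityMeasure m]
    (u : Measure S) [IsProbabilityMeasure u]
    (g : ℕ → (ℕ → S) → β) (hg : ∀ n, Measurable (g n)) (J : Finset X) (A : X → Set β)
    (hA : ∀ x, MeasurableSet (A x)) :
    ((Measure.infinitePi (fun _ : X => μ0)).prod ((Measure.infinitePi (fun _ : X × ℕ => m)).prod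
      (Measure.infinitePi (fun _ : X × ℕ × ℕ => u))))
      {ω | ∀ x ∈ J, ∀ i < ω.1 x, mark g (x, i) ω.2 ∉ A x}
      = ∏ x ∈ J, ∫⁻ n, (1 - markLaw m u g (A x)) ^ n ∂μ0 := by
  classical
  have hms : MeasurableSet {ω : (X → ℕ) × QQ X S | ∀ x ∈ J, ∀ i < ω.1 x, mark g (x, i) ω.2 ∉ A x} := by
    have : {ω : (X → ℕ) × QQ X S | ∀ x ∈ J, ∀ i < ω.1 x, mark g (x, i) ω.2 ∉ A x}
        = ⋂ x ∈ J, ⋂ i : ℕ, ({ω | i < ω.1 x}ᶜ ∪ {ω | mark g (x, i) ω.2 ∈ A x}ᶜ) := by
      ext ω
      simp only [Set.mem_ofPred_eq, Set.mem_iInter, Set.mem_union, Set.mem_compl_iff]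
      constructor
      · intro h x hx i
        by_cases hi : i < ω.1 x
        · exact Or.inr (h x hx i hi)
        · exact Or.inl hi
      · intro h x hx i hi
        rcases h x hx i with h1 | h1
        · exact absurd hi h1
        · exact h1
    rw [this]
    refine Finset.measurableSet_biInter J fun x _ => MeasurableSet.iInter fun i => ?_
    refine MeasurableSet.union (MeasurableSet.compl ?_) (MeasurableSet.compl ?_)
    · have h1 : Measurable (fun ω : (X → ℕ) × QQ X S => ω.1 x) := by fun_prop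
      exact h1 (measurableSet_Ioi (a := i))
    · exact ((mark_measurable g hg (x, i)).comp measurable_snd) (hA x)
  rw [Measure.prod_apply hms]
  have h1 : ∀ N : X → ℕ, ((Measure.infinitePi (fun _ : X × ℕ => m)).prod
      (Measure.infinitePi (fun _ : X × ℕ × ℕ => u)))
      (Prod.mk N ⁻¹' {ω : (X → ℕ) × QQ X S | ∀ x ∈ J, ∀ i < ω.1 x, mark g (x, i) ω.2 ∉ A x})
      = ∏ x ∈ J, (1 - markLaw m u g (A x)) ^ (N x) := by
    intro N
    set J' : Finset (X × ℕ) := J.biUnion fun x => (Finset.range (N x)).image fun i => (x, i) with hJ'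
    have h2 : Prod.mk N ⁻¹' {ω : (X → ℕ) × QQ X S | ∀ x ∈ J, ∀ i < ω.1 x, mark g (x, i) ω.2 ∉ A x}
        = {w | ∀ j ∈ J', mark g j w ∈ (A j.1)ᶜ} := by
      ext w
      simp only [Set.mem_preimage, Set.mem_ofPred_eq, hJ', Finset.mem_biUnion, Finset.mem_image,
        Finset.mem_range, Set.mem_compl_iff]
      constructor
      · rintro h j ⟨x, hx, i, hi, rfl⟩
        exact h x hx i hi
      · intro h x hx i hi
        exact h (x, i) ⟨x, hx, i, hi, rfl⟩
    rw [h2, marks_law m u g hg J' (fun j => (A j.1)ᶜ) (fun j => (hA j.1).compl)]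
    rw [hJ', Finset.prod_biUnion]
    · refine Finset.prod_congr rfl fun x _ => ?_
      rw [Finset.prod_image (by intro a _ b _ h; simpa using h)]
      have h5 : ∀ i ∈ Finset.range (N x), ∫⁻ n, (Measure.infinitePi (fun _ : ℕ => u))
          {s | g n s ∈ (A (x, i).1)ᶜ} ∂m = 1 - markLaw m u g (A x) :=
        fun i _ => markLaw_compl m u g hg (A x) (hA x)
      rw [Finset.prod_congr rfl h5]
      simp
    · intro x _ y _ hxy
      simp only [Function.onFun]
      rw [Finset.disjoint_left]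
      intro j hj1 hj2
      rw [Finset.mem_image] at hj1 hj2
      obtain ⟨i, _, rfl⟩ := hj1
      obtain ⟨i', _, h⟩ := hj2
      simp only [Prod.mk.injEq] at h
      exact hxy h.1.symm
  simp_rw [h1]
  rw [lintegral_prod_eq_prod_lintegral_of_indepFun J
    (fun x (N : X → ℕ) => (1 - markLaw m u g (A x)) ^ (N x))
    (iIndepFun_infinitePi (P := fun _ : X => μ0) (X := fun x n => (1 - markLaw m u g (A x)) ^ n)
      (fun x => measurable_from_nat))
    (fun x => (measurable_from_nat (f := fun n => (1 - markLaw m u g (A x)) ^ n)).comp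
      (measurable_pi_apply x))]
  refine Finset.prod_congr rfl fun x _ => ?_
  have h4 := lintegral_map (μ := Measure.infinitePi (fun _ : X => μ0))
    (f := fun n => (1 - markLaw m u g (A x)) ^ n)
    (g := fun N : X → ℕ => N x) measurable_from_nat (measurable_pi_apply x)
  rw [Measure.infinitePi_map_eval] at h4
  exact h4.symm

/-- Poisson generating function -/
theorem poisson_gf (v : NNReal) (q : ℝ) (hq0 : 0 ≤ q) (hq1 : q ≤ 1) :
    ∫⁻ n, (1 - ENNReal.ofReal q) ^ n ∂(poissonPMF v).toMeasure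
      = ENNReal.ofReal (Real.exp (-(v * q))) := by
  rw [lintegral_countable']
  have h1 : ∀ n : ℕ, (1 - ENNReal.ofReal q) ^ n * (poissonPMF v).toMeasure {n}
      = ENNReal.ofReal (Real.exp (-v) * ((v * (1 - q)) ^ n / n.factorial)) := by
    intro n
    rw [PMF.toMeasure_apply_singleton _ _ (MeasurableSet.singleton _),
      ← poissonPMFReal_ofReal_eq_poissonPMF, ← ENNReal.ofReal_one, ← ENNReal.ofReal_sub _ hq0,
      ← ENNReal.ofReal_pow (by linarith), ← ENNReal.ofReal_mul (pow_nonneg (by linarith) _)]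
    congr 1
    unfold poissonPMFReal
    rw [mul_pow]
    ring
  simp_rw [h1]
  rw [← ENNReal.ofReal_tsum_of_nonneg]
  · congr 1
    rw [tsum_mul_left]
    have := NormedSpace.expSeries_div_hasSum_exp ((v : ℝ) * (1 - q))
    rw [this.tsum_eq, ← Real.exp_eq_exp_ℝ, ← Real.exp_add]
    congr 1
    ring
  · intro n
    have : 0 ≤ (v : ℝ) * (1 - q) := mul_nonneg v.2 (by linarith)
    positivity
  · exact ((Real.summable_pow_div_factorial _).mul_left _)

end

end Pool.Agent.H592
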