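import Mathlib
import Pool.Agent.H592W.Thin
import Pool.Agent.H592W.Sum2
import Pool.Agent.H592W.Conv
import Pool.Agent.H592W.Konig

set_option autoImplicit false
open scoped ENNReal BigOperators
open MeasureTheory ProbabilityTheory

namespace Pool.Agent.H592

noncomputable section

/-! The product space of the planar worm model. -/

/-- the planar lattice as a product -/
abbrev Z2 := ℤ × ℤ

/-- identification of the two lattices -/
def phi2 (p : Z2) : V 2 := ![p.1, p.2]
def phiInv2 (y : V 2) : Z2 := (y 0, y 1)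

theorem phiInv2_phi2 (p : Z2) : phiInv2 (phi2 p) = p := rfl
theorem phi2_phiInv2 (y : V 2) : phi2 (phiInv2 y) = y := by
  funext j
  fin_cases j <;> rfl

theorem phi2_add (p q : Z2) : phi2 (p + q) = phi2 p + phi2 q := by
  funext j
  fin_cases j <;> rfl

theorem phi2_zero : phi2 0 = 0 := by
  funext j
  fin_cases j <;> rfl

theorem phi2_sum {κ : Type} (s : Finset κ) (f : κ → Z2) : phi2 (∑ k ∈ s, f k) = ∑ k ∈ s, phi2 (f k) := by
  classical
  induction s using Finset.induction_on with
  | empty => simp [phi2_zero]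
  | insert a s ha ih => rw [Finset.sum_insert ha, Finset.sum_insert ha, phi2_add, ih]

/-- the four steps -/
def st4 : Fin 4 → Z2 := ![(1, 0), (-1, 0), (0, 1), (0, -1)]

/-- relabelling of the steps -/
def psi2 : Fin 4 → Stp 2 := ![(0, true), (0, false), (1, true), (1, false)]

theorem psi2_bij : Function.Bijective psi2 := by
  rw [Fintype.bijective_iff_injective_and_card]
  refine ⟨?_, rfl⟩
  decide

theorem phi2_st4 (e : Fin 4) : phi2 (st4 e) = stp (psi2 e) := by
  funext j
  fin_cases e <;> fin_cases j <;> rfl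

instance : MeasurableSpace (Finset (V 2)) := ⊤

instance : MeasurableSingletonClass (Finset (V 2)) := ⟨fun _ => trivial⟩

/-- the trace with `l` steps -/
def gg2 (l : ℕ) (s : ℕ → Fin 4) : Finset (V 2) :=
  (Finset.range (l + 1)).image fun j => ∑ k ∈ Finset.range j, stp (psi2 (s k))

/-- the same from finitely many coordinates -/
def gf2 (l : ℕ) (s : Fin l → Fin 4) : Finset (V 2) :=
  gg2 l (fun k => if h : k < l then s ⟨k, h⟩ else 0)

theorem gg2_congr (l : ℕ) (s s' : ℕ → Fin 4) (h : ∀ k < l, s k = s' k) : gg2 l s = gg2 l s' := by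
  unfold gg2
  refine Finset.image_congr ?_
  intro j hj
  simp only [Finset.coe_range, Set.mem_Iio] at hj
  exact Finset.sum_congr rfl fun k hk => by
    rw [h k (by have := Finset.mem_range.mp hk; omega)]

theorem gg2_eq (l : ℕ) : gg2 l = (gf2 l) ∘ (fun s (k : Fin l) => s k) := by
  funext s
  simp only [Function.comp_apply, gf2]
  refine gg2_congr l _ _ fun k hk => ?_
  rw [dif_pos hk]

theorem gg2_measurable (l : ℕ) : Measurable (gg2 l) := by
  rw [gg2_eq]
  exact (measurable_of_countable (gf2 l)).comp (by fun_prop)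

theorem gg2_tr (n : ℕ) (s : ℕ → Fin 4) :
    gg2 n s = tr (List.ofFn (fun k : Fin n => psi2 (s k))) := by
  rw [← image_eq_tr]
  unfold gg2
  refine Finset.image_congr ?_
  intro j hj
  simp only [Finset.coe_range, Set.mem_Iio] at hj
  dsimp only
  rw [Finset.sum_filter]
  rw [Fin.sum_univ_eq_sum_range (fun k => if k < j then stp (psi2 (s k)) else 0) n]
  rw [← Finset.sum_filter]
  congr 1
  ext k
  simp only [Finset.mem_range, Finset.mem_filter]
  omega

/-- uniform steps -/
def uS2 : Measure (Fin 4) := (PMF.uniformOfFintype (Fin 4)).toMeasure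

instance : IsProbabilityMeasure uS2 := by unfold uS2; infer_instance

theorem uS2_singleton (e : Fin 4) : uS2 {e} = (4 : ℝ≥0∞)⁻¹ := by
  unfold uS2
  rw [PMF.toMeasure_apply_singleton _ _ (MeasurableSet.singleton _)]
  simp [PMF.uniformOfFintype_apply]

theorem inf_tr2 (n : ℕ) (A : Finset (V 2)) :
    (Measure.infinitePi (fun _ : ℕ => uS2)) {s | gg2 n s = A}
      = Av n (fun l : List (Stp 2) => one? (tr l = A)) := by
  classical
  -- decompose over the first n steps
  set F : Finset (Fin n → Fin 4) :=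
    Finset.univ.filter fun σ => tr (List.ofFn (fun k : Fin n => psi2 (σ k))) = A with hF
  have h1 : {s : ℕ → Fin 4 | gg2 n s = A}
      = ⋃ σ ∈ F, {s | ∀ k : Fin n, s k = σ k} := by
    ext s
    simp only [Set.mem_ofPred_eq, Set.mem_iUnion, hF, Finset.mem_filter, Finset.mem_univ, true_and,
      exists_prop]
    rw [gg2_tr]
    constructor
    · intro h
      exact ⟨fun k => s k, h, fun k => rfl⟩
    · rintro ⟨σ, hσ, hs⟩
      rw [← hσ]
      congr 2
      funext k
      rw [hs k]
  have hcyl : ∀ σ : Fin n → Fin 4, {s : ℕ → Fin 4 | ∀ k : Fin n, s k = σ k}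
      = (((Finset.range n : Finset ℕ) : Set ℕ).pi fun k =>
          if h : k < n then {σ ⟨k, h⟩} else Set.univ) := by
    intro σ
    ext s
    simp only [Set.mem_ofPred_eq, Set.mem_pi, Finset.coe_range, Set.mem_Iio]
    constructor
    · intro h k hk
      rw [dif_pos hk]
      exact h ⟨k, hk⟩
    · intro h k
      have := h k k.2
      rw [dif_pos k.2] at this
      exact this
  have hmeasb : ∀ σ : Fin n → Fin 4, ∀ k : ℕ, MeasurableSet
      (if h : k < n then ({σ ⟨k, h⟩} : Set (Fin 4)) else Set.univ) := by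
    intro σ k
    split_ifs
    · exact MeasurableSet.singleton _
    · exact MeasurableSet.univ
  have h2 : ∀ σ : Fin n → Fin 4, (Measure.infinitePi (fun _ : ℕ => uS2))
      {s | ∀ k : Fin n, s k = σ k} = ((4 : ℝ≥0∞)⁻¹) ^ n := by
    intro σ
    rw [hcyl, Measure.infinitePi_pi _ (fun k _ => hmeasb σ k)]
    rw [Finset.prod_congr rfl (g := fun _ => (4 : ℝ≥0∞)⁻¹)]
    · simp
    · intro k hk
      rw [dif_pos (Finset.mem_range.mp hk), uS2_singleton]
  have h3 : ∀ σ : Fin n → Fin 4, MeasurableSet {s : ℕ → Fin 4 | ∀ k : Fin n, s k = σ k} := by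
    intro σ
    rw [hcyl]
    exact MeasurableSet.pi (Finset.countable_toSet _) fun k _ => hmeasb σ k
  rw [h1, measure_biUnion_finset]
  · simp_rw [h2]
    rw [Finset.sum_const, nsmul_eq_mul, Av_tr, div_eq_mul_inv]
    have hc : (Fintype.card (Stp 2) : ℝ≥0∞) = 4 := by
      rw [show Fintype.card (Stp 2) = 4 from rfl]; norm_num
    rw [hc, ← ENNReal.inv_pow]
    congr 1
    rw [hF]
    have : (Finset.univ.filter fun σ : Fin n → Fin 4 =>
        tr (List.ofFn (fun k : Fin n => psi2 (σ k))) = A).card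
        = (Finset.univ.filter fun s : Fin n → Stp 2 => tr (List.ofFn s) = A).card := by
      refine Finset.card_bij (fun σ _ k => psi2 (σ k)) ?_ ?_ ?_
      · intro σ hσ
        simpa using hσ
      · intro σ _ σ' _ h
        funext k
        exact psi2_bij.1 (congrFun h k)
      · intro s hs
        choose inv hinv using psi2_bij.2
        refine ⟨fun k => inv (s k), ?_, ?_⟩
        · simp only [Finset.mem_filter, Finset.mem_univ, true_and, hinv] at hs ⊢
          exact hs
        · funext k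
          exact hinv _
    rw [this]
  · intro σ _ σ' _ hne
    refine Set.disjoint_left.mpr fun s hs hs' => hne ?_
    funext k
    rw [← hs k, hs' k]
  · intro σ _
    exact h3 σ

/-- the law of a mark -/
theorem markLaw_single2 (m : PMF ℕ) (A : Finset (V 2)) :
    markLaw m.toMeasure uS2 gg2 {A} = nu (sh fun l => (m l).toReal) A := by
  unfold markLaw nu
  rw [lintegral_countable']
  refine tsum_congr fun n => ?_
  have h1 : {s : ℕ → Fin 4 | gg2 n s ∈ ({A} : Set (Finset (V 2)))} = {s | gg2 n s = A} := by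
    ext s; simp
  rw [h1, inf_tr2, PMF.toMeasure_apply_singleton _ _ (MeasurableSet.singleton _), mul_comm,
    sh_succ, ENNReal.ofReal_toReal (PMF.apply_ne_top m _)]

theorem markLaw_finset2 (m : PMF ℕ) (B : Finset (Finset (V 2))) :
    markLaw m.toMeasure uS2 gg2 (B : Set (Finset (V 2)))
      = ∑ A ∈ B, nu (sh fun l => (m l).toReal) A := by
  have h1 : ∀ A ∈ B, nu (sh fun l => (m l).toReal) A = markLaw m.toMeasure uS2 gg2 {A} :=
    fun A _ => (markLaw_single2 m A).symm
  rw [Finset.sum_congr rfl h1]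
  unfold markLaw
  rw [← lintegral_finset_sum]
  · refine lintegral_congr fun n => ?_
    have h2 : {s : ℕ → Fin 4 | gg2 n s ∈ (B : Set (Finset (V 2)))}
        = ⋃ A ∈ B, {s | gg2 n s ∈ ({A} : Set (Finset (V 2)))} := by
      ext s; simp
    rw [h2, measure_biUnion_finset]
    · intro A _ A' _ hne
      refine Set.disjoint_left.mpr fun s hs hs' => hne ?_
      simp only [Set.mem_ofPred_eq, Set.mem_singleton_iff] at hs hs'
      rw [← hs, hs']
    · intro A _
      exact gg2_measurable n (MeasurableSet.singleton A)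
  · intro A _
    exact measurable_from_nat

/-- the probability space -/
def P2 (v : NNReal) (m : PMF ℕ) :
    Measure ((Z2 → ℕ) × ((Z2 × ℕ → ℕ) × (Z2 × ℕ × ℕ → Fin 4))) :=
  (Measure.infinitePi (fun _ : Z2 => (poissonPMF v).toMeasure)).prod
    ((Measure.infinitePi (fun _ : Z2 × ℕ => m.toMeasure)).prod
      (Measure.infinitePi (fun _ : Z2 × ℕ × ℕ => uS2)))

instance (v : NNReal) (m : PMF ℕ) : IsProbabilityMeasure (P2 v m) := by
  unfold P2; infer_instance

/-- presence indicators -/
def xi2 (k : V 2 × Finset (V 2)) (ω : (Z2 → ℕ) × ((Z2 × ℕ → ℕ) × (Z2 × ℕ × ℕ → Fin 4))) : Bool :=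
  open Classical in decide (∃ i < ω.1 (phiInv2 k.1), mark gg2 (phiInv2 k.1, i) ω.2 = k.2)

theorem xi2_false_iff (k : V 2 × Finset (V 2))
    (ω : (Z2 → ℕ) × ((Z2 × ℕ → ℕ) × (Z2 × ℕ × ℕ → Fin 4))) :
    xi2 k ω = false ↔ ∀ i < ω.1 (phiInv2 k.1), mark gg2 (phiInv2 k.1, i) ω.2 ≠ k.2 := by
  unfold xi2
  simp

theorem xi2_true_iff (k : V 2 × Finset (V 2))
    (ω : (Z2 → ℕ) × ((Z2 × ℕ → ℕ) × (Z2 × ℕ × ℕ → Fin 4))) :
    xi2 k ω = true ↔ ∃ i < ω.1 (phiInv2 k.1), mark gg2 (phiInv2 k.1, i) ω.2 = k.2 := by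
  unfold xi2
  simp

theorem nu_sum_le2 (m : PMF ℕ) :
    ∑' n : ℕ, ENNReal.ofReal ((sh fun l => (m l).toReal) (n + 1)) ≤ 1 := by
  have h : ∀ n : ℕ, ENNReal.ofReal ((sh fun l => (m l).toReal) (n + 1)) = m n :=
    fun n => ENNReal.ofReal_toReal (PMF.apply_ne_top m _)
  simp_rw [h]
  rw [m.tsum_coe]

/-- joint absence probabilities -/
theorem absent2 (v : NNReal) (m : PMF ℕ) (J : Finset (V 2 × Finset (V 2))) :
    P2 v m (⋂ k ∈ J, {ω | xi2 k ω = false})
      = ∏ k ∈ J, ENNReal.ofReal (Real.exp (-(v * (nu (sh fun l => (m l).toReal) k.2).toReal))) := by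
  classical
  set nu' := fun A : Finset (V 2) => nu (sh fun l => (m l).toReal) A with hnu'
  have hnufin : ∀ A, nu' A ≠ ⊤ := fun A =>
    ne_top_of_le_ne_top (by simp) (nu_le_one _ (nu_sum_le2 m) A)
  set B : Z2 → Finset (Finset (V 2)) := fun x => (J.filter fun k => phiInv2 k.1 = x).image Prod.snd
    with hB
  have hset : (⋂ k ∈ J, {ω | xi2 k ω = false})
      = {ω | ∀ x ∈ J.image (fun k => phiInv2 k.1), ∀ i < ω.1 x,
          mark gg2 (x, i) ω.2 ∉ ((B x : Finset (Finset (V 2))) : Set (Finset (V 2)))} := by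
    ext ω
    simp only [Set.mem_iInter, Set.mem_ofPred_eq, Finset.mem_image, hB, Finset.coe_image,
      Finset.coe_filter, Set.mem_image, not_exists, not_and]
    constructor
    · rintro h x ⟨k, hk, rfl⟩ i hi k' ⟨hk', hx⟩ heq
      have := (xi2_false_iff k' ω).mp (h k' hk')
      rw [hx] at this
      exact this i hi heq.symm
    · intro h k hk
      rw [xi2_false_iff]
      intro i hi heq
      exact h (phiInv2 k.1) ⟨k, hk, rfl⟩ i hi k ⟨hk, rfl⟩ heq.symm
  have hle1 : ∀ x, markLaw m.toMeasure uS2 gg2 (B x : Set (Finset (V 2))) ≤ 1 := by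
    intro x
    unfold markLaw
    calc _ ≤ ∫⁻ _, 1 ∂m.toMeasure := lintegral_mono fun n => prob_le_one
      _ = 1 := by simp
  rw [hset]
  unfold P2
  rw [avoid (poissonPMF v).toMeasure m.toMeasure uS2 gg2 gg2_measurable _
    (fun x => (B x : Set (Finset (V 2)))) (fun x => trivial)]
  have hx : ∀ x ∈ J.image (fun k => phiInv2 k.1),
      ∫⁻ n, (1 - markLaw m.toMeasure uS2 gg2 (B x : Set (Finset (V 2)))) ^ n ∂(poissonPMF v).toMeasure
      = ∏ k ∈ J.filter (fun k => phiInv2 k.1 = x), ENNReal.ofReal (Real.exp (-(v * (nu' k.2).toReal))) := by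
    intro x _
    have h1 : markLaw m.toMeasure uS2 gg2 (B x : Set (Finset (V 2)))
        = ENNReal.ofReal (markLaw m.toMeasure uS2 gg2 (B x : Set (Finset (V 2)))).toReal :=
      (ENNReal.ofReal_toReal (ne_top_of_le_ne_top (by simp) (hle1 x))).symm
    rw [h1, poisson_gf v _ ENNReal.toReal_nonneg (by
      have := ENNReal.toReal_mono (by simp) (hle1 x)
      simpa using this)]
    rw [markLaw_finset2 m, ENNReal.toReal_sum (fun A _ => hnufin A)]
    rw [← ENNReal.ofReal_prod_of_nonneg (fun k _ => (Real.exp_pos _).le), ← Real.exp_sum]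
    congr 2
    rw [Finset.sum_neg_distrib, ← Finset.mul_sum, hB]
    dsimp only
    rw [Finset.sum_image]
    intro k hk k' hk' heq
    simp only [Finset.coe_filter, Set.mem_ofPred_eq] at hk hk'
    have h2 : k.1 = k'.1 := by
      rw [← phi2_phiInv2 k.1, ← phi2_phiInv2 k'.1, hk.2, hk'.2]
    exact Prod.ext h2 heq
  rw [Finset.prod_congr rfl hx]
  exact Finset.prod_fiberwise_of_maps_to (fun k hk => Finset.mem_image_of_mem _ hk) _

theorem xi2_measurableSet (k : V 2 × Finset (V 2)) : MeasurableSet {ω | xi2 k ω = false} := by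
  have : {ω | xi2 k ω = false} = ⋂ i : ℕ, ({ω | i < ω.1 (phiInv2 k.1)}ᶜ ∪
      {ω | mark gg2 (phiInv2 k.1, i) ω.2 ∈ ({k.2} : Set (Finset (V 2)))}ᶜ) := by
    ext ω
    simp only [Set.mem_ofPred_eq, Set.mem_iInter, Set.mem_union, Set.mem_compl_iff,
      Set.mem_singleton_iff]
    rw [xi2_false_iff]
    constructor
    · intro h i
      by_cases hi : i < ω.1 (phiInv2 k.1)
      · exact Or.inr (h i hi)
      · exact Or.inl hi
    · intro h i hi
      rcases h i with h1 | h1
      · exact absurd hi h1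
      · exact h1
  rw [this]
  refine MeasurableSet.iInter fun i => MeasurableSet.union (MeasurableSet.compl ?_)
    (MeasurableSet.compl ?_)
  · have h1 : Measurable (fun ω : (Z2 → ℕ) × ((Z2 × ℕ → ℕ) × (Z2 × ℕ × ℕ → Fin 4)) =>
      ω.1 (phiInv2 k.1)) := by fun_prop
    exact h1 (measurableSet_Ioi (a := i))
  · exact ((mark_measurable gg2 gg2_measurable (phiInv2 k.1, i)).comp measurable_snd)
      (MeasurableSet.singleton _)

theorem xi2_measurable (k : V 2 × Finset (V 2)) : Measurable (xi2 k) := by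
  refine measurable_to_bool ?_
  have : xi2 k ⁻¹' {true} = {ω | xi2 k ω = false}ᶜ := by
    ext ω; simp
  rw [this]
  exact (xi2_measurableSet k).compl

theorem xi2_prob (v : NNReal) (m : PMF ℕ) (k : V 2 × Finset (V 2)) :
    P2 v m {ω | xi2 k ω = true}
      = ENNReal.ofReal (1 - Real.exp (-(v * (nu (sh fun l => (m l).toReal) k.2).toReal))) := by
  have h1 := absent2 v m {k}
  simp only [Finset.mem_singleton, Set.iInter_iInter_eq_left, Finset.prod_singleton] at h1
  have h2 : {ω | xi2 k ω = true} = {ω | xi2 k ω = false}ᶜ := by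
    ext ω; simp
  rw [h2, prob_compl_eq_one_sub (xi2_measurableSet k), h1, ENNReal.ofReal_sub _ (Real.exp_pos _).le,
    ENNReal.ofReal_one]

theorem xi2_indep (v : NNReal) (m : PMF ℕ) : iIndepFun xi2 (P2 v m) := by
  have h1 : iIndepSet (fun k => {ω | xi2 k ω = false}) (P2 v m) := by
    rw [iIndepSet_iff_meas_biInter xi2_measurableSet]
    intro J
    rw [absent2 v m J]
    refine Finset.prod_congr rfl fun k _ => ?_
    have h2 := absent2 v m {k}
    simp only [Finset.mem_singleton, Set.iInter_iInter_eq_left, Finset.prod_singleton] at h2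
    exact h2.symm
  have h3 := iIndepSet.iIndepFun_indicator (β := ℕ) (m := Nat.instMeasurableSpace) h1
  have h4 := h3.comp (fun _ n => decide (n = 0)) (fun _ => measurable_from_nat)
  convert h4 using 1
  funext k ω
  simp only [Function.comp_apply, Set.indicator_apply, Set.mem_ofPred_eq]
  by_cases h : xi2 k ω = false
  · rw [if_pos h, h]; simp
  · rw [if_neg h]
    simpa using h

end

end Pool.Agent.H592
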